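import Pool.Agent.H352R3.FK.Pairs

set_option autoImplicit false

/-! Counting primes and prime pairs. -/

namespace Pool.Agent.H352R3.FK

open Finset
open Pool.Agent.H373R2.T7
open ArithmeticFunction (vonMangoldt)

/-- sum over non-primes -/
noncomputable def NP (N : ℕ) : ℝ := ∑ n ∈ (Ioc 0 N).filter (fun n => ¬ n.Prime), vonMangoldt n

lemma NP_le (N : ℕ) (hN : 1 ≤ N) : NP N ≤ 2 * √N * Real.log N := by
  have h1 := Chebyshev.psi_sub_theta_eq_sum_not_prime (N : ℝ)
  rw [Nat.floor_natCast] at h1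
  unfold NP
  rw [← h1]
  exact Chebyshev.psi_sub_theta_le (by exact_mod_cast hN)

lemma NP_nonneg (N : ℕ) : 0 ≤ NP N := sum_nonneg fun _ _ => ArithmeticFunction.vonMangoldt_nonneg

/-- the pairs counted -/
def PC (X : ℕ) (α k : ℤ) (A B : ℕ) : Finset ℕ :=
  (Ioc A B).filter (fun n => n.Prime ∧ (α * n + k).toNat.Prime ∧ (X : ℤ) ≤ 8 * (α * n + k))

/-- primes in an interval -/
def PI (A B : ℕ) : Finset ℕ := (Ioc A B).filter Nat.Prime

lemma log8 : Real.log 8 ≤ 3 := by
  have : (8 : ℝ) = 2 ^ 3 := by norm_num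
  rw [this, Real.log_pow]
  have := Real.log_two_lt_d9
  push_cast
  linarith

lemma log_ge_of (X m : ℕ) (hX : 1 ≤ X) (h : X ≤ 8 * m) : Real.log X - 3 ≤ Real.log m := by
  have hX0 : (0 : ℝ) < X := by exact_mod_cast hX
  have h2 : Real.log (X / 8) ≤ Real.log m := by
    apply Real.log_le_log (by positivity)
    rw [div_le_iff₀ (by norm_num)]
    have : X ≤ m * 8 := by omega
    exact_mod_cast this
  rw [Real.log_div hX0.ne' (by norm_num)] at h2
  have := log8
  linarith

theorem pcount (η : ℝ) (hη : 0 < η) : ∃ X0 : ℕ, ∀ X : ℕ, X0 ≤ X → ∀ A B : ℕ, A ≤ B → B ≤ X → X ≤ 8 * A →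
    (PI A B).card ≤ ((B : ℝ) - A + η * X) / Real.log X ∧ ((B : ℝ) - A - η * X) / Real.log X ≤ (PI A B).card := by
  obtain ⟨C, N1, hC, hpnt⟩ := pnt_lam 2
  obtain ⟨n1, h1⟩ := ev_L' (16 / η * (C + 1) + 300 / η + 10)
  obtain ⟨n2, h2⟩ := ev_log' 2 1
  refine ⟨max (max (8 * N1) n1) (max n2 8), fun X hX A B hAB hBX hXA => ?_⟩
  have hXN : 8 * N1 ≤ X := le_trans (le_trans (le_max_left _ _) (le_max_left _ _)) hX
  have hL := h1 X (le_trans (le_trans (le_max_right _ _) (le_max_left _ _)) hX)
  have hLs := h2 X (le_trans (le_trans (le_max_left _ _) (le_max_right _ _)) hX)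
  have hX8 : 8 ≤ X := le_trans (le_trans (le_max_right _ _) (le_max_right _ _)) hX
  have hX0 : (0 : ℝ) < X := by exact_mod_cast (by omega : 0 < X)
  set L := Real.log X with hLdef
  have hCη : 0 < 16 / η * (C + 1) := by positivity
  have h300 : 0 < 300 / η := by positivity
  have hL10 : 10 < L := by linarith
  have hLη : 300 ≤ η * L := by
    have : 300 / η ≤ L := by linarith
    rw [div_le_iff₀ hη] at this
    linarith
  have hLC : 16 * (C + 1) ≤ η * L := by
    have : 16 / η * (C + 1) ≤ L := by linarith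
    have h3 : 16 / η * (C + 1) * η ≤ L * η := mul_le_mul_of_nonneg_right this hη.le
    have h4 : 16 / η * (C + 1) * η = 16 * (C + 1) := by field_simp
    linarith
  have hXL : L ≤ X := by
    have := Real.log_le_sub_one_of_pos hX0
    linarith
  -- psi bounds
  have hpsi : ∀ N : ℕ, A ≤ N → N ≤ X → |lam1 N - N| ≤ η / 4 * X := by
    intro N hN hNX
    refine (hpnt N (by omega)).trans ?_
    have h3 : L - 3 ≤ Real.log N := log_ge_of X N (by omega) (by omega)
    have h4 : L / 2 ≤ Real.log N := by linarith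
    have h5 : (N : ℝ) / Real.log N ^ 2 ≤ X / (L / 2) ^ 2 := by
      apply div_le_div₀ hX0.le (by exact_mod_cast hNX) (by positivity)
      exact pow_le_pow_left₀ (by positivity) h4 2
    have h6 : (X : ℝ) / (L / 2) ^ 2 = 4 * X / L ^ 2 := by field_simp; ring
    rw [h6] at h5
    have h7 : C * (4 * X / L ^ 2) ≤ η / 8 * X := by
      rw [mul_div_assoc', div_le_iff₀ (by positivity)]
      have : C * 32 ≤ η * L ^ 2 := by
        calc C * 32 ≤ 16 * (C + 1) * 10 := by linarith
          _ ≤ (η * L) * L := mul_le_mul hLC hL10.le (by norm_num) (by positivity)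
          _ = η * L ^ 2 := by ring
      nlinarith
    have h8 : 2 ≤ η / 8 * X := by
      have : η * L ≤ η * X := mul_le_mul_of_nonneg_left hXL hη.le
      linarith
    have h9 : C * ((N : ℝ) / Real.log N ^ 2) ≤ C * (4 * X / L ^ 2) := mul_le_mul_of_nonneg_left h5 hC.le
    linarith
  have hA := abs_le.1 (hpsi A le_rfl (by omega))
  have hB := abs_le.1 (hpsi B hAB hBX)
  have hsum : lam1 B = lam1 A + ∑ n ∈ Ioc A B, vonMangoldt n := by
    unfold lam1
    rw [← sum_union]
    · congr 1
      ext n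
      rw [mem_union, mem_Icc, mem_Icc, mem_Ioc]
      omega
    · rw [disjoint_left]
      intro n h2 h3
      rw [mem_Icc] at h2
      rw [mem_Ioc] at h3
      omega
  set c : ℝ := ((PI A B).card : ℝ) with hc
  have hc0 : 0 ≤ c := Nat.cast_nonneg _
  have hlow : c * (L - 3) ≤ ∑ n ∈ Ioc A B, vonMangoldt n := by
    have h3 : c * (L - 3) = ∑ n ∈ PI A B, (L - 3) := by rw [sum_const, nsmul_eq_mul]
    rw [h3]
    refine le_trans (sum_le_sum (g := fun n => vonMangoldt n) ?_) (sum_le_sum_of_subset_of_nonneg (filter_subset _ _)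
      (fun _ _ _ => ArithmeticFunction.vonMangoldt_nonneg))
    intro n hn
    unfold PI at hn
    rw [mem_filter, mem_Ioc] at hn
    rw [ArithmeticFunction.vonMangoldt_apply_prime hn.2]
    exact log_ge_of X n (by omega) (by omega)
  have hup : ∑ n ∈ Ioc A B, vonMangoldt n ≤ c * L + NP X := by
    rw [← sum_filter_add_sum_filter_not (Ioc A B) Nat.Prime]
    apply add_le_add
    · have h3 : c * L = ∑ n ∈ PI A B, L := by rw [sum_const, nsmul_eq_mul]
      rw [h3]
      apply sum_le_sum
      intro n hn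
      rw [mem_filter, mem_Ioc] at hn
      refine ArithmeticFunction.vonMangoldt_le_log.trans ?_
      apply Real.log_le_log
      · exact_mod_cast (by omega : 0 < n)
      · exact_mod_cast (by omega : n ≤ X)
    · unfold NP
      apply sum_le_sum_of_subset_of_nonneg
      · intro n hn
        rw [mem_filter, mem_Ioc] at hn ⊢
        exact ⟨by omega, hn.2⟩
      · intro _ _ _; exact ArithmeticFunction.vonMangoldt_nonneg
  have hNP : NP X ≤ η / 4 * X := by
    refine (NP_le X (by omega)).trans ?_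
    rw [one_mul] at hLs
    have h3 : √(X : ℝ) * √X = X := Real.mul_self_sqrt hX0.le
    have h4 : 0 < √(X : ℝ) := Real.sqrt_pos.2 hX0
    have h5 : 2 * √(X : ℝ) * L * L ≤ 2 * X := by
      calc 2 * √(X : ℝ) * L * L = 2 * √(X : ℝ) * L ^ 2 := by ring
        _ ≤ 2 * √(X : ℝ) * √X := mul_le_mul_of_nonneg_left hLs (by positivity)
        _ = 2 * X := by rw [mul_assoc, h3]
    have h6 : 2 * √(X : ℝ) * L * 8 ≤ 2 * √(X : ℝ) * L * (η * L) := by
      apply mul_le_mul_of_nonneg_left (by linarith) (by positivity)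
    nlinarith
  have hS : ∑ n ∈ Ioc A B, vonMangoldt n = lam1 B - lam1 A := by linarith
  rw [hS] at hlow hup
  constructor
  · rw [le_div_iff₀ (by linarith)]
    have h3 : c * (L / 2) ≤ c * (L - 3) := mul_le_mul_of_nonneg_left (by linarith) hc0
    have h4 : (B : ℝ) ≤ X := by exact_mod_cast hBX
    have h5 : (0 : ℝ) ≤ A := Nat.cast_nonneg _
    have h6 : c * L ≤ 2 * (X + η / 2 * X) := by linarith [hA.1, hA.2, hB.1, hB.2]
    have h7 : c * 3 ≤ η / 4 * X + η / 4 * X := by
      have h8 : c * L * 6 ≤ (12 + 6 * η) * X := by linarith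
      -- c * 3 * L ≤ (6 + 3 η) X ≤ η/2 X L
      have h9 : c * 3 * L ≤ (η / 2 * X) * L := by
        have h10 : (6 + 3 * η) * X ≤ (η / 2 * X) * L := by
          have h11 : 6 + 3 * η ≤ η / 2 * L := by nlinarith
          nlinarith
        nlinarith
      have := le_of_mul_le_mul_right h9 (by linarith)
      linarith
    linarith [hA.1, hA.2, hB.1, hB.2]
  · rw [div_le_iff₀ (by linarith)]
    linarith [hA.1, hA.2, hB.1, hB.2]

end Pool.Agent.H352R3.FK
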