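import Pool.Agent.H352R3.FK.Cnt

set_option autoImplicit false

/-! Counting prime pairs. -/

namespace Pool.Agent.H352R3.FK

open Finset
open Pool.Agent.H373R2.T7
open ArithmeticFunction (vonMangoldt)

/-- count bounds -/
def CntBd (η : ℝ) (z X : ℕ) (α : ℤ) (A B : ℕ) (k : ℤ) : Prop :=
  ((PC X α k A B).card ≤ (Sz z * ((B : ℝ) - A) + η * X) / Real.log X ^ 2) ∧
  ((∀ n ∈ Ioc A B, (X : ℤ) ≤ 8 * (α * (n : ℤ) + k)) →
    (Sz z * ((B : ℝ) - A) - η * X) / Real.log X ^ 2 ≤ (PC X α k A B).card)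

lemma cnt_up (η : ℝ) (hη : 0 < η) (z X : ℕ) (hz : 2 ≤ z) (α : ℤ) (A B : ℕ) (hAB : A ≤ B) (hBX : B ≤ X) (hXA : X ≤ 8 * A)
    (hX8 : 8 ≤ X) (hL10 : 10 ≤ Real.log X) (hLη : 74 ≤ η * Real.log X)
    (k : ℤ) (h : PairBd z X 5 α A B k) :
    ((PC X α k A B).card : ℝ) * Real.log X ^ 2 ≤ Sz z * ((B : ℝ) - A) + η * X ∧
    ((PC X α k A B).card : ℝ) * Real.log X ^ 2 ≤ 12 * X := by
  set L := Real.log X with hLdef
  have hX0 : (0 : ℝ) < X := by exact_mod_cast (by omega : 0 < X)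
  have hL0 : 0 < L := by linarith
  set c : ℝ := ((PC X α k A B).card : ℝ) with hc
  have hc0 : 0 ≤ c := Nat.cast_nonneg _
  have hlow : c * (L - 3) ^ 2 ≤ ∑ n ∈ Ioc A B, vonMangoldt n * vonMangoldt (α * n + k).toNat := by
    have h3 : c * (L - 3) ^ 2 = ∑ n ∈ PC X α k A B, (L - 3) ^ 2 := by rw [sum_const, nsmul_eq_mul]
    rw [h3]
    refine le_trans (sum_le_sum (g := fun n => vonMangoldt n * vonMangoldt (α * n + k).toNat) ?_)
      (sum_le_sum_of_subset_of_nonneg (filter_subset _ _)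
      (fun _ _ _ => mul_nonneg ArithmeticFunction.vonMangoldt_nonneg ArithmeticFunction.vonMangoldt_nonneg))
    intro n hn
    unfold PC at hn
    rw [mem_filter, mem_Ioc] at hn
    obtain ⟨⟨h1, h2⟩, hp1, hp2, h4⟩ := hn
    rw [ArithmeticFunction.vonMangoldt_apply_prime hp1, ArithmeticFunction.vonMangoldt_apply_prime hp2, sq]
    apply mul_le_mul
    · exact log_ge_of X n (by omega) (by omega)
    · exact log_ge_of X _ (by omega) (by omega)
    · linarith
    · apply Real.log_nonneg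
      exact_mod_cast (by omega : 1 ≤ n)
  have hS2 : Sz z * ((B : ℝ) - A) ≤ 2 * X := by
    apply mul_le_mul (Sz_bounds z hz).2
    · have h4 : (B : ℝ) ≤ X := by exact_mod_cast hBX
      have h5 : (0 : ℝ) ≤ A := Nat.cast_nonneg _
      linarith
    · have : (A : ℝ) ≤ B := by exact_mod_cast hAB
      linarith
    · norm_num
  have hup := h.1
  set S := Sz z * ((B : ℝ) - A) with hS
  have hX5 : (X : ℝ) / L ^ 5 ≤ X / L := by
    apply div_le_div_of_nonneg_left hX0.le hL0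
    calc L = L ^ 1 := (pow_one L).symm
      _ ≤ L ^ 5 := pow_le_pow_right₀ (by linarith) (by norm_num)
  have hXL10 : (X : ℝ) / L ≤ X / 10 := div_le_div_of_nonneg_left hX0.le (by norm_num) hL10
  have hXLη : 74 * ((X : ℝ) / L) ≤ η * X := by
    rw [mul_div_assoc', div_le_iff₀ hL0]
    nlinarith
  have h1 : c * (L - 3) ^ 2 ≤ 3 * X := by linarith
  have h2 : c * L ^ 2 ≤ 12 * X := by
    have h3 : (L / 2) ^ 2 ≤ (L - 3) ^ 2 := pow_le_pow_left₀ (by positivity) (by linarith) 2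
    have h4 : c * (L / 2) ^ 2 ≤ c * (L - 3) ^ 2 := mul_le_mul_of_nonneg_left h3 hc0
    nlinarith
  refine ⟨?_, h2⟩
  have h3 : c * (6 * L) ≤ 72 * (X / L) := by
    rw [mul_div_assoc', le_div_iff₀ hL0]
    nlinarith
  nlinarith

lemma cnt_low (η : ℝ) (hη : 0 < η) (z X : ℕ) (hz : 2 ≤ z) (α : ℤ) (hα : α = 1 ∨ α = -1 ∨ α = 2 ∨ α = -2)
    (A B : ℕ) (hAB : A ≤ B) (hBX : B ≤ X) (hXA : X ≤ 8 * A)
    (hX8 : 8 ≤ X) (hL10 : 10 ≤ Real.log X) (hLη : 74 ≤ η * Real.log X) (hLs : Real.log X ^ 3 ≤ √X)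
    (k : ℤ) (hk : |k| ≤ 4 * X) (h : PairBd z X 5 α A B k) (hpos : ∀ n ∈ Ioc A B, (X : ℤ) ≤ 8 * (α * (n : ℤ) + k)) :
    Sz z * ((B : ℝ) - A) - η * X ≤ ((PC X α k A B).card : ℝ) * Real.log X ^ 2 := by
  have hc12 := (cnt_up η hη z X hz α A B hAB hBX hXA hX8 hL10 hLη k h).2
  set L := Real.log X with hLdef
  have hX0 : (0 : ℝ) < X := by exact_mod_cast (by omega : 0 < X)
  have hL0 : 0 < L := by linarith
  set c : ℝ := ((PC X α k A B).card : ℝ) with hc
  have hc0 : 0 ≤ c := Nat.cast_nonneg _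
  have hm6 : ∀ n ∈ Ioc A B, α * (n : ℤ) + k ≤ ((6 * X : ℕ) : ℤ) := by
    intro n hn
    rw [mem_Ioc] at hn
    have h1 := abs_le.1 hk
    have h2 : (n : ℤ) ≤ X := by exact_mod_cast hn.2.trans hBX
    have h3 : (0 : ℤ) ≤ n := by positivity
    push_cast
    rcases hα with h | h | h | h <;> rw [h] <;> linarith [h1.2]
  have hlog6 : Real.log ((6 * X : ℕ) : ℝ) ≤ L + 3 := by
    push_cast
    rw [Real.log_mul (by norm_num) hX0.ne']
    have h1 : Real.log 6 ≤ Real.log 8 := Real.log_le_log (by norm_num) (by norm_num)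
    have := log8
    linarith
  have hlow := h.2 (fun n hn => by have := hpos n hn; omega)
  rw [← hLdef] at hlow
  set S := Sz z * ((B : ℝ) - A) with hS
  have hΛn : ∀ n ∈ Ioc A B, vonMangoldt n ≤ L := by
    intro n hn
    rw [mem_Ioc] at hn
    refine ArithmeticFunction.vonMangoldt_le_log.trans ?_
    apply Real.log_le_log
    · exact_mod_cast (by omega : 0 < n)
    · exact_mod_cast (by omega : n ≤ X)
  have hΛm : ∀ n ∈ Ioc A B, vonMangoldt (α * n + k).toNat ≤ L + 3 := by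
    intro n hn
    have h1 := hpos n hn
    have h2 := hm6 n hn
    refine ArithmeticFunction.vonMangoldt_le_log.trans (le_trans ?_ hlog6)
    apply Real.log_le_log
    · exact_mod_cast (by omega : 0 < (α * (n : ℤ) + k).toNat)
    · exact_mod_cast (by omega : (α * (n : ℤ) + k).toNat ≤ 6 * X)
  have hcov : ∑ n ∈ Ioc A B, vonMangoldt n * vonMangoldt (α * n + k).toNat ≤
      ∑ n ∈ PC X α k A B, vonMangoldt n * vonMangoldt (α * n + k).toNat +
      ∑ n ∈ (Ioc A B).filter (fun n => ¬ n.Prime), vonMangoldt n * vonMangoldt (α * n + k).toNat +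
      ∑ n ∈ (Ioc A B).filter (fun n : ℕ => ¬ (α * n + k).toNat.Prime), vonMangoldt n * vonMangoldt (α * n + k).toNat := by
    have hnn : ∀ n : ℕ, 0 ≤ vonMangoldt n * vonMangoldt (α * n + k).toNat :=
      fun n => mul_nonneg ArithmeticFunction.vonMangoldt_nonneg ArithmeticFunction.vonMangoldt_nonneg
    have hsub : Ioc A B ⊆ PC X α k A B ∪ (Ioc A B).filter (fun n => ¬ n.Prime) ∪
        (Ioc A B).filter (fun n : ℕ => ¬ (α * n + k).toNat.Prime) := by
      intro n hn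
      unfold PC
      rw [mem_union, mem_union, mem_filter, mem_filter, mem_filter]
      by_cases h1 : n.Prime
      · by_cases h2 : (α * n + k).toNat.Prime
        · exact Or.inl (Or.inl ⟨hn, h1, h2, hpos n hn⟩)
        · exact Or.inr ⟨hn, h2⟩
      · exact Or.inl (Or.inr ⟨hn, h1⟩)
    refine (sum_le_sum_of_subset_of_nonneg hsub (fun n _ _ => hnn n)).trans ?_
    refine (le_trans (?_ : _ ≤ ∑ n ∈ PC X α k A B ∪ (Ioc A B).filter (fun n => ¬ n.Prime), vonMangoldt n * vonMangoldt (α * n + k).toNat +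
      ∑ n ∈ (Ioc A B).filter (fun n : ℕ => ¬ (α * n + k).toNat.Prime), vonMangoldt n * vonMangoldt (α * n + k).toNat) ?_)
    · rw [← sum_union_inter (s₁ := PC X α k A B ∪ (Ioc A B).filter (fun n => ¬ n.Prime))]
      exact le_add_of_nonneg_right (sum_nonneg fun n _ => hnn n)
    · apply add_le_add _ le_rfl
      rw [← sum_union_inter (s₁ := PC X α k A B)]
      exact le_add_of_nonneg_right (sum_nonneg fun n _ => hnn n)
  have hPCs : ∑ n ∈ PC X α k A B, vonMangoldt n * vonMangoldt (α * n + k).toNat ≤ c * (L * (L + 3)) := by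
    have h3 : c * (L * (L + 3)) = ∑ n ∈ PC X α k A B, L * (L + 3) := by rw [sum_const, nsmul_eq_mul]
    rw [h3]
    apply sum_le_sum
    intro n hn
    have hn' : n ∈ Ioc A B := (mem_filter.1 hn).1
    exact mul_le_mul (hΛn n hn') (hΛm n hn') ArithmeticFunction.vonMangoldt_nonneg hL0.le
  have h2s : ∑ n ∈ (Ioc A B).filter (fun n => ¬ n.Prime), vonMangoldt n * vonMangoldt (α * n + k).toNat ≤ (L + 3) * NP X := by
    unfold NP
    rw [mul_sum]
    refine le_trans (sum_le_sum (g := fun n => (L + 3) * vonMangoldt n) ?_) ?_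
    · intro n hn
      have hn' : n ∈ Ioc A B := (mem_filter.1 hn).1
      rw [mul_comm]
      exact mul_le_mul_of_nonneg_right (hΛm n hn') ArithmeticFunction.vonMangoldt_nonneg
    · apply sum_le_sum_of_subset_of_nonneg
      · intro n hn
        rw [mem_filter, mem_Ioc] at hn ⊢
        exact ⟨by omega, hn.2⟩
      · intro n _ _
        exact mul_nonneg (by linarith) ArithmeticFunction.vonMangoldt_nonneg
  have h3s : ∑ n ∈ (Ioc A B).filter (fun n : ℕ => ¬ (α * n + k).toNat.Prime), vonMangoldt n * vonMangoldt (α * n + k).toNat ≤ L * NP (6 * X) := by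
    unfold NP
    rw [mul_sum]
    refine le_trans (sum_le_sum (g := fun n : ℕ => L * vonMangoldt (α * n + k).toNat) ?_) ?_
    · intro n hn
      have hn' : n ∈ Ioc A B := (mem_filter.1 hn).1
      exact mul_le_mul_of_nonneg_right (hΛn n hn') ArithmeticFunction.vonMangoldt_nonneg
    · have hinj : Set.InjOn (fun n : ℕ => (α * n + k).toNat) (((Ioc A B).filter (fun n : ℕ => ¬ (α * n + k).toNat.Prime) : Finset ℕ) : Set ℕ) := by
        intro a ha b hb hab
        rw [mem_coe, mem_filter] at ha hb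
        have h1 := hpos a ha.1
        have h2 := hpos b hb.1
        have h3 : (α * (a : ℤ) + k).toNat = (α * (b : ℤ) + k).toNat := hab
        have h4 : α * (a : ℤ) + k = α * (b : ℤ) + k := by omega
        rcases hα with h | h | h | h <;> rw [h] at h4 <;> omega
      have himg := sum_image (s := (Ioc A B).filter (fun n : ℕ => ¬ (α * n + k).toNat.Prime))
        (g := fun n : ℕ => (α * n + k).toNat) (f := fun m => L * vonMangoldt m) hinj
      rw [← himg]
      apply sum_le_sum_of_subset_of_nonneg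
      · intro m hm
        rw [mem_image] at hm
        obtain ⟨n, hn, rfl⟩ := hm
        rw [mem_filter] at hn
        rw [mem_filter, mem_Ioc]
        have h1 := hpos n hn.1
        have h2 := hm6 n hn.1
        exact ⟨by omega, hn.2⟩
      · intro n _ _
        exact mul_nonneg (by linarith) ArithmeticFunction.vonMangoldt_nonneg
  have hsq : √(X : ℝ) * √X = X := Real.mul_self_sqrt hX0.le
  have hs0 : 0 < √(X : ℝ) := Real.sqrt_pos.2 hX0
  have hsL : √(X : ℝ) * L ^ 2 ≤ X / L := by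
    rw [le_div_iff₀ hL0]
    calc √(X : ℝ) * L ^ 2 * L = √(X : ℝ) * L ^ 3 := by ring
      _ ≤ √(X : ℝ) * √X := mul_le_mul_of_nonneg_left hLs hs0.le
      _ = X := hsq
  have hNP1 : NP X ≤ 2 * √X * L := NP_le X (by omega)
  have hNP2 : NP (6 * X) ≤ 12 * √X * L := by
    refine (NP_le (6 * X) (by omega)).trans ?_
    have h1 : √((6 * X : ℕ) : ℝ) ≤ 3 * √X := by
      push_cast
      rw [Real.sqrt_mul (by norm_num)]
      apply mul_le_mul_of_nonneg_right _ hs0.le
      rw [Real.sqrt_le_left (by norm_num)]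
      norm_num
    have h2 : 0 ≤ Real.log ((6 * X : ℕ) : ℝ) := by
      apply Real.log_nonneg
      exact_mod_cast (by omega : 1 ≤ 6 * X)
    calc 2 * √((6 * X : ℕ) : ℝ) * Real.log ((6 * X : ℕ) : ℝ) ≤ 2 * (3 * √X) * (2 * L) := by
          apply mul_le_mul _ _ h2 (by positivity)
          · linarith
          · linarith
      _ = 12 * √X * L := by ring
  have hX5 : (X : ℝ) / L ^ 5 ≤ X / L := by
    apply div_le_div_of_nonneg_left hX0.le hL0
    calc L = L ^ 1 := (pow_one L).symm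
      _ ≤ L ^ 5 := pow_le_pow_right₀ (by linarith) (by norm_num)
  have hXLη : 74 * ((X : ℝ) / L) ≤ η * X := by
    rw [mul_div_assoc', div_le_iff₀ hL0]
    nlinarith
  have h3 : c * (3 * L) ≤ 36 * (X / L) := by
    rw [mul_div_assoc', le_div_iff₀ hL0]
    nlinarith
  have h4 : (L + 3) * NP X ≤ 4 * (X / L) := by
    calc (L + 3) * NP X ≤ (2 * L) * (2 * √X * L) := by
          apply mul_le_mul (by linarith) hNP1 (NP_nonneg X) (by positivity)
      _ = 4 * (√(X : ℝ) * L ^ 2) := by ring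
      _ ≤ 4 * (X / L) := by linarith
  have h5 : L * NP (6 * X) ≤ 12 * (X / L) := by
    calc L * NP (6 * X) ≤ L * (12 * √X * L) := mul_le_mul_of_nonneg_left hNP2 hL0.le
      _ = 12 * (√(X : ℝ) * L ^ 2) := by ring
      _ ≤ 12 * (X / L) := by linarith
  have h6 : c * (L * (L + 3)) = c * L ^ 2 + c * (3 * L) := by ring
  have h7 : 0 ≤ (X : ℝ) / L := by positivity
  linarith

theorem cnt (η : ℝ) (hη : 0 < η) : ∃ (zf : ℕ → ℕ) (E X0 : ℕ), ∀ X : ℕ, X0 ≤ X → 2 ≤ zf X ∧ (zf X : ℝ) ≤ Real.log X ^ E ∧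
    ∀ α : ℤ, (α = 1 ∨ α = -1 ∨ α = 2 ∨ α = -2) → ∀ A B : ℕ, A ≤ B → B ≤ X → X ≤ 8 * A →
    ∃ Ex : Finset ℤ, (Ex.card : ℝ) ≤ X / Real.log X ^ 5 ∧
      ∀ k : ℤ, |k| ≤ 4 * X → k ∉ Ex → Adm (zf X) α k → CntBd η (zf X) X α A B k := by
  obtain ⟨zf, E, X0, h⟩ := pp 5
  obtain ⟨n1, h1⟩ := ev_L' (74 / η + 10)
  obtain ⟨n2, h2⟩ := ev_log' 3 1
  refine ⟨zf, E, max (max X0 n1) (max n2 8), fun X hX => ?_⟩
  have hXX0 : X0 ≤ X := le_trans (le_trans (le_max_left _ _) (le_max_left _ _)) hX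
  have hL := h1 X (le_trans (le_trans (le_max_right _ _) (le_max_left _ _)) hX)
  have hLs := h2 X (le_trans (le_trans (le_max_left _ _) (le_max_right _ _)) hX)
  have hX8 : 8 ≤ X := le_trans (le_trans (le_max_right _ _) (le_max_right _ _)) hX
  rw [one_mul] at hLs
  obtain ⟨hz2, hzE, hr⟩ := h X hXX0
  refine ⟨hz2, hzE, fun α hα A B hAB hBX hXA => ?_⟩
  obtain ⟨Ex, hEx, hE⟩ := hr α hα A B hAB hBX hXA
  refine ⟨Ex, hEx, fun k hk hkE hadm => ?_⟩
  have hp := hE k hk hkE hadm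
  have h74 : 0 < 74 / η := by positivity
  have hL10 : 10 ≤ Real.log X := by linarith
  have hLη : 74 ≤ η * Real.log X := by
    have : 74 / η ≤ Real.log X := by linarith
    rw [div_le_iff₀ hη] at this
    linarith
  constructor
  · rw [le_div_iff₀ (by positivity)]
    exact (cnt_up η hη _ X hz2 α A B hAB hBX hXA hX8 hL10 hLη k hp).1
  · intro hpos
    rw [div_le_iff₀ (by positivity)]
    exact cnt_low η hη _ X hz2 α hα A B hAB hBX hXA hX8 hL10 hLη hLs k hk hp hpos

end Pool.Agent.H352R3.FK
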