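import Pool.Agent.H352R3.FK.Design

set_option autoImplicit false

/-! The combined matching. -/

namespace Pool.Agent.H352R3.FK

open Finset

def tag : Fin 10 → Fin 3 := ![0, 1, 1, 1, 0, 0, 0, 0, 0, 2]

def E9 (ℓ t : ℕ) (Bd : Finset ℤ) : Finset (Fin 10 × (ℕ × ℕ)) :=
  ((univ : Finset (Fin 10)).filter (fun r => r ≠ 9)).biUnion (fun r => (RR ℓ t Bd r).image (fun e => (r, e)))

lemma mem_E9 {ℓ t : ℕ} {Bd : Finset ℤ} {p : Fin 10 × (ℕ × ℕ)} : p ∈ E9 ℓ t Bd ↔ p.1 ≠ 9 ∧ p.2 ∈ RR ℓ t Bd p.1 := by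
  unfold E9
  rw [mem_biUnion]
  constructor
  · rintro ⟨r, hr, h⟩
    rw [mem_image] at h
    obtain ⟨e, he, rfl⟩ := h
    exact ⟨(mem_filter.1 hr).2, he⟩
  · rintro ⟨h1, h2⟩
    exact ⟨p.1, mem_filter.2 ⟨mem_univ _, h1⟩, mem_image.2 ⟨p.2, h2, rfl⟩⟩

lemma card_E9 (ℓ t : ℕ) (Bd : Finset ℤ) : (E9 ℓ t Bd).card =
    ∑ r ∈ (univ : Finset (Fin 10)).filter (fun r => r ≠ 9), (RR ℓ t Bd r).card := by
  unfold E9
  rw [card_biUnion]
  · apply sum_congr rfl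
    intro r _
    apply card_image_of_injective
    intro a b hab
    exact (Prod.mk.inj hab).2
  · intro a _ b _ hab
    refine disjoint_left.2 ?_
    intro p hp1 hp2
    rw [mem_image] at hp1 hp2
    obtain ⟨e, _, rfl⟩ := hp1
    obtain ⟨e', _, h⟩ := hp2
    exact hab (Prod.mk.inj h).1.symm

lemma card_Ix (ℓ : ℕ) (r : Fin 10) (hr : r ≠ 9) : (Ix ℓ r).card = 6 * ℓ := by
  unfold Ix Jx
  rw [card_cells, if_neg hr, card_range]

lemma card_Iy (ℓ : ℕ) (r : Fin 10) (hr : r ≠ 9) : (Iy ℓ r).card = 6 * ℓ := by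
  unfold Iy Jy
  rw [card_cells, if_neg hr, card_range]

lemma card_Ix9 (ℓ : ℕ) : (Ix ℓ 9).card = 2 * ℓ := by
  unfold Ix Jx
  rw [card_cells, if_pos rfl, card_range]

lemma card_Iy9 (ℓ : ℕ) : (Iy ℓ 9).card = 2 * ℓ := by
  unfold Iy Jy
  rw [card_cells, if_pos rfl, Nat.card_Ico]
  omega

def ff (p : Fin 10 × (ℕ × ℕ)) : Fin 10 × ℕ := (p.1, p.2.1)
def fg (p : Fin 10 × (ℕ × ℕ)) : Fin 10 × ℕ := (p.1, p.2.2)
def fh (p : Fin 10 × (ℕ × ℕ)) : Fin 3 × ℕ := (tag p.1, col (sg p.1) p.2.1 p.2.2)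

lemma E9_ff {ℓ t z : ℕ} {Bd : Finset ℤ} {c0 c1 : ℝ} (hE : Env (DD ℓ) t z Bd c0 c1) (hz : 2 ≤ z)
    (u : Fin 10 × ℕ) : (((E9 ℓ t Bd).filter (fun p => ff p = u)).card : ℝ) ≤ 6 * ℓ * c1 := by
  by_cases hu : u.1 = 9
  · have h0 : (E9 ℓ t Bd).filter (fun p => ff p = u) = ∅ := by
      rw [eq_empty_iff_forall_notMem]
      intro p hp
      rw [mem_filter, mem_E9] at hp
      apply hp.1.1
      rw [← hu, ← hp.2]
      rfl
    rw [h0, card_empty, Nat.cast_zero]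
    have := hE.c1nn
    positivity
  · have h1 := deg_x hE hz (sg u.1) (sg_or u.1) (Ix ℓ u.1) (Iy ℓ u.1) (okIx ℓ _) (okIy ℓ _) u.2
    rw [card_Iy ℓ _ hu] at h1
    push_cast at h1
    refine le_trans ?_ h1
    have : ((E9 ℓ t Bd).filter (fun p => ff p = u)).card ≤ ((RR ℓ t Bd u.1).filter (fun e => e.1 = u.2)).card := by
      apply card_le_card_of_injOn (fun p => p.2)
      · intro p hp
        rw [mem_coe, mem_filter, mem_E9] at hp
        obtain ⟨⟨h2, h3⟩, h4⟩ := hp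
        rw [mem_coe, mem_filter]
        rw [← h4]
        exact ⟨h3, rfl⟩
      · intro p hp p' hp' hpp
        rw [mem_coe, mem_filter] at hp hp'
        have e1 : p.1 = u.1 := by rw [← hp.2]; rfl
        have e2 : p'.1 = u.1 := by rw [← hp'.2]; rfl
        exact Prod.ext (e1.trans e2.symm) hpp
    exact_mod_cast this

lemma E9_fg {ℓ t z : ℕ} {Bd : Finset ℤ} {c0 c1 : ℝ} (hE : Env (DD ℓ) t z Bd c0 c1)
    (u : Fin 10 × ℕ) : (((E9 ℓ t Bd).filter (fun p => fg p = u)).card : ℝ) ≤ 6 * ℓ * c1 := by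
  by_cases hu : u.1 = 9
  · have h0 : (E9 ℓ t Bd).filter (fun p => fg p = u) = ∅ := by
      rw [eq_empty_iff_forall_notMem]
      intro p hp
      rw [mem_filter, mem_E9] at hp
      apply hp.1.1
      rw [← hu, ← hp.2]
      rfl
    rw [h0, card_empty, Nat.cast_zero]
    have := hE.c1nn
    positivity
  · have h1 := deg_y hE (sg u.1) (sg_or u.1) (Ix ℓ u.1) (Iy ℓ u.1) (okIx ℓ _) (okIy ℓ _) u.2
    rw [card_Ix ℓ _ hu] at h1
    push_cast at h1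
    refine le_trans ?_ h1
    have : ((E9 ℓ t Bd).filter (fun p => fg p = u)).card ≤ ((RR ℓ t Bd u.1).filter (fun e => e.2 = u.2)).card := by
      apply card_le_card_of_injOn (fun p => p.2)
      · intro p hp
        rw [mem_coe, mem_filter, mem_E9] at hp
        obtain ⟨⟨h2, h3⟩, h4⟩ := hp
        rw [mem_coe, mem_filter]
        rw [← h4]
        exact ⟨h3, rfl⟩
      · intro p hp p' hp' hpp
        rw [mem_coe, mem_filter] at hp hp'
        have e1 : p.1 = u.1 := by rw [← hp.2]; rfl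
        have e2 : p'.1 = u.1 := by rw [← hp'.2]; rfl
        exact Prod.ext (e1.trans e2.symm) hpp
    exact_mod_cast this

lemma E9_fh {ℓ t z : ℕ} {Bd : Finset ℤ} {c0 c1 : ℝ} (hE : Env (DD ℓ) t z Bd c0 c1) (hz : 2 ≤ z) (ht : 1 ≤ t)
    (u : Fin 3 × ℕ) : (((E9 ℓ t Bd).filter (fun p => fh p = u)).card : ℝ) ≤ 18 * c1 := by
  have hsub : (E9 ℓ t Bd).filter (fun p => fh p = u) ⊆ ((univ : Finset (Fin 10)).filter (fun r => r ≠ 9)).biUnion
      (fun r => ((RR ℓ t Bd r).filter (fun e => col (sg r) e.1 e.2 = u.2)).image (fun e => (r, e))) := by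
    intro p hp
    rw [mem_filter, mem_E9] at hp
    rw [mem_biUnion]
    refine ⟨p.1, mem_filter.2 ⟨mem_univ _, hp.1.1⟩, ?_⟩
    rw [mem_image]
    refine ⟨p.2, ?_, rfl⟩
    rw [mem_filter]
    refine ⟨hp.1.2, ?_⟩
    rw [← hp.2]
    rfl
  have h1 : (((E9 ℓ t Bd).filter (fun p => fh p = u)).card : ℝ) ≤
      ∑ r ∈ (univ : Finset (Fin 10)).filter (fun r => r ≠ 9),
        ((((RR ℓ t Bd r).filter (fun e => col (sg r) e.1 e.2 = u.2)).image (fun e => (r, e))).card : ℝ) := by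
    exact_mod_cast (card_le_card hsub).trans card_biUnion_le
  refine h1.trans ?_
  have h2 : ∀ r ∈ (univ : Finset (Fin 10)).filter (fun r => r ≠ 9),
      ((((RR ℓ t Bd r).filter (fun e => col (sg r) e.1 e.2 = u.2)).image (fun e => (r, e))).card : ℝ) ≤ 2 * c1 := by
    intro r hr
    refine le_trans ?_ (deg_col hE hz ht r (mem_filter.1 hr).2 u.2)
    exact_mod_cast card_image_le
  refine (sum_le_sum h2).trans ?_
  rw [sum_const, nsmul_eq_mul]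
  have h3 : ((univ : Finset (Fin 10)).filter (fun r => r ≠ 9)).card = 9 := by decide
  rw [h3]
  have := hE.c1nn
  push_cast
  linarith

lemma pos_tab : ∀ r : Fin 10, (sg r = 1 ∨ (sg r = -1 ∧ 5000 + (ux r + 1) ≤ 2 * uy r)) := by decide

lemma hpos_all (ℓ t : ℕ) (ht : 1 ≤ t) (r : Fin 10) : ∀ x ∈ CL t (Ix ℓ r), ∀ v ∈ Iy ℓ r, ∀ y ∈ Ioc (v * t) ((v + 1) * t),
    ((DD ℓ * t : ℕ) : ℤ) ≤ 8 * (2 * (y : ℤ) + sg r * x) := by
  intro x hx v hv y hy
  obtain ⟨h1, h2, _⟩ := win ℓ t _ (Jx_sub ℓ r) _ _ hx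
  obtain ⟨h3, h4⟩ := cells_bd ℓ _ (Jy_sub ℓ r) _ _ hv
  rw [mem_Ioc] at hy
  have h5 : uy r * (VV ℓ * t) < y := by
    calc uy r * (VV ℓ * t) = (uy r * VV ℓ) * t := by ring
      _ ≤ v * t := Nat.mul_le_mul_right t h3
      _ < y := hy.1
  have hD : DD ℓ * t = 40000 * (VV ℓ * t) := by unfold DD; ring
  rw [hD]
  set s := VV ℓ * t with hs
  have htab : (sg r = 1 ∨ (sg r = -1 ∧ 5000 + (ux r + 1) ≤ 2 * uy r)) := pos_tab r
  have h6 := (ux_bd r).1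
  have h7 := (uy_bd r).1
  rcases htab with h | ⟨h, h8⟩
  · rw [h]
    have : 10100 * s ≤ uy r * s := Nat.mul_le_mul_right s h7
    push_cast
    omega
  · rw [h]
    have : (5000 + (ux r + 1)) * s ≤ 2 * uy r * s := Nat.mul_le_mul_right s h8
    have e1 : (5000 + (ux r + 1)) * s = 5000 * s + (ux r + 1) * s := by ring
    have e2 : 2 * uy r * s = 2 * (uy r * s) := by ring
    push_cast
    omega

theorem comb (ε : ℝ) (hε : 0 < ε) (hε1 : ε < 1) : ∃ ρ d₀ : ℝ, 0 < ρ ∧ 0 < d₀ ∧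
    ∀ (ℓ t z : ℕ) (Bd : Finset ℤ) (c0 c1 : ℝ), 1 ≤ ℓ → 3 ≤ ρ * ℓ → 1 ≤ t → 2 ≤ z → Env (DD ℓ) t z Bd c0 c1 →
      d₀ ≤ 6 * ℓ * c1 →
      ∃ M : Finset (Fin 10 × (ℕ × ℕ)), (∀ p ∈ M, p.2 ∈ RR ℓ t Bd p.1) ∧ Set.InjOn ff (M : Set (Fin 10 × (ℕ × ℕ))) ∧
        Set.InjOn fg (M : Set (Fin 10 × (ℕ × ℕ))) ∧ Set.InjOn fh (M : Set (Fin 10 × (ℕ × ℕ))) ∧
        (1 - ε) * (∑ r ∈ (univ : Finset (Fin 10)).filter (fun r => r ≠ 9), ((RR ℓ t Bd r).card : ℝ)) +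
          ((RR ℓ t Bd 9).card : ℝ) ≤ 6 * ℓ * c1 * M.card := by
  obtain ⟨ρ, d₀, hρ, hd₀, hrb⟩ := rainbow ε hε hε1
  refine ⟨ρ, d₀, hρ, hd₀, fun ℓ t z Bd c0 c1 hℓ hρℓ ht hz hE hd => ?_⟩
  have hc1 := hE.c1nn
  obtain ⟨M, hM1, hMf, hMg, hMh, hMc⟩ := hrb (E9 ℓ t Bd) ff fg fh (6 * ℓ * c1) hd (E9_ff hE hz) (E9_fg hE) (by
    intro u
    refine (E9_fh hE hz ht u).trans ?_
    nlinarith)
  obtain ⟨T, hT1, hTf, hTg, hTh, hTc⟩ := greedy (RR ℓ t Bd 9) (fun e => e.1) (fun e => e.2) (fun e => col (sg 9) e.1 e.2)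
    (2 * ℓ * c1) (by
      intro u
      have := deg_x hE hz (sg 9) (sg_or 9) (Ix ℓ 9) (Iy ℓ 9) (okIx ℓ _) (okIy ℓ _) u
      rw [card_Iy9] at this
      push_cast at this
      exact this) (by
      intro u
      have := deg_y hE (sg 9) (sg_or 9) (Ix ℓ 9) (Iy ℓ 9) (okIx ℓ _) (okIy ℓ _) u
      rw [card_Ix9] at this
      push_cast at this
      exact this) (by
      intro u
      have := deg_c hE hz (sg 9) (sg_or 9) (Ix ℓ 9) (Iy ℓ 9) (okIx ℓ _) (okIy ℓ _) u (Iy ℓ 9) (Subset.refl _)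
        (fun e he _ => (mem_RR (r := 9) he).2.1)
      rw [card_Iy9] at this
      push_cast at this
      exact this)
  set T' : Finset (Fin 10 × (ℕ × ℕ)) := T.image (fun e => ((9 : Fin 10), e)) with hT'
  have hT'mem : ∀ p ∈ T', p.1 = 9 ∧ p.2 ∈ T := by
    intro p hp
    rw [hT', mem_image] at hp
    obtain ⟨e, he, rfl⟩ := hp
    exact ⟨rfl, he⟩
  have hT'c : T'.card = T.card := by
    rw [hT']
    apply card_image_of_injective
    intro a b hab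
    exact (Prod.mk.inj hab).2
  have hdisj : Disjoint M T' := by
    rw [disjoint_left]
    intro p hp hp'
    exact (mem_E9.1 (hM1 hp)).1 (hT'mem p hp').1
  have htag9 : ∀ r : Fin 10, r ≠ 9 → tag r ≠ tag 9 := by decide
  refine ⟨M ∪ T', ?_, ?_, ?_, ?_, ?_⟩
  · intro p hp
    rw [mem_union] at hp
    rcases hp with hp | hp
    · exact (mem_E9.1 (hM1 hp)).2
    · obtain ⟨h1, h2⟩ := hT'mem p hp
      rw [h1]
      exact hT1 h2
  · intro p hp p' hp' hpp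
    rw [mem_coe, mem_union] at hp hp'
    have e1 : p.1 = p'.1 := (Prod.mk.inj hpp).1
    have e2 : p.2.1 = p'.2.1 := (Prod.mk.inj hpp).2
    rcases hp with hp | hp <;> rcases hp' with hp' | hp'
    · exact hMf hp hp' hpp
    · exact absurd (e1.trans (hT'mem p' hp').1) (mem_E9.1 (hM1 hp)).1
    · exact absurd (e1.symm.trans (hT'mem p hp).1) (mem_E9.1 (hM1 hp')).1
    · exact Prod.ext e1 (hTf (hT'mem p hp).2 (hT'mem p' hp').2 e2)
  · intro p hp p' hp' hpp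
    rw [mem_coe, mem_union] at hp hp'
    have e1 : p.1 = p'.1 := (Prod.mk.inj hpp).1
    have e2 : p.2.2 = p'.2.2 := (Prod.mk.inj hpp).2
    rcases hp with hp | hp <;> rcases hp' with hp' | hp'
    · exact hMg hp hp' hpp
    · exact absurd (e1.trans (hT'mem p' hp').1) (mem_E9.1 (hM1 hp)).1
    · exact absurd (e1.symm.trans (hT'mem p hp).1) (mem_E9.1 (hM1 hp')).1
    · exact Prod.ext e1 (hTg (hT'mem p hp).2 (hT'mem p' hp').2 e2)
  · intro p hp p' hp' hpp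
    rw [mem_coe, mem_union] at hp hp'
    have e1 : tag p.1 = tag p'.1 := (Prod.mk.inj hpp).1
    have e2 : col (sg p.1) p.2.1 p.2.2 = col (sg p'.1) p'.2.1 p'.2.2 := (Prod.mk.inj hpp).2
    rcases hp with hp | hp <;> rcases hp' with hp' | hp'
    · exact hMh hp hp' hpp
    · rw [(hT'mem p' hp').1] at e1
      exact absurd e1 (htag9 _ (mem_E9.1 (hM1 hp)).1)
    · rw [(hT'mem p hp).1] at e1
      exact absurd e1.symm (htag9 _ (mem_E9.1 (hM1 hp')).1)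
    · have e3 := (hT'mem p hp).1
      have e4 := (hT'mem p' hp').1
      rw [e3, e4] at e2
      exact Prod.ext (e3.trans e4.symm) (hTh (hT'mem p hp).2 (hT'mem p' hp').2 e2)
  · rw [card_union_of_disjoint hdisj, hT'c]
    have h1 : ((E9 ℓ t Bd).card : ℝ) = ∑ r ∈ (univ : Finset (Fin 10)).filter (fun r => r ≠ 9), ((RR ℓ t Bd r).card : ℝ) := by
      rw [card_E9]
      push_cast
      rfl
    rw [← h1]
    push_cast
    have h2 : 3 * (2 * (ℓ : ℝ) * c1) * T.card = 6 * ℓ * c1 * T.card := by ring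
    rw [h2] at hTc
    linarith

end Pool.Agent.H352R3.FK
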