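import Pool.Agent.H352R3.FK.Comb

set_option autoImplicit false

/-! The numerical count. -/

namespace Pool.Agent.H352R3.FK

open Finset
open Pool.Agent.H373R2.T7

lemma CL_card (t : ℕ) (I : Finset ℕ) : (CL t I).card = ∑ v ∈ I, (PI (v * t) ((v + 1) * t)).card := by
  unfold CL
  apply card_biUnion
  intro a _ b _ hab
  refine disjoint_left.2 ?_
  intro n hn1 hn2
  unfold PI at hn1 hn2
  rw [mem_filter, mem_Ioc] at hn1 hn2
  rcases Nat.lt_or_gt_of_ne hab with h | h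
  · have : (a + 1) * t ≤ b * t := Nat.mul_le_mul_right t h
    omega
  · have : (b + 1) * t ≤ a * t := Nat.mul_le_mul_right t h
    omega

theorem count : ∃ ℓ : ℕ, 1 ≤ ℓ ∧ ∃ t0 : ℕ, ∀ t : ℕ, t0 ≤ t → ∃ (Bd : Finset ℤ) (N : ℝ) (M : Finset (Fin 10 × (ℕ × ℕ))),
    (∀ p ∈ M, p.2 ∈ RR ℓ t Bd p.1) ∧ Set.InjOn ff (M : Set (Fin 10 × (ℕ × ℕ))) ∧
        Set.InjOn fg (M : Set (Fin 10 × (ℕ × ℕ))) ∧ Set.InjOn fh (M : Set (Fin 10 × (ℕ × ℕ))) ∧
    (∀ u, 10100 ≤ u → u ≤ 19600 → ((CL t (cells ℓ (range (6 * ℓ)) u)).card : ℝ) ≤ 6 * ℓ * N) ∧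
    ((PI (DD ℓ * t) ((DD ℓ + 1) * t)).card : ℝ) ≤ N ∧
    54 * ℓ * N + N ≤ M.card := by
  obtain ⟨ρ, d₀, hρ, hd₀, hcomb⟩ := comb (1 / 1000) (by norm_num) (by norm_num)
  obtain ⟨ℓ, hℓ⟩ := exists_nat_ge (3 / ρ + 6)
  have hρℓ : 3 ≤ ρ * ℓ := by
    have h1 : 3 / ρ ≤ ℓ := by linarith
    rw [div_le_iff₀ hρ] at h1
    linarith
  have h3ρ : 0 < 3 / ρ := by positivity
  have hℓ6 : (6 : ℝ) ≤ ℓ := by linarith
  have hℓ1 : 6 ≤ ℓ := by exact_mod_cast hℓ6
  obtain ⟨t0, henv⟩ := env (DD ℓ) (by have := VV_pos ℓ; unfold DD; omega) (1 / 10000) (by norm_num) (by norm_num)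
    (max 1 d₀) (le_max_left _ _)
  refine ⟨ℓ, by omega, max t0 1, fun t ht => ?_⟩
  obtain ⟨z, Bd, S, Q, τ, hz, hS1, hS2, hQ, hτ, hE, hb1, hb2, hcell, hbad⟩ := henv t (le_trans (le_max_left _ _) ht)
  have ht1 : 1 ≤ t := le_trans (le_max_right _ _) ht
  have hQ1 : 1 ≤ Q := (le_max_left _ _).trans hQ
  have hQd : d₀ ≤ Q := (le_max_right _ _).trans hQ
  have hτ1 : 1 ≤ τ := (le_max_left _ _).trans hτ
  obtain ⟨M, hM1, hMf, hMg, hMh, hMc⟩ := hcomb ℓ t z Bd _ _ (by omega) hρℓ ht1 hz hE (by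
    have e1 : Q ≤ (S + 1 / 10000) * Q := by nlinarith
    have e2 : (S + 1 / 10000) * Q ≤ 6 * ℓ * ((S + 1 / 10000) * Q) := by nlinarith
    linarith)
  refine ⟨Bd, (1 + 1 / 10000) * τ, M, hM1, hMf, hMg, hMh, ?_, hbad, ?_⟩
  · intro u hu1 hu2
    rw [CL_card]
    push_cast
    have h1 : ∀ v ∈ cells ℓ (range (6 * ℓ)) u, ((PI (v * t) ((v + 1) * t)).card : ℝ) ≤ (1 + 1 / 10000) * τ := by
      intro v hv
      obtain ⟨h2, h3⟩ := okI_cells ℓ (range (6 * ℓ)) (Subset.refl _) u ⟨hu1, hu2⟩ v hv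
      exact (hcell v h2 h3).2
    refine (sum_le_sum h1).trans ?_
    rw [sum_const, nsmul_eq_mul, card_cells, card_range]
    push_cast
    linarith
  · -- lower bounds for the classes
    have hCLx : ∀ r, ((Ix ℓ r).card : ℝ) * ((1 - 1 / 10000) * τ) ≤ ((CL t (Ix ℓ r)).card : ℝ) := by
      intro r
      rw [CL_card]
      push_cast
      have h1 : ((Ix ℓ r).card : ℝ) * ((1 - 1 / 10000) * τ) = ∑ v ∈ Ix ℓ r, (1 - 1 / 10000) * τ := by
        rw [sum_const, nsmul_eq_mul]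
      rw [h1]
      apply sum_le_sum
      intro v hv
      obtain ⟨h2, h3⟩ := okIx ℓ r v hv
      exact (hcell v h2 h3).1
    have hℓ0 : (0 : ℝ) < ℓ := by linarith
    -- lower bounds for the number of edges
    have hR : ∀ r (a : ℝ), (Ix ℓ r).card = (Iy ℓ r).card → ((Ix ℓ r).card : ℝ) = a → 6 ≤ a →
        a * a * (S * (1 - 3 / 10000)) * (1 - 3 / 10000) * (τ * Q) ≤ ((RR ℓ t Bd r).card : ℝ) := by
      intro r a h0 ha ha6
      have hyc : ((Iy ℓ r).card : ℝ) = a := by rw [← h0, ha]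
      have hnn : a * (S * (1 - 3 / 10000)) * Q ≤ ((Iy ℓ r).card : ℝ) * ((S - 1 / 10000) * Q) - 6 * Bd.card := by
        rw [hyc]
        have h1 : 0 ≤ Q * ((a * S * 3 - a - 1) / 10000) := by
          apply mul_nonneg (by linarith)
          apply div_nonneg _ (by norm_num)
          nlinarith
        nlinarith
      have hnn0 : 0 ≤ a * (S * (1 - 3 / 10000)) * Q := by
        have : 0 ≤ a * (S * (1 - 3 / 10000)) := by
          apply mul_nonneg (by linarith); apply mul_nonneg (by linarith); norm_num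
        exact mul_nonneg this (by linarith)
      have hlow := edge_low hE hz (sg r) (sg_or r) (Ix ℓ r) (Iy ℓ r) (okIx ℓ r) (okIy ℓ r) (hpos_all ℓ t ht1 r)
        (hnn0.trans hnn)
      have h2 : a * (1 - 3 / 10000) * τ ≤ ((CL t (Ix ℓ r)).card : ℝ) - 3 * Bd.card := by
        have h3 := hCLx r
        rw [ha] at h3
        have h1 : 0 ≤ τ * ((2 * a - 1) / 10000) := by
          apply mul_nonneg (by linarith)
          apply div_nonneg _ (by norm_num)
          linarith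
        nlinarith
      refine le_trans ?_ hlow
      calc a * a * (S * (1 - 3 / 10000)) * (1 - 3 / 10000) * (τ * Q) =
            (a * (1 - 3 / 10000) * τ) * (a * (S * (1 - 3 / 10000)) * Q) := by ring
        _ ≤ _ := by
            apply mul_le_mul h2 hnn hnn0
            refine le_trans ?_ h2
            have : 0 ≤ a * (1 - 3 / 10000 : ℝ) := by apply mul_nonneg (by linarith); norm_num
            exact mul_nonneg this (by linarith)
    have h9 := hR 9 (2 * ℓ) (by rw [card_Ix9, card_Iy9]) (by rw [card_Ix9]; push_cast; ring) (by linarith)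
    have hsum : 9 * ((6 * ℓ) * (6 * ℓ) * (S * (1 - 3 / 10000)) * (1 - 3 / 10000) * (τ * Q)) ≤
        ∑ r ∈ (univ : Finset (Fin 10)).filter (fun r => r ≠ 9), ((RR ℓ t Bd r).card : ℝ) := by
      have h3 : ((univ : Finset (Fin 10)).filter (fun r => r ≠ 9)).card = 9 := by decide
      have h4 : 9 * ((6 * ℓ) * (6 * ℓ) * (S * (1 - 3 / 10000)) * (1 - 3 / 10000) * (τ * Q)) =
          ∑ r ∈ (univ : Finset (Fin 10)).filter (fun r => r ≠ 9),
            ((6 * ℓ) * (6 * ℓ) * (S * (1 - 3 / 10000)) * (1 - 3 / 10000) * (τ * Q) : ℝ) := by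
        rw [sum_const, h3, nsmul_eq_mul]
        norm_num
      rw [h4]
      apply sum_le_sum
      intro r hr
      have hr9 := (mem_filter.1 hr).2
      exact hR r (6 * ℓ) (by rw [card_Ix ℓ r hr9, card_Iy ℓ r hr9]) (by rw [card_Ix ℓ r hr9]; push_cast; ring)
        (by linarith)
    -- final numerics
    set Sm := ∑ r ∈ (univ : Finset (Fin 10)).filter (fun r => r ≠ 9), ((RR ℓ t Bd r).card : ℝ) with hSm
    have hSQ : 0 < S * Q := by apply mul_pos <;> linarith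
    have hc1 : (S + 1 / 10000) * Q ≤ (1 + 1 / 10000) * (S * Q) := by nlinarith
    have hMn : (0 : ℝ) ≤ M.card := Nat.cast_nonneg _
    have hup : 6 * ℓ * ((S + 1 / 10000) * Q) * M.card ≤ 6 * ℓ * ((1 + 1 / 10000) * (S * Q)) * M.card := by
      apply mul_le_mul_of_nonneg_right _ hMn
      apply mul_le_mul_of_nonneg_left hc1 (by linarith)
    have hall : (1 - 1 / 1000) * (9 * ((6 * ℓ) * (6 * ℓ) * (S * (1 - 3 / 10000)) * (1 - 3 / 10000) * (τ * Q))) +
        (2 * ℓ) * (2 * ℓ) * (S * (1 - 3 / 10000)) * (1 - 3 / 10000) * (τ * Q) ≤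
        6 * ℓ * ((1 + 1 / 10000) * (S * Q)) * M.card := by
      have h5 : (1 - 1 / 1000 : ℝ) * (9 * ((6 * ℓ) * (6 * ℓ) * (S * (1 - 3 / 10000)) * (1 - 3 / 10000) * (τ * Q))) ≤
          (1 - 1 / 1000) * Sm := mul_le_mul_of_nonneg_left hsum (by norm_num)
      linarith
    have hfac : (1 - 1 / 1000) * (9 * ((6 * ℓ) * (6 * ℓ) * (S * (1 - 3 / 10000)) * (1 - 3 / 10000) * (τ * Q))) +
        (2 * ℓ) * (2 * ℓ) * (S * (1 - 3 / 10000)) * (1 - 3 / 10000) * (τ * Q) =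
        (S * Q) * (ℓ * (((1 - 1 / 1000) * 324 + 4) * (1 - 3 / 10000) * (1 - 3 / 10000) * ℓ * τ)) := by ring
    have hfac2 : 6 * ℓ * ((1 + 1 / 10000) * (S * Q)) * (M.card : ℝ) = (S * Q) * (ℓ * (6 * (1 + 1 / 10000) * M.card)) := by ring
    rw [hfac, hfac2] at hall
    have h6 := le_of_mul_le_mul_left hall hSQ
    have h7 := le_of_mul_le_mul_left h6 hℓ0
    have h8 : (54 * ℓ + 1) * (1 + 1 / 10000) * τ * (6 * (1 + 1 / 10000)) ≤
        ((1 - 1 / 1000) * 324 + 4) * (1 - 3 / 10000) * (1 - 3 / 10000) * ℓ * τ := by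
      have h10 : (54 * (ℓ : ℝ) + 1) * (1 + 1 / 10000) * (6 * (1 + 1 / 10000)) ≤
        ((1 - 1 / 1000) * 324 + 4) * (1 - 3 / 10000) * (1 - 3 / 10000) * ℓ := by
        nlinarith
      have h11 := mul_le_mul_of_nonneg_right h10 (by linarith : (0 : ℝ) ≤ τ)
      linarith
    have h12 : (54 * ℓ + 1) * (1 + 1 / 10000) * τ * (6 * (1 + 1 / 10000)) ≤ M.card * (6 * (1 + 1 / 10000)) := by linarith
    have h13 := le_of_mul_le_mul_right h12 (by norm_num)
    linarith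

end Pool.Agent.H352R3.FK
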