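import Mathlib

set_option autoImplicit false

/-! The covering lemma and the Chinese remainder step. -/

namespace Pool.Agent.H352R3.FK

open Finset

theorem cover {ι : Type} (J : Finset ι) (mv : ι → ℕ) (ps : ι → Bool → ℕ) (Mv Nd : Finset ℕ)
    (hmv : ∀ p ∈ J, mv p ∈ Mv) (hinj : Set.InjOn mv (J : Set ι)) (hps : ∀ p ∈ J, ∀ b, ps p b ∈ Nd)
    (hpinj : ∀ p ∈ J, ∀ p' ∈ J, ∀ b b', ps p b = ps p' b' → p = p' ∧ b = b')
    (hcard : Nd.card ≤ Mv.card + J.card) :
    ∃ c : ℕ → ℕ, ∀ m ∈ Nd, (∃ p ∈ J, ∃ b, m = ps p b ∧ c (mv p) = ps p false) ∨ (∃ q ∈ Mv, c q = m) := by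
  classical
  set I1 := J.image mv with hI1
  set I2 := (J ×ˢ (univ : Finset Bool)).image (fun x => ps x.1 x.2) with hI2
  have h1 : I1.card = J.card := by
    rw [hI1]; exact card_image_of_injOn hinj
  have h2 : I2.card = 2 * J.card := by
    rw [hI2, card_image_of_injOn, card_product, card_univ, Fintype.card_bool, mul_comm]
    intro x hx y hy hxy
    rw [mem_coe, mem_product] at hx hy
    obtain ⟨e1, e2⟩ := hpinj x.1 hx.1 y.1 hy.1 x.2 y.2 hxy
    exact Prod.ext e1 e2
  have h1s : I1 ⊆ Mv := by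
    intro q hq
    rw [hI1, mem_image] at hq
    obtain ⟨p, hp, rfl⟩ := hq
    exact hmv p hp
  have h2s : I2 ⊆ Nd := by
    intro q hq
    rw [hI2, mem_image] at hq
    obtain ⟨x, hx, rfl⟩ := hq
    exact hps x.1 (mem_product.1 hx).1 x.2
  have h3 : (Nd \ I2).card ≤ (Mv \ I1).card := by
    rw [card_sdiff_of_subset h2s, card_sdiff_of_subset h1s, h1, h2]
    omega
  obtain ⟨T, hT1, hT2⟩ := exists_subset_card_eq h3
  have ⟨φ⟩ : Nonempty ((Nd \ I2 : Finset ℕ) ≃ (T : Finset ℕ)) := by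
    apply Fintype.card_eq.1
    rw [Fintype.card_coe, Fintype.card_coe, hT2]
  refine ⟨fun q => if h : ∃ p ∈ J, mv p = q then ps h.choose false else
    if h' : q ∈ T then ((φ.symm ⟨q, h'⟩ : (Nd \ I2 : Finset ℕ)) : ℕ) else 0, ?_⟩
  intro m hm
  by_cases hmI : m ∈ I2
  · left
    rw [hI2, mem_image] at hmI
    obtain ⟨x, hx, rfl⟩ := hmI
    have hx1 := (mem_product.1 hx).1
    refine ⟨x.1, hx1, x.2, rfl, ?_⟩
    have h : ∃ p ∈ J, mv p = mv x.1 := ⟨x.1, hx1, rfl⟩
    beta_reduce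
    rw [dif_pos h]
    have h4 := h.choose_spec
    have h5 : h.choose = x.1 := hinj h4.1 hx1 h4.2
    rw [h5]
  · right
    have hm2 : m ∈ Nd \ I2 := mem_sdiff.2 ⟨hm, hmI⟩
    have h4 := (φ ⟨m, hm2⟩).2
    have h5 := mem_sdiff.1 (hT1 h4)
    refine ⟨(φ ⟨m, hm2⟩ : ℕ), h5.1, ?_⟩
    have h6 : ¬ ∃ p ∈ J, mv p = ((φ ⟨m, hm2⟩ : (T : Finset ℕ)) : ℕ) := by
      rintro ⟨p, hp, hpe⟩
      apply h5.2
      rw [hI1, mem_image]
      exact ⟨p, hp, hpe⟩
    beta_reduce
    rw [dif_neg h6, dif_pos h4]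
    have h7 : (⟨((φ ⟨m, hm2⟩ : (T : Finset ℕ)) : ℕ), h4⟩ : (T : Finset ℕ)) = φ ⟨m, hm2⟩ := rfl
    rw [h7, Equiv.symm_apply_apply]

theorem crt_final (k t : ℕ) (Mv : Finset ℕ) (hMv : ∀ q ∈ Mv, q.Prime ∧ q < k ∧ t < q) (c : ℕ → ℕ)
    (hcov : ∀ m, t < m → m ≤ t + k → (∀ p : ℕ, p.Prime → p ∣ m → p < k ∧ p ∉ Mv) ∨ (∃ q ∈ Mv, m ≡ c q [MOD q])) :
    ∃ n : ℕ, ∀ i ∈ Icc 1 k, t < ∏ p ∈ (range k).filter Nat.Prime, p ^ ((n + i).factorization p) := by
  set e : ℕ → ℕ := fun p => if p ∈ Mv then 1 else t + k + 1 with he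
  set a : ℕ → ℕ := fun p => if p ∈ Mv then t + (p - 1) * c p else t with ha
  obtain ⟨n, hn⟩ := Nat.chineseRemainderOfFinset a (fun p => p ^ e p) ((range k).filter Nat.Prime)
    (by
      intro p hp
      rw [mem_filter] at hp
      exact pow_ne_zero _ hp.2.ne_zero)
    (by
      intro p hp q hq hpq
      rw [mem_coe, mem_filter] at hp hq
      exact Nat.Coprime.pow _ _ ((Nat.coprime_primes hp.2 hq.2).2 hpq))
  refine ⟨n, fun i hi => ?_⟩
  rw [mem_Icc] at hi
  have hone : ∀ p ∈ (range k).filter Nat.Prime, 1 ≤ p ^ ((n + i).factorization p) := by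
    intro p hp
    exact Nat.one_le_pow _ _ (mem_filter.1 hp).2.pos
  rcases hcov (t + i) (by omega) (by omega) with h | ⟨q, hq, hqm⟩
  · -- unmoved
    have h1 : t + i = ∏ p ∈ (t + i).primeFactors, p ^ ((t + i).factorization p) :=
      (Nat.prod_factorization_pow_eq_self (by omega)).symm
    have h2 : ∏ p ∈ (t + i).primeFactors, p ^ ((t + i).factorization p) ≤
        ∏ p ∈ (t + i).primeFactors, p ^ ((n + i).factorization p) := by
      apply prod_le_prod'
      intro p hp
      have hpp := Nat.prime_of_mem_primeFactors hp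
      have hpd := Nat.dvd_of_mem_primeFactors hp
      obtain ⟨h3, h4⟩ := h p hpp hpd
      apply Nat.pow_le_pow_right hpp.pos
      have h5 := hn p (mem_filter.2 ⟨mem_range.2 h3, hpp⟩)
      rw [ha, he] at h5
      simp only [if_neg h4] at h5
      rw [← hpp.pow_dvd_iff_le_factorization (by omega)]
      have h6 : (t + i).factorization p < t + k + 1 := by
        have h7 : p ^ (t + i).factorization p ≤ t + i := Nat.ordProj_le p (by omega)
        have h8 : (t + i).factorization p < p ^ (t + i).factorization p := Nat.lt_pow_self hpp.one_lt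
        omega
      have h7 : n ≡ t [MOD p ^ (t + i).factorization p] := h5.of_dvd (pow_dvd_pow p h6.le)
      have h8 : n + i ≡ t + i [MOD p ^ (t + i).factorization p] := h7.add_right i
      have h9 : p ^ (t + i).factorization p ∣ t + i := Nat.ordProj_dvd _ _
      exact (h8.dvd_iff dvd_rfl).2 h9
    have h3 : ∏ p ∈ (t + i).primeFactors, p ^ ((n + i).factorization p) ≤
        ∏ p ∈ (range k).filter Nat.Prime, p ^ ((n + i).factorization p) := by
      apply prod_le_prod_of_subset_of_one_le'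
      · intro p hp
        have hpp := Nat.prime_of_mem_primeFactors hp
        have hpd := Nat.dvd_of_mem_primeFactors hp
        exact mem_filter.2 ⟨mem_range.2 (h p hpp hpd).1, hpp⟩
      · intro p hp _
        exact hone p hp
    omega
  · obtain ⟨hqp, hqk, htq⟩ := hMv q hq
    have hqmem : q ∈ (range k).filter Nat.Prime := mem_filter.2 ⟨mem_range.2 hqk, hqp⟩
    have h5 := hn q hqmem
    rw [ha, he] at h5
    simp only [if_pos hq, pow_one] at h5
    have h6 : q ∣ n + i := by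
      have h7 : n + i ≡ t + (q - 1) * c q + i [MOD q] := h5.add_right i
      have h8 : t + (q - 1) * c q + i = (t + i) + (q - 1) * c q := by ring
      rw [h8] at h7
      have h9 : (t + i) + (q - 1) * c q ≡ c q + (q - 1) * c q [MOD q] := hqm.add_right _
      have h10 : c q + (q - 1) * c q = q * c q := by
        obtain ⟨r, hr⟩ : ∃ r, q = r + 1 := ⟨q - 1, by have := hqp.pos; omega⟩
        rw [hr, Nat.add_sub_cancel]
        ring
      rw [h10] at h9
      have h11 := h7.trans h9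
      exact (h11.dvd_iff dvd_rfl).2 (dvd_mul_right _ _)
    have h7 : 1 ≤ (n + i).factorization q := (hqp.dvd_iff_one_le_factorization (by omega)).1 h6
    have h8 : q ≤ q ^ ((n + i).factorization q) := by
      calc q = q ^ 1 := (pow_one q).symm
        _ ≤ _ := Nat.pow_le_pow_right hqp.pos h7
    have h9 : q ^ ((n + i).factorization q) ≤ ∏ p ∈ (range k).filter Nat.Prime, p ^ ((n + i).factorization p) :=
      single_le_prod' hone hqmem
    omega

end Pool.Agent.H352R3.FK
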