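import Pool.Agent.H352R3.FK.Konig

set_option autoImplicit false

/-! Near-perfect rainbow matchings in bipartite multigraphs with small colour classes. -/

namespace Pool.Agent.H352R3.FK

open Finset

/-- indicator of the hash event -/
noncomputable def hx {P : ℕ} (I : Finset (ZMod P)) (w : ZMod P × ZMod P) (x : ZMod P) : ℝ :=
  if w.1 * x + w.2 ∈ I then 1 else 0

lemma hx_nonneg {P : ℕ} (I : Finset (ZMod P)) (w : ZMod P × ZMod P) (x : ZMod P) : 0 ≤ hx I w x := by
  unfold hx; split_ifs <;> norm_num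

lemma hx_sq {P : ℕ} (I : Finset (ZMod P)) (w : ZMod P × ZMod P) (x : ZMod P) :
    hx I w x * hx I w x = hx I w x := by
  unfold hx; split_ifs <;> norm_num

lemma hash1 {P : ℕ} [Fact P.Prime] (I : Finset (ZMod P)) (x : ZMod P) :
    ∑ w : ZMod P × ZMod P, hx I w x = P * I.card := by
  rw [Fintype.sum_prod_type]
  have h : ∀ a : ZMod P, ∑ b : ZMod P, hx I (a, b) x = I.card := by
    intro a
    unfold hx
    rw [← Equiv.sum_comp (Equiv.addLeft (-(a * x)))]
    have : ∀ b : ZMod P, (a, (Equiv.addLeft (-(a * x))) b).1 * x + (a, (Equiv.addLeft (-(a * x))) b).2 = b := by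
      intro b
      simp
    simp only [this]
    rw [Finset.sum_ite_mem, univ_inter, sum_const, nsmul_eq_mul, mul_one]
  rw [sum_congr rfl (fun a _ => h a), sum_const, card_univ, ZMod.card, nsmul_eq_mul]

lemma hash2 {P : ℕ} [Fact P.Prime] (I : Finset (ZMod P)) (x y : ZMod P) (hxy : x ≠ y) :
    ∑ w : ZMod P × ZMod P, hx I w x * hx I w y = (I.card : ℝ) * I.card := by
  set φ : ZMod P × ZMod P → ZMod P × ZMod P := fun w => (w.1 * x + w.2, w.1 * y + w.2) with hφ
  have hinj : Function.Injective φ := by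
    rintro ⟨a, b⟩ ⟨a', b'⟩ h
    rw [hφ] at h
    simp only [Prod.mk.injEq] at h
    obtain ⟨h1, h2⟩ := h
    have h3 : (a - a') * (x - y) = 0 := by linear_combination h1 - h2
    rcases mul_eq_zero.1 h3 with h4 | h4
    · have h5 : a = a' := sub_eq_zero.1 h4
      subst h5
      have : b = b' := by linear_combination h1
      rw [this]
    · exact absurd (sub_eq_zero.1 h4) hxy
  have hbij : Function.Bijective φ := Finite.injective_iff_bijective.1 hinj
  have h1 : ∑ w : ZMod P × ZMod P, hx I w x * hx I w y =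
      ∑ z : ZMod P × ZMod P, (if z.1 ∈ I then (1 : ℝ) else 0) * (if z.2 ∈ I then 1 else 0) := by
    exact (Equiv.ofBijective φ hbij).sum_comp
      (fun z : ZMod P × ZMod P => (if z.1 ∈ I then (1 : ℝ) else 0) * (if z.2 ∈ I then 1 else 0))
  rw [h1, Fintype.sum_prod_type]
  simp only
  have h2 : ∀ a : ZMod P, ∑ b : ZMod P, (if a ∈ I then (1 : ℝ) else 0) * (if b ∈ I then 1 else 0) =
      (if a ∈ I then (1 : ℝ) else 0) * I.card := by
    intro a
    rw [← mul_sum, Finset.sum_ite_mem, univ_inter, sum_const, nsmul_eq_mul, mul_one]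
  rw [sum_congr rfl (fun a _ => h2 a), ← sum_mul, Finset.sum_ite_mem, univ_inter, sum_const,
    nsmul_eq_mul, mul_one]

lemma hash_var {ι : Type} [DecidableEq ι] {P : ℕ} [Fact P.Prime] (I : Finset (ZMod P)) (A : Finset ι)
    (x : ι → ZMod P) (hinj : Set.InjOn x (A : Set ι)) :
    ∑ w : ZMod P × ZMod P, (∑ e ∈ A, hx I w (x e) - A.card * (I.card / P)) ^ 2 ≤ A.card * (P * I.card) := by
  have hP : (0 : ℝ) < P := by exact_mod_cast (Fact.out : P.Prime).pos
  have h1 : ∑ w : ZMod P × ZMod P, (∑ e ∈ A, hx I w (x e)) ^ 2 =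
      A.card * (P * I.card) + A.card * (A.card - 1) * (I.card * I.card) := by
    have h2 : ∀ w : ZMod P × ZMod P, (∑ e ∈ A, hx I w (x e)) ^ 2 =
        ∑ e ∈ A, ∑ e' ∈ A, hx I w (x e) * hx I w (x e') := by
      intro w
      rw [sq, sum_mul_sum]
    rw [sum_congr rfl (fun w _ => h2 w), sum_comm]
    have h3 : ∀ e ∈ A, ∑ w : ZMod P × ZMod P, ∑ e' ∈ A, hx I w (x e) * hx I w (x e') =
        P * I.card + (A.card - 1) * (I.card * I.card) := by
      intro e he
      rw [sum_comm, ← add_sum_erase A _ he]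
      congr 1
      · rw [← hash1 I (x e)]
        exact sum_congr rfl (fun w _ => hx_sq I w (x e))
      · have h4 : ∀ e' ∈ A.erase e, ∑ w : ZMod P × ZMod P, hx I w (x e) * hx I w (x e') = (I.card : ℝ) * I.card := by
          intro e' he'
          rw [mem_erase] at he'
          apply hash2
          intro h
          exact he'.1 (hinj he'.2 he h.symm)
        rw [sum_congr rfl h4, sum_const, nsmul_eq_mul, card_erase_of_mem he, Nat.cast_sub (card_pos.2 ⟨e, he⟩)]
        push_cast
        ring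
    rw [sum_congr rfl h3, sum_const, nsmul_eq_mul]
    ring
  have h5 : ∑ w : ZMod P × ZMod P, ∑ e ∈ A, hx I w (x e) = A.card * (P * I.card) := by
    rw [sum_comm, sum_congr rfl (fun e _ => hash1 I (x e)), sum_const, nsmul_eq_mul]
  have h6 : ∀ w : ZMod P × ZMod P, (∑ e ∈ A, hx I w (x e) - A.card * (I.card / P)) ^ 2 =
      (∑ e ∈ A, hx I w (x e)) ^ 2 - 2 * (A.card * (I.card / P)) * (∑ e ∈ A, hx I w (x e)) +
        (A.card * (I.card / P)) ^ 2 := by
    intro w; ring
  rw [sum_congr rfl (fun w _ => h6 w), sum_add_distrib, sum_sub_distrib, h1, ← mul_sum, h5, sum_const,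
    card_univ, Fintype.card_prod, ZMod.card, nsmul_eq_mul]
  have h7 : ((P * P : ℕ) : ℝ) * (A.card * (I.card / P)) ^ 2 = (A.card : ℝ) ^ 2 * I.card ^ 2 := by
    push_cast
    field_simp
  have h8 : 2 * ((A.card : ℝ) * (I.card / P)) * (A.card * (P * I.card)) = 2 * (A.card : ℝ) ^ 2 * I.card ^ 2 := by
    field_simp
  rw [h7, h8]
  have h9 : (0 : ℝ) ≤ A.card * (I.card * I.card) := by positivity
  nlinarith

/-- **Rainbow near-perfect matchings.** -/
theorem rainbow (ε : ℝ) (hε : 0 < ε) (hε1 : ε < 1) : ∃ ρ d₀ : ℝ, 0 < ρ ∧ 0 < d₀ ∧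
    ∀ {ι α β γ : Type} [DecidableEq ι] [DecidableEq α] [DecidableEq β] [DecidableEq γ]
      (E : Finset ι) (f : ι → α) (g : ι → β) (h : ι → γ) (d : ℝ), d₀ ≤ d →
      (∀ u, ((E.filter (fun e => f e = u)).card : ℝ) ≤ d) →
      (∀ v, ((E.filter (fun e => g e = v)).card : ℝ) ≤ d) →
      (∀ c, ((E.filter (fun e => h e = c)).card : ℝ) ≤ ρ * d) →
      ∃ M ⊆ E, Set.InjOn f (M : Set ι) ∧ Set.InjOn g (M : Set ι) ∧ Set.InjOn h (M : Set ι) ∧
        (1 - ε) * E.card ≤ d * M.card := by
  set δ : ℝ := ε / 8 with hδ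
  have hδ0 : 0 < δ := by positivity
  set D : ℝ := 8 * (1 + δ) / (δ ^ 2 * ε) with hD
  have hD0 : 0 < D := by positivity
  refine ⟨ε / (8 * D), D, by positivity, hD0, ?_⟩
  intro ι α β γ _ _ _ _ E f g h d hd hf hg hh
  have hd0 : 0 < d := hD0.trans_le hd
  set κ : ℝ := (1 + δ) / (δ ^ 2 * D) with hκ
  have hκε : 2 * κ = ε / 4 := by
    rw [hκ, hD]
    field_simp
    ring
  have hκ0 : 0 < κ := by positivity
  -- the prime
  obtain ⟨P, hPge, hPp⟩ := Nat.exists_infinite_primes (max (E.card + 1) (⌈d / (δ * D)⌉₊ + 1))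
  haveI : Fact P.Prime := ⟨hPp⟩
  have hPE : E.card < P := lt_of_lt_of_le (Nat.lt_succ_self _) ((le_max_left _ _).trans hPge)
  have hP0 : (0 : ℝ) < P := by exact_mod_cast hPp.pos
  have hPd : d / (δ * D) ≤ P := by
    have h1 : ⌈d / (δ * D)⌉₊ ≤ P := (Nat.le_succ _).trans ((le_max_right _ _).trans hPge)
    exact (Nat.le_ceil _).trans (by exact_mod_cast h1)
  set m : ℕ := ⌊P * (D / d)⌋₊ with hm
  have hm1 : (m : ℝ) ≤ P * (D / d) := Nat.floor_le (by positivity)
  have hm2 : P * (D / d) < m + 1 := Nat.lt_floor_add_one _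
  have hmP : m ≤ P := by
    have : (m : ℝ) ≤ P := by
      refine hm1.trans ?_
      have : D / d ≤ 1 := by rw [div_le_one hd0]; exact hd
      nlinarith
    exact_mod_cast this
  obtain ⟨I, -, hI⟩ := exists_subset_card_eq (s := (univ : Finset (ZMod P))) (n := m) (by rw [card_univ, ZMod.card]; exact hmP)
  -- p = m / P
  set p : ℝ := (m : ℝ) / P with hp
  have hp1 : p ≤ D / d := by
    rw [hp, div_le_iff₀ hP0]; linarith
  have hp2 : (1 - δ) * (D / d) ≤ p := by
    rw [hp, le_div_iff₀ hP0]
    have h1 : 1 ≤ δ * (D / d) * P := by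
      have h2 : 1 = δ * D / d * (d / (δ * D)) := by field_simp
      have h3 : δ * D / d * (d / (δ * D)) ≤ δ * D / d * P := mul_le_mul_of_nonneg_left hPd (by positivity)
      have h4 : δ * (D / d) * P = δ * D / d * P := by ring
      rw [h4]; linarith
    nlinarith
  have hp0 : 0 ≤ p := by positivity
  -- the injection
  obtain ⟨emb⟩ : Nonempty ({e // e ∈ E} ↪ ZMod P) := by
    apply Function.Embedding.nonempty_of_card_le
    rw [Fintype.card_coe, ZMod.card]
    exact hPE.le
  set x : ι → ZMod P := fun e => if he : e ∈ E then emb ⟨e, he⟩ else 0 with hxdef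
  have hxinj : Set.InjOn x (E : Set ι) := by
    intro e he e' he' hee
    rw [hxdef] at hee
    simp only [dif_pos (mem_coe.1 he), dif_pos (mem_coe.1 he')] at hee
    have := emb.injective hee
    exact congrArg Subtype.val this
  have hE0 : (0 : ℝ) ≤ E.card := Nat.cast_nonneg _
  -- random quantities
  set X : ZMod P × ZMod P → ι → ℝ := fun w e => hx I w (x e) with hX
  have hX0 : ∀ w e, 0 ≤ X w e := fun w e => hx_nonneg _ _ _
  set R : ZMod P × ZMod P → Finset ι := fun w => E.filter (fun e => w.1 * x e + w.2 ∈ I) with hR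
  have hXR : ∀ w, ∀ e ∈ E, X w e = if e ∈ R w then 1 else 0 := by
    intro w e he
    rw [hX, hR]
    simp only [hx, mem_filter, he, true_and]
  have hRE' : ∀ w, R w ⊆ E := fun w => filter_subset _ _
  clear_value R
  have hcardR : ∀ w, ∀ A ⊆ E, ∑ e ∈ A, X w e = ((R w ∩ A).card : ℝ) := by
    intro w A hA
    rw [sum_congr rfl (fun e he => hXR w e (hA he)), ← sum_filter, sum_const, nsmul_eq_mul, mul_one]
    congr 2
    ext e
    rw [mem_filter, mem_inter, and_comm]
  -- variance sums
  have hvar : ∀ {τ : Type} [DecidableEq τ] (k : ι → τ), ∑ w : ZMod P × ZMod P, ∑ u ∈ E.image k,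
      (∑ e ∈ E.filter (fun e => k e = u), X w e - (E.filter (fun e => k e = u)).card * p) ^ 2 ≤ E.card * (P * m) := by
    intro τ _ k
    rw [sum_comm]
    have h1 : ∀ u ∈ E.image k, ∑ w : ZMod P × ZMod P,
        (∑ e ∈ E.filter (fun e => k e = u), X w e - (E.filter (fun e => k e = u)).card * p) ^ 2 ≤
        (E.filter (fun e => k e = u)).card * (P * m) := by
      intro u _
      have := hash_var I (E.filter (fun e => k e = u)) x (hxinj.mono (by
        intro e he; exact (mem_filter.1 (mem_coe.1 he)).1))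
      rw [hI] at this
      exact this
    refine (sum_le_sum h1).trans (le_of_eq ?_)
    rw [← sum_mul]
    congr 1
    have h2 : E.card = ∑ u ∈ E.image k, (E.filter (fun e => k e = u)).card :=
      card_eq_sum_card_fiberwise (fun e he => mem_image_of_mem k he)
    conv_rhs => rw [h2]
    push_cast
    rfl
  set Av : ZMod P × ZMod P → ℝ := fun w => ∑ u ∈ E.image f,
      (∑ e ∈ E.filter (fun e => f e = u), X w e - (E.filter (fun e => f e = u)).card * p) ^ 2 with hAv
  set Bv : ZMod P × ZMod P → ℝ := fun w => ∑ u ∈ E.image g,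
      (∑ e ∈ E.filter (fun e => g e = u), X w e - (E.filter (fun e => g e = u)).card * p) ^ 2 with hBv
  set Cv : ZMod P × ZMod P → ℝ := fun w => ∑ e ∈ E, ∑ e' ∈ (E.filter (fun e' => h e' = h e)).erase e, X w e * X w e' with hCv
  have hCsum : ∑ w, Cv w ≤ E.card * (ε / (8 * D) * d * (m * m)) := by
    rw [hCv]
    simp only
    rw [sum_comm]
    have h1 : ∀ e ∈ E, ∑ w : ZMod P × ZMod P, ∑ e' ∈ (E.filter (fun e' => h e' = h e)).erase e, X w e * X w e' ≤
        ε / (8 * D) * d * (m * m) := by
      intro e he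
      rw [sum_comm]
      have h2 : ∀ e' ∈ (E.filter (fun e' => h e' = h e)).erase e, ∑ w : ZMod P × ZMod P, X w e * X w e' = (m : ℝ) * m := by
        intro e' he'
        rw [mem_erase, mem_filter] at he'
        rw [hX]
        simp only
        rw [hash2 I (x e) (x e') (fun hc => he'.1 (hxinj he'.2.1 he hc.symm)), hI]
      rw [sum_congr rfl h2, sum_const, nsmul_eq_mul]
      apply mul_le_mul_of_nonneg_right _ (by positivity)
      refine le_trans ?_ (hh (h e))
      exact_mod_cast card_le_card (erase_subset _ _)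
    refine (sum_le_sum h1).trans (le_of_eq ?_)
    rw [sum_const, nsmul_eq_mul]
  have hXsum : ∑ w : ZMod P × ZMod P, ∑ e ∈ E, X w e = E.card * (P * m) := by
    rw [sum_comm, hX]
    simp only
    rw [sum_congr rfl (fun e _ => hash1 I (x e)), sum_const, nsmul_eq_mul, hI]
  -- a good choice of w
  obtain ⟨w, hw⟩ : ∃ w, E.card * p * (1 - 2 * κ - ε / 8) ≤ ∑ e ∈ E, X w e - κ * Av w - κ * Bv w - Cv w := by
    by_contra hcon
    push Not at hcon
    have h1 : ∑ w : ZMod P × ZMod P, (∑ e ∈ E, X w e - κ * Av w - κ * Bv w - Cv w) <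
        ∑ w : ZMod P × ZMod P, E.card * p * (1 - 2 * κ - ε / 8) :=
      sum_lt_sum_of_nonempty univ_nonempty (fun w _ => hcon w)
    rw [sum_const, card_univ, Fintype.card_prod, ZMod.card, nsmul_eq_mul, sum_sub_distrib, sum_sub_distrib,
      sum_sub_distrib, ← mul_sum, ← mul_sum, hXsum] at h1
    have hA := hvar f
    have hB := hvar g
    have hA' : κ * ∑ w, Av w ≤ κ * (E.card * (P * m)) := mul_le_mul_of_nonneg_left hA hκ0.le
    have hB' : κ * ∑ w, Bv w ≤ κ * (E.card * (P * m)) := mul_le_mul_of_nonneg_left hB hκ0.le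
    have h2 : ((P * P : ℕ) : ℝ) * (E.card * p * (1 - 2 * κ - ε / 8)) = E.card * (P * m) * (1 - 2 * κ - ε / 8) := by
      rw [hp]; push_cast; field_simp
    have h3 : (E.card : ℝ) * (ε / (8 * D) * d * (m * m)) ≤ E.card * (P * m) * (ε / 8) := by
      have h4 : (m : ℝ) * d ≤ P * D := by
        have := mul_le_mul_of_nonneg_right hm1 hd0.le
        have e1 : (P : ℝ) * (D / d) * d = P * D := by field_simp
        linarith
      have h5 : ε / (8 * D) * d * (m * m) = ε / (8 * D) * m * (m * d) := by ring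
      have h6 : ε / (8 * D) * m * (m * d) ≤ ε / (8 * D) * m * (P * D) :=
        mul_le_mul_of_nonneg_left h4 (by positivity)
      have h7 : ε / (8 * D) * m * (P * D) = P * m * (ε / 8) := by field_simp
      rw [h5, mul_assoc (E.card : ℝ)]
      apply mul_le_mul_of_nonneg_left _ hE0
      linarith
    rw [h2] at h1
    nlinarith
  -- the good edges
  set G : Finset ι := (R w).filter (fun e => ((R w ∩ E.filter (fun e' => f e' = f e)).card : ℝ) ≤ (1 + δ) * D ∧
    ((R w ∩ E.filter (fun e' => g e' = g e)).card : ℝ) ≤ (1 + δ) * D ∧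
    ∀ e' ∈ R w, h e' = h e → e' = e) with hG
  have hRE : R w ⊆ E := hRE' w
  have hbadk : ∀ {τ : Type} [DecidableEq τ] (k : ι → τ), (∀ u, ((E.filter (fun e => k e = u)).card : ℝ) ≤ d) →
      (((R w).filter (fun e => ¬ ((R w ∩ E.filter (fun e' => k e' = k e)).card : ℝ) ≤ (1 + δ) * D)).card : ℝ) ≤
      κ * ∑ u ∈ E.image k, (∑ e ∈ E.filter (fun e => k e = u), X w e - (E.filter (fun e => k e = u)).card * p) ^ 2 := by
    intro τ _ k hk
    set Bd := (R w).filter (fun e => ¬ ((R w ∩ E.filter (fun e' => k e' = k e)).card : ℝ) ≤ (1 + δ) * D) with hBd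
    have h1 : Bd.card = ∑ u ∈ E.image k, (Bd.filter (fun e => k e = u)).card := by
      apply card_eq_sum_card_fiberwise
      intro e he
      rw [mem_coe, hBd, mem_filter] at he
      exact mem_image_of_mem k (hRE he.1)
    rw [h1, mul_sum]
    push_cast
    apply sum_le_sum
    intro u _
    set t : ℝ := ((R w ∩ E.filter (fun e' => k e' = u)).card : ℝ) with ht
    have h2 : ∑ e ∈ E.filter (fun e => k e = u), X w e = t := hcardR w _ (filter_subset _ _)
    rw [h2]
    rcases le_or_gt t ((1 + δ) * D) with h3 | h3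
    · have h4 : Bd.filter (fun e => k e = u) = ∅ := by
        rw [eq_empty_iff_forall_notMem]
        intro e he
        rw [mem_filter, hBd, mem_filter] at he
        apply he.1.2
        rw [he.2]
        exact h3
      rw [h4, card_empty, Nat.cast_zero]
      positivity
    · have h4 : ((Bd.filter (fun e => k e = u)).card : ℝ) ≤ t := by
        rw [ht]
        have : Bd.filter (fun e => k e = u) ⊆ R w ∩ E.filter (fun e' => k e' = u) := by
          intro e he
          rw [mem_filter, hBd, mem_filter] at he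
          rw [mem_inter, mem_filter]
          exact ⟨he.1.1, hRE he.1.1, he.2⟩
        exact_mod_cast card_le_card this
      refine h4.trans ?_
      set μ : ℝ := (E.filter (fun e => k e = u)).card * p with hμ
      have hμD : μ ≤ D := by
        calc μ ≤ d * (D / d) := mul_le_mul (hk u) hp1 hp0 hd0.le
          _ = D := by field_simp
      have h5 : t - D ≤ t - μ := by linarith
      have h6 : δ * D ≤ t - D := by nlinarith
      have h7 : t * δ ≤ (1 + δ) * (t - D) := by nlinarith
      have h8 : δ ^ 2 * D * t ≤ (1 + δ) * (t - μ) ^ 2 := by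
        have h9 : δ ^ 2 * D * t ≤ (1 + δ) * (t - D) ^ 2 := by
          have h10 : (δ * D) * (t * δ) ≤ (t - D) * ((1 + δ) * (t - D)) :=
            mul_le_mul h6 h7 (by
              have : 0 ≤ t := by rw [ht]; positivity
              positivity) (by linarith [mul_pos hδ0 hD0])
          nlinarith
        have h11 : (t - D) ^ 2 ≤ (t - μ) ^ 2 := by
          apply pow_le_pow_left₀ _ h5
          linarith [mul_pos hδ0 hD0]
        nlinarith
      rw [hκ, div_mul_eq_mul_div, le_div_iff₀ (by positivity)]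
      linarith
  have hbadC : (((R w).filter (fun e => ¬ ∀ e' ∈ R w, h e' = h e → e' = e)).card : ℝ) ≤ Cv w := by
    have h1 : (((R w).filter (fun e => ¬ ∀ e' ∈ R w, h e' = h e → e' = e)).card : ℝ) =
        ∑ e ∈ (R w).filter (fun e => ¬ ∀ e' ∈ R w, h e' = h e → e' = e), 1 := by simp
    rw [h1, hCv]
    simp only
    refine le_trans (sum_le_sum (f := fun _ => (1 : ℝ)) (g := fun e => ∑ e' ∈ (E.filter (fun e' => h e' = h e)).erase e, X w e * X w e') ?_) ?_
    · intro e he
      rw [mem_filter] at he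
      obtain ⟨heR, he2⟩ := he
      push Not at he2
      obtain ⟨e', he'R, hhe, hne⟩ := he2
      have h2 : X w e * X w e' = 1 := by
        rw [hXR w e (hRE heR), hXR w e' (hRE he'R), if_pos heR, if_pos he'R]; norm_num
      rw [← h2]
      apply single_le_sum (f := fun e' => X w e * X w e') (fun e'' _ => mul_nonneg (hX0 w e) (hX0 w e''))
      rw [mem_erase, mem_filter]
      exact ⟨hne, hRE he'R, hhe⟩
    · apply sum_le_sum_of_subset_of_nonneg
      · intro e he
        exact hRE (mem_filter.1 he).1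
      · intro e _ _
        exact sum_nonneg (fun e' _ => mul_nonneg (hX0 w e) (hX0 w e'))
  have hGcard : E.card * p * (1 - 2 * κ - ε / 8) ≤ G.card := by
    refine hw.trans ?_
    have h1 : ∑ e ∈ E, X w e = ((R w).card : ℝ) := by
      rw [hcardR w E (Subset.refl _), inter_eq_left.2 hRE]
    have h2 : R w ⊆ ((R w).filter (fun e => ¬ ((R w ∩ E.filter (fun e' => f e' = f e)).card : ℝ) ≤ (1 + δ) * D)) ∪
        ((R w).filter (fun e => ¬ ((R w ∩ E.filter (fun e' => g e' = g e)).card : ℝ) ≤ (1 + δ) * D)) ∪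
        ((R w).filter (fun e => ¬ ∀ e' ∈ R w, h e' = h e → e' = e)) ∪ G := by
      intro e he
      rw [mem_union, mem_union, mem_union, mem_filter, mem_filter, mem_filter, hG, mem_filter]
      by_cases c1 : ((R w ∩ E.filter (fun e' => f e' = f e)).card : ℝ) ≤ (1 + δ) * D
      · by_cases c2 : ((R w ∩ E.filter (fun e' => g e' = g e)).card : ℝ) ≤ (1 + δ) * D
        · by_cases c3 : ∀ e' ∈ R w, h e' = h e → e' = e
          · exact Or.inr ⟨he, c1, c2, c3⟩
          · exact Or.inl (Or.inr ⟨he, c3⟩)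
        · exact Or.inl (Or.inl (Or.inr ⟨he, c2⟩))
      · exact Or.inl (Or.inl (Or.inl ⟨he, c1⟩))
    have h3 := card_le_card h2
    have h4 : ((R w).card : ℝ) ≤ ((R w).filter (fun e => ¬ ((R w ∩ E.filter (fun e' => f e' = f e)).card : ℝ) ≤ (1 + δ) * D)).card +
        ((R w).filter (fun e => ¬ ((R w ∩ E.filter (fun e' => g e' = g e)).card : ℝ) ≤ (1 + δ) * D)).card +
        ((R w).filter (fun e => ¬ ∀ e' ∈ R w, h e' = h e → e' = e)).card + G.card := by
      have h5 := h3.trans ((card_union_le _ _).trans (Nat.add_le_add_right ((card_union_le _ _).trans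
        (Nat.add_le_add_right (card_union_le _ _) _)) _))
      exact_mod_cast h5
    have h5 := hbadk f hf
    have h6 := hbadk g hg
    rw [h1]
    linarith
  obtain ⟨M, hMG, hMf, hMg, hMc⟩ := konig G f g ⌊(1 + δ) * D⌋₊ (by
    intro u
    rcases (G.filter (fun e => f e = u)).eq_empty_or_nonempty with h1 | ⟨e, he⟩
    · rw [h1]; simp
    · rw [mem_filter, hG, mem_filter] at he
      apply Nat.le_floor
      refine le_trans ?_ he.1.2.1
      have : G.filter (fun e => f e = u) ⊆ R w ∩ E.filter (fun e' => f e' = f e) := by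
        intro e' he'
        rw [mem_filter, hG, mem_filter] at he'
        rw [mem_inter, mem_filter]
        exact ⟨he'.1.1, hRE he'.1.1, by rw [he'.2, he.2]⟩
      exact_mod_cast card_le_card this) (by
    intro u
    rcases (G.filter (fun e => g e = u)).eq_empty_or_nonempty with h1 | ⟨e, he⟩
    · rw [h1]; simp
    · rw [mem_filter, hG, mem_filter] at he
      apply Nat.le_floor
      refine le_trans ?_ he.1.2.2.1
      have : G.filter (fun e => g e = u) ⊆ R w ∩ E.filter (fun e' => g e' = g e) := by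
        intro e' he'
        rw [mem_filter, hG, mem_filter] at he'
        rw [mem_inter, mem_filter]
        exact ⟨he'.1.1, hRE he'.1.1, by rw [he'.2, he.2]⟩
      exact_mod_cast card_le_card this)
  have hGR : G ⊆ R w := filter_subset _ _
  refine ⟨M, hMG.trans (hGR.trans hRE), hMf, hMg, ?_, ?_⟩
  · intro e he e' he' hee
    have h1 := (mem_filter.1 (hMG he')).2.2.2
    exact h1 e (hGR (hMG he)) hee
  · have h1 : (G.card : ℝ) ≤ (1 + δ) * D * M.card := by
      have h2 : (G.card : ℝ) ≤ (⌊(1 + δ) * D⌋₊ : ℝ) * M.card := by exact_mod_cast hMc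
      refine h2.trans (mul_le_mul_of_nonneg_right (Nat.floor_le (by positivity)) (Nat.cast_nonneg _))
    have h2 : E.card * ((1 - δ) * (D / d)) * (1 - 2 * κ - ε / 8) ≤ (1 + δ) * D * M.card := by
      refine le_trans ?_ (hGcard.trans h1)
      apply mul_le_mul_of_nonneg_right _ (by linarith)
      exact mul_le_mul_of_nonneg_left hp2 hE0
    have h3 : E.card * ((1 - δ) * (1 - 2 * κ - ε / 8)) ≤ (1 + δ) * (d * M.card) := by
      have h4 : E.card * ((1 - δ) * (D / d)) * (1 - 2 * κ - ε / 8) * (d / D) ≤ (1 + δ) * D * M.card * (d / D) :=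
        mul_le_mul_of_nonneg_right h2 (by positivity)
      have h5 : E.card * ((1 - δ) * (D / d)) * (1 - 2 * κ - ε / 8) * (d / D) =
          E.card * ((1 - δ) * (1 - 2 * κ - ε / 8)) := by field_simp
      have h6 : (1 + δ) * D * M.card * (d / D) = (1 + δ) * (d * M.card) := by field_simp
      rw [h5, h6] at h4
      exact h4
    have h4 : (1 - ε) * (1 + δ) ≤ (1 - δ) * (1 - 2 * κ - ε / 8) := by
      rw [hκε, hδ]
      nlinarith
    have h5 : (1 + δ) * ((1 - ε) * E.card) ≤ (1 + δ) * (d * M.card) := by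
      calc (1 + δ) * ((1 - ε) * E.card) = E.card * ((1 - ε) * (1 + δ)) := by ring
        _ ≤ E.card * ((1 - δ) * (1 - 2 * κ - ε / 8)) := mul_le_mul_of_nonneg_left h4 hE0
        _ ≤ _ := h3
    exact le_of_mul_le_mul_left h5 (by linarith)

end Pool.Agent.H352R3.FK
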