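import Pool.Agent.H352R3.FK.EnvE
import Pool.Agent.H352R3.FK.Rainbow

set_option autoImplicit false

/-! The ten relations. -/

namespace Pool.Agent.H352R3.FK

open Finset

def ux : Fin 10 → ℕ := ![10120, 14550, 17600, 19000, 17600, 19600, 19200, 19600, 19200, 10100]
def uy : Fin 10 → ℕ := ![14550, 17600, 19000, 19600, 19200, 10100, 10120, 10100, 10120, 14550]
def sg : Fin 10 → ℤ := ![1, -1, -1, -1, -1, 1, 1, 1, 1, -1]
def sparse (u : ℕ) : Bool := u == 10120 || u == 17600 || u == 19600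
def GG (ℓ : ℕ) : ℕ := 12 * ℓ + 1
def VV (ℓ : ℕ) : ℕ := GG ℓ * (6 * ℓ) + 1
def DD (ℓ : ℕ) : ℕ := 40000 * VV ℓ
def gap (ℓ u : ℕ) : ℕ := if sparse u then GG ℓ else 1
def cells (ℓ : ℕ) (J : Finset ℕ) (u : ℕ) : Finset ℕ := J.image (fun j => u * VV ℓ + gap ℓ u * j)
def Jx (ℓ : ℕ) (r : Fin 10) : Finset ℕ := if r = 9 then range (2 * ℓ) else range (6 * ℓ)
def Jy (ℓ : ℕ) (r : Fin 10) : Finset ℕ := if r = 9 then Ico ℓ (3 * ℓ) else range (6 * ℓ)
def Ix (ℓ : ℕ) (r : Fin 10) : Finset ℕ := cells ℓ (Jx ℓ r) (ux r)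
def Iy (ℓ : ℕ) (r : Fin 10) : Finset ℕ := cells ℓ (Jy ℓ r) (uy r)
/-- edges of relation `r` -/
def RR (ℓ t : ℕ) (Bd : Finset ℤ) (r : Fin 10) : Finset (ℕ × ℕ) := RE (DD ℓ) t Bd (sg r) (Ix ℓ r) (Iy ℓ r)

lemma sg_or (r : Fin 10) : sg r = 1 ∨ sg r = -1 := by
  revert r; decide

lemma ux_bd (r : Fin 10) : 10100 ≤ ux r ∧ ux r ≤ 19600 := by
  revert r; decide

lemma uy_bd (r : Fin 10) : 10100 ≤ uy r ∧ uy r ≤ 19600 := by
  revert r; decide

lemma gap_pos (ℓ u : ℕ) : 1 ≤ gap ℓ u := by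
  unfold gap GG; split_ifs <;> omega

lemma gap_le (ℓ u : ℕ) : gap ℓ u ≤ GG ℓ := by
  unfold gap GG; split_ifs <;> omega

lemma card_cells (ℓ : ℕ) (J : Finset ℕ) (u : ℕ) : (cells ℓ J u).card = J.card := by
  unfold cells
  apply card_image_of_injective
  intro a b hab
  have h := gap_pos ℓ u
  have h2 : u * VV ℓ + gap ℓ u * a = u * VV ℓ + gap ℓ u * b := hab
  have h3 : gap ℓ u * a = gap ℓ u * b := by omega
  exact Nat.eq_of_mul_eq_mul_left h h3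

lemma Jx_sub (ℓ : ℕ) (r : Fin 10) : Jx ℓ r ⊆ range (6 * ℓ) := by
  intro j hj
  unfold Jx at hj
  split_ifs at hj <;> rw [mem_range] at * <;> omega

lemma Jy_sub (ℓ : ℕ) (r : Fin 10) : Jy ℓ r ⊆ range (6 * ℓ) := by
  intro j hj
  unfold Jy at hj
  split_ifs at hj
  · rw [mem_Ico] at hj; rw [mem_range]; omega
  · exact hj

lemma cells_bd (ℓ : ℕ) (J : Finset ℕ) (hJ : J ⊆ range (6 * ℓ)) (u v : ℕ) (hv : v ∈ cells ℓ J u) :
    u * VV ℓ ≤ v ∧ v + 1 ≤ (u + 1) * VV ℓ := by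
  unfold cells at hv
  rw [mem_image] at hv
  obtain ⟨j, hj, rfl⟩ := hv
  have h1 := mem_range.1 (hJ hj)
  have h2 := gap_le ℓ u
  have h3 : gap ℓ u * j ≤ GG ℓ * (6 * ℓ) := Nat.mul_le_mul h2 h1.le
  have h4 : VV ℓ = GG ℓ * (6 * ℓ) + 1 := rfl
  have h5 : (u + 1) * VV ℓ = u * VV ℓ + VV ℓ := by ring
  constructor
  · omega
  · omega

lemma VV_pos (ℓ : ℕ) : 1 ≤ VV ℓ := by unfold VV; omega

lemma okI_cells (ℓ : ℕ) (J : Finset ℕ) (hJ : J ⊆ range (6 * ℓ)) (u : ℕ) (hu : 10100 ≤ u ∧ u ≤ 19600) :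
    okI (DD ℓ) (cells ℓ J u) := by
  intro v hv
  obtain ⟨h1, h2⟩ := cells_bd ℓ J hJ u v hv
  have h3 : 10100 * VV ℓ ≤ u * VV ℓ := Nat.mul_le_mul_right _ hu.1
  have h4 : (u + 1) * VV ℓ ≤ 19601 * VV ℓ := Nat.mul_le_mul_right _ (by omega)
  unfold DD
  constructor <;> omega

lemma okIx (ℓ : ℕ) (r : Fin 10) : okI (DD ℓ) (Ix ℓ r) := okI_cells ℓ _ (Jx_sub ℓ r) _ (ux_bd r)
lemma okIy (ℓ : ℕ) (r : Fin 10) : okI (DD ℓ) (Iy ℓ r) := okI_cells ℓ _ (Jy_sub ℓ r) _ (uy_bd r)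

/-- the macroscopic window of a class -/
lemma win (ℓ t : ℕ) (J : Finset ℕ) (hJ : J ⊆ range (6 * ℓ)) (u q : ℕ) (hq : q ∈ CL t (cells ℓ J u)) :
    u * (VV ℓ * t) < q ∧ q ≤ (u + 1) * (VV ℓ * t) ∧ q.Prime := by
  obtain ⟨v, hv, h1, h2, h3⟩ := mem_CL.1 hq
  obtain ⟨h4, h5⟩ := cells_bd ℓ J hJ u v hv
  refine ⟨?_, ?_, h3⟩
  · calc u * (VV ℓ * t) = (u * VV ℓ) * t := by ring
      _ ≤ v * t := Nat.mul_le_mul_right t h4
      _ < q := h1
  · calc q ≤ (v + 1) * t := h2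
      _ ≤ ((u + 1) * VV ℓ) * t := Nat.mul_le_mul_right t h5
      _ = (u + 1) * (VV ℓ * t) := by ring

lemma mem_RR {ℓ t : ℕ} {Bd : Finset ℤ} {r : Fin 10} {e : ℕ × ℕ} (he : e ∈ RR ℓ t Bd r) :
    e.1 ∈ CL t (Ix ℓ r) ∧ e.2 ∈ CL t (Iy ℓ r) ∧ (col (sg r) e.1 e.2).Prime ∧
      ((col (sg r) e.1 e.2 : ℕ) : ℤ) = 2 * (e.2 : ℤ) + sg r * e.1 := by
  unfold RR RE at he
  rw [mem_filter, mem_product] at he
  refine ⟨he.1.1, he.1.2, he.2.2.2.1, ?_⟩
  have h := he.2.2.2.2.2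
  unfold col
  omega

lemma winx {ℓ t : ℕ} {Bd : Finset ℤ} {r : Fin 10} {e : ℕ × ℕ} (he : e ∈ RR ℓ t Bd r) :
    ux r * (VV ℓ * t) < e.1 ∧ e.1 ≤ (ux r + 1) * (VV ℓ * t) ∧ e.1.Prime :=
  win ℓ t _ (Jx_sub ℓ r) _ _ (mem_RR he).1

lemma winy {ℓ t : ℕ} {Bd : Finset ℤ} {r : Fin 10} {e : ℕ × ℕ} (he : e ∈ RR ℓ t Bd r) :
    uy r * (VV ℓ * t) < e.2 ∧ e.2 ≤ (uy r + 1) * (VV ℓ * t) ∧ e.2.Prime :=
  win ℓ t _ (Jy_sub ℓ r) _ _ (mem_RR he).2.1

lemma sp_tab : ∀ r : Fin 10, r ≠ 9 → (sparse (ux r) = true ∧ sparse (uy r) = false) ∨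
    (sparse (ux r) = false ∧ sparse (uy r) = true) := by decide

/-- two cells contributing to the same colour are close -/
lemma close (ℓ t : ℕ) (r : Fin 10) (hr : r ≠ 9) (ht : 1 ≤ t) (x y x' y' v v' w w' : ℕ)
    (hv : v ∈ Iy ℓ r) (hv' : v' ∈ Iy ℓ r) (hw : w ∈ Ix ℓ r) (hw' : w' ∈ Ix ℓ r)
    (hx : w * t < x ∧ x ≤ (w + 1) * t) (hx' : w' * t < x' ∧ x' ≤ (w' + 1) * t)
    (hy : v * t < y ∧ y ≤ (v + 1) * t) (hy' : v' * t < y' ∧ y' ≤ (v' + 1) * t)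
    (hc : 2 * (y : ℤ) + sg r * x = 2 * (y' : ℤ) + sg r * x') : v ≤ v' + 1 := by
  have hsp : (sparse (ux r) = true ∧ sparse (uy r) = false) ∨ (sparse (ux r) = false ∧ sparse (uy r) = true) := sp_tab r hr
  unfold Iy cells Jy at hv hv'
  unfold Ix cells Jx at hw hw'
  rw [if_neg hr, mem_image] at hv hv' hw hw'
  obtain ⟨i, hi, hi2⟩ := hv
  obtain ⟨i', hi', hi2'⟩ := hv'
  obtain ⟨j, hj, hj2⟩ := hw
  obtain ⟨j', hj', hj2'⟩ := hw'
  rw [mem_range] at hi hi' hj hj'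
  -- the key inequality
  have htz : (1 : ℤ) ≤ t := by exact_mod_cast ht
  have e1 : (v : ℤ) * t < y := by exact_mod_cast hy.1
  have e2 : (y : ℤ) ≤ v * t + t := by have := hy.2; push_cast [add_mul] at this; linarith [(by exact_mod_cast this : (y : ℤ) ≤ v * t + 1 * t)]
  have e3 : (v' : ℤ) * t < y' := by exact_mod_cast hy'.1
  have e4 : (y' : ℤ) ≤ v' * t + t := by have := hy'.2; push_cast [add_mul] at this; linarith [(by exact_mod_cast this : (y' : ℤ) ≤ v' * t + 1 * t)]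
  have e5 : (w : ℤ) * t < x := by exact_mod_cast hx.1
  have e6 : (x : ℤ) ≤ w * t + t := by have := hx.2; push_cast [add_mul] at this; linarith [(by exact_mod_cast this : (x : ℤ) ≤ w * t + 1 * t)]
  have e7 : (w' : ℤ) * t < x' := by exact_mod_cast hx'.1
  have e8 : (x' : ℤ) ≤ w' * t + t := by have := hx'.2; push_cast [add_mul] at this; linarith [(by exact_mod_cast this : (x' : ℤ) ≤ w' * t + 1 * t)]
  have hkey : (2 * ((v : ℤ) - v') + sg r * ((w : ℤ) - w')) < 3 ∧ -3 < (2 * ((v : ℤ) - v') + sg r * ((w : ℤ) - w')) := by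
    rcases sg_or r with h | h <;> rw [h] at hc ⊢
    · constructor
      · have : (2 * ((v : ℤ) - v') + 1 * ((w : ℤ) - w')) * t < 3 * t := by nlinarith
        exact lt_of_mul_lt_mul_right this (by linarith)
      · have : (-3) * (t : ℤ) < (2 * ((v : ℤ) - v') + 1 * ((w : ℤ) - w')) * t := by nlinarith
        exact lt_of_mul_lt_mul_right this (by linarith)
    · constructor
      · have : (2 * ((v : ℤ) - v') + -1 * ((w : ℤ) - w')) * t < 3 * t := by nlinarith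
        exact lt_of_mul_lt_mul_right this (by linarith)
      · have : (-3) * (t : ℤ) < (2 * ((v : ℤ) - v') + -1 * ((w : ℤ) - w')) * t := by nlinarith
        exact lt_of_mul_lt_mul_right this (by linarith)
  rcases hsp with ⟨h1, h2⟩ | ⟨h1, h2⟩
  · -- x sparse, y dense
    unfold gap at hi2 hi2' hj2 hj2'
    rw [h2] at hi2 hi2'
    rw [h1] at hj2 hj2'
    simp only [Bool.false_eq_true, if_false, one_mul, if_true] at hi2 hi2' hj2 hj2'
    have hjj : j = j' := by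
      by_contra hne
      have h5 : (w : ℤ) - w' = GG ℓ * ((j : ℤ) - j') := by rw [← hj2, ← hj2']; push_cast; ring
      have h6 : (v : ℤ) - v' = (i : ℤ) - i' := by rw [← hi2, ← hi2']; push_cast; ring
      rw [h5, h6] at hkey
      have hG : (GG ℓ : ℤ) = 12 * ℓ + 1 := by unfold GG; push_cast; ring
      have hGp : (0 : ℤ) < GG ℓ := by rw [hG]; positivity
      rcases Nat.lt_or_gt_of_ne hne with h | h
      · have h7 : (GG ℓ : ℤ) * ((j : ℤ) - j') ≤ -GG ℓ := by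
          have : (j : ℤ) - j' ≤ -1 := by omega
          nlinarith
        rcases sg_or r with h' | h' <;> rw [h'] at hkey <;> omega
      · have h7 : (GG ℓ : ℤ) ≤ (GG ℓ : ℤ) * ((j : ℤ) - j') := by
          have : 1 ≤ (j : ℤ) - j' := by omega
          nlinarith
        rcases sg_or r with h' | h' <;> rw [h'] at hkey <;> omega
    have hww : w = w' := by rw [← hj2, ← hj2', hjj]
    rw [hww, sub_self, mul_zero, add_zero] at hkey
    omega
  · -- x dense, y sparse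
    unfold gap at hi2 hi2' hj2 hj2'
    rw [h2] at hi2 hi2'
    rw [h1] at hj2 hj2'
    simp only [Bool.false_eq_true, if_false, one_mul, if_true] at hi2 hi2' hj2 hj2'
    have hii : i = i' := by
      by_contra hne
      have h5 : (w : ℤ) - w' = (j : ℤ) - j' := by rw [← hj2, ← hj2']; push_cast; ring
      have h6 : (v : ℤ) - v' = GG ℓ * ((i : ℤ) - i') := by rw [← hi2, ← hi2']; push_cast; ring
      rw [h5, h6] at hkey
      have hG : (GG ℓ : ℤ) = 12 * ℓ + 1 := by unfold GG; push_cast; ring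
      have hGp : (0 : ℤ) < GG ℓ := by rw [hG]; positivity
      rcases Nat.lt_or_gt_of_ne hne with h | h
      · have h7 : (GG ℓ : ℤ) * ((i : ℤ) - i') ≤ -GG ℓ := by
          have : (i : ℤ) - i' ≤ -1 := by omega
          nlinarith
        rcases sg_or r with h' | h' <;> rw [h'] at hkey <;> omega
      · have h7 : (GG ℓ : ℤ) ≤ (GG ℓ : ℤ) * ((i : ℤ) - i') := by
          have : 1 ≤ (i : ℤ) - i' := by omega
          nlinarith
        rcases sg_or r with h' | h' <;> rw [h'] at hkey <;> omega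
    have hvv : v = v' := by rw [← hi2, ← hi2', hii]
    omega

lemma deg_col {ℓ t z : ℕ} {Bd : Finset ℤ} {c0 c1 : ℝ} (hE : Env (DD ℓ) t z Bd c0 c1) (hz : 2 ≤ z) (ht : 1 ≤ t)
    (r : Fin 10) (hr : r ≠ 9) (c : ℕ) :
    (((RR ℓ t Bd r).filter (fun e => col (sg r) e.1 e.2 = c)).card : ℝ) ≤ 2 * c1 := by
  classical
  set I' := (Iy ℓ r).filter (fun v => ∃ e ∈ RR ℓ t Bd r, col (sg r) e.1 e.2 = c ∧ v * t < e.2 ∧ e.2 ≤ (v + 1) * t) with hI'
  have h1 := deg_c hE hz (sg r) (sg_or r) (Ix ℓ r) (Iy ℓ r) (okIx ℓ r) (okIy ℓ r) c I' (filter_subset _ _) (by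
    intro e he hec
    have he' : e ∈ RR ℓ t Bd r := he
    obtain ⟨v, hv, h1, h2, h3⟩ := mem_CL.1 (mem_RR he').2.1
    exact mem_CL.2 ⟨v, mem_filter.2 ⟨hv, e, he', hec, h1, h2⟩, h1, h2, h3⟩)
  have h2 : I'.card ≤ 2 := by
    rcases I'.eq_empty_or_nonempty with h0 | hne
    · rw [h0]; simp
    · have hsub : I' ⊆ {I'.min' hne, I'.min' hne + 1} := by
        intro v hv
        have hm := I'.min'_mem hne
        have h3 := I'.min'_le v hv
        set m := I'.min' hne with hmdef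
        rw [hI', mem_filter] at hv hm
        obtain ⟨hv1, e, he, hec, he1, he2⟩ := hv
        obtain ⟨hm1, e', he', hec', he1', he2'⟩ := hm
        obtain ⟨w, hw, hw1, hw2, _⟩ := mem_CL.1 (mem_RR he).1
        obtain ⟨w', hw', hw1', hw2', _⟩ := mem_CL.1 (mem_RR he').1
        have h4 := close ℓ t r hr ht e.1 e.2 e'.1 e'.2 v m w w' hv1 hm1 hw hw' ⟨hw1, hw2⟩ ⟨hw1', hw2'⟩
          ⟨he1, he2⟩ ⟨he1', he2'⟩ (by
            rw [← (mem_RR he).2.2.2, ← (mem_RR he').2.2.2, hec, hec'])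
        rw [mem_insert, mem_singleton]
        omega
      exact (card_le_card hsub).trans card_le_two
  refine h1.trans ?_
  apply mul_le_mul_of_nonneg_right _ hE.c1nn
  exact_mod_cast h2

end Pool.Agent.H352R3.FK
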