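import Pool.Agent.H352R3.FK.Rel

set_option autoImplicit false

/-! The environment exists for all large scales. -/

namespace Pool.Agent.H352R3.FK

open Finset
open Pool.Agent.H373R2.T7

theorem env (D : ℕ) (hD : 16 ≤ D) (η : ℝ) (hη : 0 < η) (hη1 : η ≤ 1) (C : ℝ) (hC : 1 ≤ C) : ∃ t0 : ℕ, ∀ t : ℕ, t0 ≤ t →
    ∃ (z : ℕ) (Bd : Finset ℤ) (S Q τ : ℝ), 2 ≤ z ∧ 1 ≤ S ∧ S ≤ 2 ∧ C ≤ Q ∧ C ≤ τ ∧
      Env D t z Bd ((S - η) * Q) ((S + η) * Q) ∧ 6 * (Bd.card : ℝ) ≤ η * Q ∧ 3 * (Bd.card : ℝ) ≤ η * τ ∧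
      (∀ v : ℕ, D ≤ 8 * v → v + 1 ≤ D → (1 - η) * τ ≤ (PI (v * t) ((v + 1) * t)).card ∧
        ((PI (v * t) ((v + 1) * t)).card : ℝ) ≤ (1 + η) * τ) ∧
      ((PI (D * t) ((D + 1) * t)).card : ℝ) ≤ (1 + η) * τ := by
  have hD0 : (0 : ℝ) < D := by exact_mod_cast (by omega : 0 < D)
  obtain ⟨zf, E, X0, hcnt⟩ := cnt (η / D) (by positivity)
  obtain ⟨X1, hpc⟩ := pcount (η / (2 * D)) (by positivity)
  obtain ⟨n1, h1⟩ := ev_L' (24 * D ^ 2 / η + 1)
  obtain ⟨n2, h2⟩ := ev_log' 2 (C * D)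
  obtain ⟨n3, h3⟩ := ev_log' E 9
  refine ⟨max (max (max X0 X1) (max n1 n2)) (max n3 4), fun t ht => ?_⟩
  have htX0 : X0 ≤ t := le_trans (le_trans (le_trans (le_max_left _ _) (le_max_left _ _)) (le_max_left _ _)) ht
  have htX1 : X1 ≤ t := le_trans (le_trans (le_trans (le_max_right _ _) (le_max_left _ _)) (le_max_left _ _)) ht
  have htn1 : n1 ≤ t := le_trans (le_trans (le_trans (le_max_left _ _) (le_max_right _ _)) (le_max_left _ _)) ht
  have htn2 : n2 ≤ t := le_trans (le_trans (le_trans (le_max_right _ _) (le_max_right _ _)) (le_max_left _ _)) ht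
  have htn3 : n3 ≤ t := le_trans (le_trans (le_max_left _ _) (le_max_right _ _)) ht
  have ht4 : 4 ≤ t := le_trans (le_trans (le_max_right _ _) (le_max_right _ _)) ht
  have htX : t ≤ D * t := Nat.le_mul_of_pos_left t (by omega)
  set X : ℕ := D * t with hX
  have hXr : (X : ℝ) = D * t := by rw [hX]; push_cast; ring
  have ht0 : (0 : ℝ) < t := by exact_mod_cast (by omega : 0 < t)
  have hX0 : (0 : ℝ) < X := by rw [hXr]; positivity
  have hL := h1 X (by omega)
  have hLs := h2 X (by omega)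
  have hLE := h3 X (by omega)
  set L := Real.log X with hLdef
  have h24 : 0 < 24 * (D : ℝ) ^ 2 / η := by positivity
  have hL1 : 1 ≤ L := by linarith
  have hL0 : 0 < L := by linarith
  have hLη : 24 * (D : ℝ) ^ 2 ≤ η * L := by
    have : 24 * (D : ℝ) ^ 2 / η ≤ L := by linarith
    rw [div_le_iff₀ hη] at this
    linarith
  have hs0 : 0 < √(X : ℝ) := Real.sqrt_pos.2 hX0
  have hsq : √(X : ℝ) * √X = X := Real.mul_self_sqrt hX0.le
  have hX1r : (1 : ℝ) ≤ X := by exact_mod_cast (by omega : 1 ≤ X)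
  have hs1 : 1 ≤ √(X : ℝ) := Real.one_le_sqrt.2 hX1r
  have hsX : √(X : ℝ) ≤ X := by nlinarith
  obtain ⟨hz2, hzE, hα⟩ := hcnt X (by omega)
  set z := zf X with hz
  -- the exceptional sets
  have hEx : ∀ (α : ℤ) (v : ℕ), ∃ Ex : Finset ℤ, (Ex.card : ℝ) ≤ X / L ^ 5 ∧
      ((α = 1 ∨ α = -1 ∨ α = 2 ∨ α = -2) → D ≤ 8 * v → v + 1 ≤ D →
        ∀ k : ℤ, |k| ≤ 4 * X → k ∉ Ex → Adm z α k → CntBd (η / D) z X α (v * t) ((v + 1) * t) k) := by
    intro α v
    by_cases h : (α = 1 ∨ α = -1 ∨ α = 2 ∨ α = -2) ∧ D ≤ 8 * v ∧ v + 1 ≤ D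
    · obtain ⟨ha, hb, hc⟩ := h
      obtain ⟨Ex, hEx1, hEx2⟩ := hα α ha (v * t) ((v + 1) * t) (Nat.mul_le_mul_right t (by omega))
        (Nat.mul_le_mul_right t hc) (by
          calc D * t ≤ 8 * v * t := Nat.mul_le_mul_right t hb
            _ = 8 * (v * t) := by ring)
      exact ⟨Ex, hEx1, fun _ _ _ => hEx2⟩
    · refine ⟨∅, ?_, fun ha hb hc => absurd ⟨ha, hb, hc⟩ h⟩
      rw [card_empty, Nat.cast_zero]
      positivity
  choose Ex hE1 hE2 using hEx
  set Bd : Finset ℤ := ({1, -1, 2, -2} : Finset ℤ).biUnion (fun α => (range D).biUnion (fun v => Ex α v)) with hBd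
  have hBdc : (Bd.card : ℝ) ≤ 4 * (D * (X / L ^ 5)) := by
    have h4 : (Bd.card : ℝ) ≤ ∑ α ∈ ({1, -1, 2, -2} : Finset ℤ), (((range D).biUnion (fun v => Ex α v)).card : ℝ) := by
      exact_mod_cast card_biUnion_le
    have h5 : ∀ α ∈ ({1, -1, 2, -2} : Finset ℤ), (((range D).biUnion (fun v => Ex α v)).card : ℝ) ≤ D * (X / L ^ 5) := by
      intro α _
      have := card_biUnion_bd (range D) (fun v => Ex α v) (X / L ^ 5) (fun v _ => hE1 α v)
      rwa [card_range] at this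
    refine h4.trans ((sum_le_sum h5).trans ?_)
    rw [sum_const, nsmul_eq_mul]
    apply mul_le_mul_of_nonneg_right _ (by positivity)
    have : ({1, -1, 2, -2} : Finset ℤ).card = 4 := by decide
    rw [this]
    norm_num
  have hBdmem : ∀ (α : ℤ) (v : ℕ), (α = 1 ∨ α = -1 ∨ α = 2 ∨ α = -2) → v + 1 ≤ D → ∀ k, k ∉ Bd → k ∉ Ex α v := by
    intro α v ha hv k hk hk2
    apply hk
    rw [hBd, mem_biUnion]
    refine ⟨α, by simp only [mem_insert, mem_singleton]; tauto, ?_⟩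
    rw [mem_biUnion]
    exact ⟨v, mem_range.2 (by omega), hk2⟩
  set Q : ℝ := t / L ^ 2 with hQ
  set τ : ℝ := t / L with hτ
  have hcard : ∀ v : ℕ, (((v + 1) * t : ℕ) : ℝ) - ((v * t : ℕ) : ℝ) = t := by intro v; push_cast; ring
  have hηX : η / D * X = η * t := by rw [hXr]; field_simp
  have hQC : C ≤ Q := by
    rw [hQ, le_div_iff₀ (by positivity)]
    have h4 : C * D * L ^ 2 ≤ X := hLs.trans hsX
    rw [hXr] at h4
    have h5 : D * (C * L ^ 2) ≤ D * (t : ℝ) := by linarith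
    exact le_of_mul_le_mul_left h5 hD0
  have hQτ : Q ≤ τ := by
    rw [hQ, hτ]
    apply div_le_div_of_nonneg_left ht0.le hL0
    nlinarith
  have hQ0 : 0 < Q := by linarith
  have hX5 : 24 * (D * ((X : ℝ) / L ^ 5)) ≤ η * Q := by
    rw [hQ, hXr]
    have e1 : 24 * (D * ((D * t : ℝ) / L ^ 5)) = 24 * (D : ℝ) ^ 2 / L ^ 3 * (t / L ^ 2) := by
      field_simp
    rw [e1]
    apply mul_le_mul_of_nonneg_right _ (by positivity)
    rw [div_le_iff₀ (by positivity)]
    refine hLη.trans ?_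
    apply mul_le_mul_of_nonneg_left _ hη.le
    calc L = L ^ 1 := (pow_one L).symm
      _ ≤ L ^ 3 := pow_le_pow_right₀ hL1 (by norm_num)
  refine ⟨z, Bd, Sz z, Q, τ, hz2, Sz_ge_one z hz2, (Sz_bounds z hz2).2, hQC, hQC.trans hQτ, ?_, ?_, ?_, ?_, ?_⟩
  · constructor
    · have h4 : 8 * (z : ℝ) < X := by
        have h5 : 0 < L ^ E := by positivity
        calc 8 * (z : ℝ) ≤ 8 * L ^ E := by linarith
          _ < 9 * L ^ E := by linarith
          _ ≤ √X := hLE
          _ ≤ X := hsX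
      exact_mod_cast h4
    · intro α ha v hv1 hv2 k hk hkB hadm
      have h4 := (hE2 α v ha hv1 hv2 k hk (hBdmem α v ha hv2 k hkB) hadm).1
      rw [hcard, hηX, ← hLdef] at h4
      refine h4.trans (le_of_eq ?_)
      rw [hQ]
      field_simp
    · intro α ha v hv1 hv2 k hk hkB hadm hpos
      have h4 := (hE2 α v ha hv1 hv2 k hk (hBdmem α v ha hv2 k hkB) hadm).2 hpos
      rw [hcard, hηX, ← hLdef] at h4
      refine le_trans (le_of_eq ?_) h4
      rw [hQ]
      field_simp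
    · have := Sz_ge_one z hz2
      apply mul_nonneg <;> linarith
  · linarith
  · have h4 : η * Q ≤ η * τ := mul_le_mul_of_nonneg_left hQτ hη.le
    linarith [(Nat.cast_nonneg Bd.card : (0 : ℝ) ≤ Bd.card)]
  · intro v hv1 hv2
    have h4 := hpc X (by omega) (v * t) ((v + 1) * t) (Nat.mul_le_mul_right t (by omega))
        (Nat.mul_le_mul_right t hv2) (by
          calc D * t ≤ 8 * v * t := Nat.mul_le_mul_right t hv1
            _ = 8 * (v * t) := by ring)
    rw [hcard] at h4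
    have hηX2 : η / (2 * D) * X ≤ η * t := by
      rw [hXr]
      have : η / (2 * D) * (D * t) = η * t / 2 := by field_simp
      rw [this]
      have : 0 < η * t := by positivity
      linarith
    constructor
    · refine le_trans ?_ h4.2
      rw [hτ, mul_div_assoc']
      apply div_le_div_of_nonneg_right _ hL0.le
      linarith
    · refine h4.1.trans ?_
      rw [hτ, mul_div_assoc']
      apply div_le_div_of_nonneg_right _ hL0.le
      linarith
  · have h5 : (D + 1) * t = D * t + t := by ring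
    have h4 := (hpc ((D + 1) * t) (by rw [h5]; omega) (D * t) ((D + 1) * t) (Nat.mul_le_mul_right t (by omega)) le_rfl (by
      rw [h5]
      omega)).1
    rw [hcard] at h4
    refine h4.trans ?_
    have h6 : L ≤ Real.log (((D + 1) * t : ℕ) : ℝ) := by
      apply Real.log_le_log hX0
      rw [hXr]
      push_cast
      linarith
    have h7 : η / (2 * D) * (((D + 1) * t : ℕ) : ℝ) ≤ η * t := by
      push_cast
      rw [div_mul_eq_mul_div, div_le_iff₀ (by positivity)]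
      have h8 : (1 : ℝ) ≤ D := by exact_mod_cast (by omega : 1 ≤ D)
      have h9 : 0 < η * t := by positivity
      nlinarith
    calc ((t : ℝ) + η / (2 * D) * (((D + 1) * t : ℕ) : ℝ)) / Real.log (((D + 1) * t : ℕ) : ℝ) ≤ (t + η * t) / L := by
          apply div_le_div₀ (by positivity) (by linarith) hL0 h6
      _ = (1 + η) * τ := by rw [hτ]; field_simp

end Pool.Agent.H352R3.FK
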