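import Pool.Agent.H352R3.FK.Pos

set_option autoImplicit false

/-! The final assembly. -/

namespace Pool.Agent.H352R3.FK

open Finset

lemma T3_win {ℓ t q : ℕ} (hq : q ∈ T3 ℓ t) : 10100 * (VV ℓ * t) < q ∧ q ≤ 10121 * (VV ℓ * t) ∧ q.Prime := by
  unfold T3 at hq
  rw [mem_union] at hq
  have h0 : ∀ a b : ℕ, a ≤ b → a * (VV ℓ * t) ≤ b * (VV ℓ * t) := fun a b h => Nat.mul_le_mul_right _ h
  rcases hq with h | h
  · obtain ⟨h1, h2, h3⟩ := cls_win h
    have := h0 (10100 + 1) 10121 (by norm_num)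
    exact ⟨h1, by omega, h3⟩
  · obtain ⟨h1, h2, h3⟩ := cls_win h
    have := h0 10100 10120 (by norm_num)
    exact ⟨by omega, h2, h3⟩

lemma T2_win {ℓ t q : ℕ} (hq : q ∈ T2 ℓ t) : 14550 * (VV ℓ * t) < q ∧ q ≤ 19601 * (VV ℓ * t) ∧ q.Prime := by
  unfold T2 at hq
  simp only [mem_union] at hq
  have h0 : ∀ a b : ℕ, a ≤ b → a * (VV ℓ * t) ≤ b * (VV ℓ * t) := fun a b h => Nat.mul_le_mul_right _ h
  have key : ∀ u, 14550 ≤ u → u ≤ 19600 → q ∈ clsU ℓ t u → 14550 * (VV ℓ * t) < q ∧ q ≤ 19601 * (VV ℓ * t) ∧ q.Prime := by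
    intro u hu1 hu2 h
    obtain ⟨h1, h2, h3⟩ := cls_win h
    have e1 := h0 14550 u hu1
    have e2 := h0 (u + 1) 19601 (by omega)
    exact ⟨by omega, by omega, h3⟩
  rcases hq with (((h | h) | h) | h) | h
  · exact key _ (by norm_num) (by norm_num) h
  · exact key _ (by norm_num) (by norm_num) h
  · exact key _ (by norm_num) (by norm_num) h
  · exact key _ (by norm_num) (by norm_num) h
  · exact key _ (by norm_num) (by norm_num) h

lemma T1_win {ℓ t q : ℕ} (hq : q ∈ T1 ℓ t) : 40000 * (VV ℓ * t) + t < 2 * q ∧ q < 40000 * (VV ℓ * t) ∧ q.Prime := by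
  unfold T1 at hq
  rw [mem_filter, mem_range, DDt, DDt1] at hq
  exact ⟨hq.2.2, hq.1, hq.2.1⟩

lemma card_MV (ℓ t : ℕ) : (MV ℓ t).card = (T3 ℓ t).card + (T2 ℓ t).card + (T1 ℓ t).card := by
  unfold MV
  rw [card_union_of_disjoint, card_union_of_disjoint]
  · rw [disjoint_left]
    intro q h1 h2
    have e1 := T3_win h1
    have e2 := T2_win h2
    have h0 : 10121 * (VV ℓ * t) ≤ 14550 * (VV ℓ * t) := Nat.mul_le_mul_right _ (by norm_num)
    omega
  · rw [disjoint_left]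
    intro q h1 h2
    have e2 := T1_win h2
    rw [mem_union] at h1
    rcases h1 with h1 | h1
    · have e1 := T3_win h1
      omega
    · have e1 := T2_win h1
      omega

lemma card_ND (ℓ t : ℕ) : (ND ℓ t).card ≤ 3 * (T3 ℓ t).card + 2 * (T2 ℓ t).card + (T1 ℓ t).card +
    (PI (DD ℓ * t) ((DD ℓ + 1) * t)).card := by
  unfold ND
  have h1 : ((T3 ℓ t).biUnion (fun q => ({q, 2 * q, 3 * q} : Finset ℕ))).card ≤ 3 * (T3 ℓ t).card := by
    refine card_biUnion_le.trans ?_
    have : ∀ q ∈ T3 ℓ t, ({q, 2 * q, 3 * q} : Finset ℕ).card ≤ 3 := fun q _ => card_le_three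
    refine (sum_le_sum this).trans ?_
    rw [sum_const, smul_eq_mul, mul_comm]
  have h2 : ((T2 ℓ t).biUnion (fun q => ({q, 2 * q} : Finset ℕ))).card ≤ 2 * (T2 ℓ t).card := by
    refine card_biUnion_le.trans ?_
    have : ∀ q ∈ T2 ℓ t, ({q, 2 * q} : Finset ℕ).card ≤ 2 := fun q _ => card_le_two
    refine (sum_le_sum this).trans ?_
    rw [sum_const, smul_eq_mul, mul_comm]
  have h3 := card_union_le ((T3 ℓ t).biUnion (fun q => ({q, 2 * q, 3 * q} : Finset ℕ)) ∪
    (T2 ℓ t).biUnion (fun q => ({q, 2 * q} : Finset ℕ)) ∪ T1 ℓ t) (PI (DD ℓ * t) ((DD ℓ + 1) * t))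
  have h4 := card_union_le ((T3 ℓ t).biUnion (fun q => ({q, 2 * q, 3 * q} : Finset ℕ)) ∪
    (T2 ℓ t).biUnion (fun q => ({q, 2 * q} : Finset ℕ))) (T1 ℓ t)
  have h5 := card_union_le ((T3 ℓ t).biUnion (fun q => ({q, 2 * q, 3 * q} : Finset ℕ)))
    ((T2 ℓ t).biUnion (fun q => ({q, 2 * q} : Finset ℕ)))
  omega

lemma need (ℓ t : ℕ) (ht : 1 ≤ t) (m : ℕ) (hm1 : t < m) (hm2 : m ≤ t + DD ℓ * t) :
    (∀ p : ℕ, p.Prime → p ∣ m → p < DD ℓ * t ∧ p ∉ MV ℓ t) ∨ m ∈ ND ℓ t := by
  by_cases h : ∀ p : ℕ, p.Prime → p ∣ m → p < DD ℓ * t ∧ p ∉ MV ℓ t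
  · exact Or.inl h
  right
  push Not at h
  obtain ⟨p, hp, ⟨j, rfl⟩, h2⟩ := h
  have hts := t_le ℓ t
  rw [DDt] at h2 hm2
  have hj : j ≠ 0 := by rintro rfl; omega
  unfold ND
  simp only [mem_union, mem_biUnion, mem_insert, mem_singleton]
  by_cases h3 : p < 40000 * (VV ℓ * t)
  · have h4 := h2 h3
    unfold MV at h4
    simp only [mem_union] at h4
    rcases h4 with (h4 | h4) | h4
    · have e := T3_win h4
      have hj4 : j < 4 := by
        by_contra hc
        have : p * 4 ≤ p * j := Nat.mul_le_mul_left p (by omega)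
        omega
      left; left; left
      refine ⟨p, h4, ?_⟩
      interval_cases j
      · exact absurd rfl hj
      · left; ring
      · right; left; ring
      · right; right; ring
    · have e := T2_win h4
      have hj3 : j < 3 := by
        by_contra hc
        have : p * 3 ≤ p * j := Nat.mul_le_mul_left p (by omega)
        omega
      left; left; right
      refine ⟨p, h4, ?_⟩
      interval_cases j
      · exact absurd rfl hj
      · left; ring
      · right; ring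
    · have e := T1_win h4
      have hj2 : j < 2 := by
        by_contra hc
        have : p * 2 ≤ p * j := Nat.mul_le_mul_left p (by omega)
        omega
      have hj1 : j = 1 := by omega
      rw [hj1, mul_one]
      left; right
      exact h4
  · right
    have hj2 : j < 2 := by
      by_contra hc
      have : p * 2 ≤ p * j := Nat.mul_le_mul_left p (by omega)
      omega
    have hj1 : j = 1 := by omega
    rw [hj1, mul_one] at hm2 ⊢
    unfold PI
    rw [mem_filter, mem_Ioc, DDt, DDt1]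
    have hne : p ≠ 40000 * (VV ℓ * t) := by
      intro hc
      have h2d : 2 ∣ p := by rw [hc]; exact ⟨20000 * (VV ℓ * t), by ring⟩
      have := (Nat.prime_dvd_prime_iff_eq Nat.prime_two hp).1 h2d
      omega
    exact ⟨⟨by omega, by omega⟩, hp⟩

theorem main : ∃ D : ℕ, 1 ≤ D ∧ ∃ t0 : ℕ, ∀ t : ℕ, t0 ≤ t → ∃ n : ℕ, ∀ i ∈ Icc 1 (D * t),
    t < ∏ p ∈ (range (D * t)).filter Nat.Prime, p ^ ((n + i).factorization p) := by
  obtain ⟨ℓ, hℓ, t0, hcount⟩ := count
  refine ⟨DD ℓ, by have := VV_pos ℓ; unfold DD; omega, max t0 1, fun t ht => ?_⟩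
  have ht1 : 1 ≤ t := le_trans (le_max_right _ _) ht
  obtain ⟨Bd, N, M, hM, hf, hg, hh, hcl, hbad, hcard⟩ := hcount t (le_trans (le_max_left _ _) ht)
  have hst : 1 ≤ VV ℓ * t := ht1.trans (t_le ℓ t)
  have hT3 : ((T3 ℓ t).card : ℝ) ≤ 2 * (6 * ℓ * N) := by
    have h1 := card_union_le (clsU ℓ t 10100) (clsU ℓ t 10120)
    have h2 : ((T3 ℓ t).card : ℝ) ≤ (clsU ℓ t 10100).card + (clsU ℓ t 10120).card := by
      unfold T3
      exact_mod_cast h1
    have h3 := hcl 10100 (by norm_num) (by norm_num)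
    have h4 := hcl 10120 (by norm_num) (by norm_num)
    unfold clsU at h2
    linarith
  have hT2 : ((T2 ℓ t).card : ℝ) ≤ 5 * (6 * ℓ * N) := by
    have h1 : (T2 ℓ t).card ≤ (clsU ℓ t 14550).card + (clsU ℓ t 17600).card + (clsU ℓ t 19000).card +
        (clsU ℓ t 19600).card + (clsU ℓ t 19200).card := by
      unfold T2
      have a1 := card_union_le (clsU ℓ t 14550 ∪ clsU ℓ t 17600 ∪ clsU ℓ t 19000 ∪ clsU ℓ t 19600) (clsU ℓ t 19200)
      have a2 := card_union_le (clsU ℓ t 14550 ∪ clsU ℓ t 17600 ∪ clsU ℓ t 19000) (clsU ℓ t 19600)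
      have a3 := card_union_le (clsU ℓ t 14550 ∪ clsU ℓ t 17600) (clsU ℓ t 19000)
      have a4 := card_union_le (clsU ℓ t 14550) (clsU ℓ t 17600)
      omega
    have h2 : ((T2 ℓ t).card : ℝ) ≤ (clsU ℓ t 14550).card + (clsU ℓ t 17600).card + (clsU ℓ t 19000).card +
        (clsU ℓ t 19600).card + (clsU ℓ t 19200).card := by exact_mod_cast h1
    have h3 := hcl 14550 (by norm_num) (by norm_num)
    have h4 := hcl 17600 (by norm_num) (by norm_num)
    have h5 := hcl 19000 (by norm_num) (by norm_num)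
    have h6 := hcl 19600 (by norm_num) (by norm_num)
    have h7 := hcl 19200 (by norm_num) (by norm_num)
    unfold clsU at h2
    linarith
  have hcN : (ND ℓ t).card ≤ (MV ℓ t).card + M.card := by
    have h1 := card_ND ℓ t
    have h2 := card_MV ℓ t
    have h3 : ((ND ℓ t).card : ℝ) ≤ 3 * (T3 ℓ t).card + 2 * (T2 ℓ t).card + (T1 ℓ t).card +
      (PI (DD ℓ * t) ((DD ℓ + 1) * t)).card := by exact_mod_cast h1
    have h4 : ((MV ℓ t).card : ℝ) = (T3 ℓ t).card + (T2 ℓ t).card + (T1 ℓ t).card := by exact_mod_cast h2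
    have h5 : ((ND ℓ t).card : ℝ) ≤ (MV ℓ t).card + M.card := by linarith
    exact_mod_cast h5
  obtain ⟨c, hc⟩ := cover M mv ps (MV ℓ t) (ND ℓ t) (mv_mem ht1 hM) (mv_inj ht1 hM hf hg hh)
    (fun p hp b => ps_mem ht1 hM p hp b) (ps_inj hst hM hf hg hh) hcN
  apply crt_final (DD ℓ * t) t (MV ℓ t) _ c
  · intro m hm1 hm2
    rcases need ℓ t ht1 m hm1 hm2 with h | h
    · exact Or.inl h
    · right
      rcases hc m h with ⟨p, hp, b, h1, h2⟩ | ⟨q, hq, h1⟩
      · refine ⟨mv p, mv_mem ht1 hM p hp, ?_⟩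
        rw [h1, h2]
        exact ps_mod hM p hp b
      · refine ⟨q, hq, ?_⟩
        rw [h1]
  · intro q hq
    have hts := t_le ℓ t
    unfold MV at hq
    simp only [mem_union] at hq
    rw [DDt]
    rcases hq with (h | h) | h
    · have e := T3_win h
      exact ⟨e.2.2, by omega, by omega⟩
    · have e := T2_win h
      exact ⟨e.2.2, by omega, by omega⟩
    · have e := T1_win h
      exact ⟨e.2.2, by omega, by omega⟩

end Pool.Agent.H352R3.FK
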