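import Pool.Agent.H373R2.T7.BilF

set_option autoImplicit false

/-! An L² bound for correlations. -/

namespace Pool.Agent.H352R3.FK

open Finset
open Pool.Agent.H807R2.Dav
open Pool.Agent.H373R2.T7

lemma pars {ι : Type*} (I : Finset ι) (C : ι → ℂ) (φ : ι → ℤ) (M : ℕ) (hM : 1 ≤ M)
    (hinj : ∀ i ∈ I, ∀ j ∈ I, (M : ℤ) ∣ φ i - φ j → i = j) :
    ∑ t ∈ range M, ‖∑ i ∈ I, C i * ee ((t : ℝ) * ((φ i : ℝ) / M))‖ ^ 2 = M * ∑ i ∈ I, ‖C i‖ ^ 2 := by
  have h1 := sq_expand I C φ M hM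
  have h2 : ∑ i ∈ I, ∑ j ∈ I, C i * (starRingEnd ℂ) (C j) * (if (M : ℤ) ∣ φ i - φ j then (M : ℂ) else 0) =
      ∑ i ∈ I, (M : ℂ) * ((‖C i‖ ^ 2 : ℝ) : ℂ) := by
    apply sum_congr rfl
    intro i hi
    rw [sum_eq_single i]
    · rw [sub_self, if_pos (dvd_zero _), Complex.mul_conj']
      push_cast
      ring
    · intro j hj hne
      rw [if_neg, mul_zero]
      intro hd
      exact hne (hinj i hi j hj hd).symm
    · intro h; exact absurd hi h
  rw [h2, ← mul_sum] at h1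
  have h3 : (((∑ t ∈ range M, ‖∑ i ∈ I, C i * ee ((t : ℝ) * ((φ i : ℝ) / M))‖ ^ 2 : ℝ)) : ℂ) =
      ((M * ∑ i ∈ I, ‖C i‖ ^ 2 : ℝ) : ℂ) := by
    rw [h1]
    push_cast
    rfl
  exact_mod_cast h3

theorem corr_l2 (α : ℤ) (hα : α ≠ 0) (I : Finset ℕ) (N H K0 : ℕ) (hI : ∀ n ∈ I, n ≤ N) (f h : ℕ → ℂ) (δ : ℝ)
    (hδ : ∀ θ : ℝ, ‖∑ n ∈ Icc 1 H, h n * ee ((n : ℝ) * θ)‖ ≤ δ) :
    ∑ k ∈ Icc (-(K0 : ℤ)) K0, ‖∑ n ∈ I, f n * fz h H (α * n + k)‖ ^ 2 ≤ δ ^ 2 * ∑ n ∈ I, ‖f n‖ ^ 2 := by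
  have hδ0 : 0 ≤ δ := (norm_nonneg _).trans (hδ 0)
  set K : ℕ := K0 + H + α.natAbs * N with hK
  set M : ℕ := 2 * K + 1 with hM
  have hM1 : 1 ≤ M := by omega
  have hM0 : (0 : ℝ) < M := by exact_mod_cast hM1
  set g : ℤ → ℂ := fun k => ∑ n ∈ I, f n * fz h H (α * n + k) with hg
  have hsub : ∑ k ∈ Icc (-(K0 : ℤ)) K0, ‖g k‖ ^ 2 ≤ ∑ k ∈ Icc (-(K : ℤ)) K, ‖g k‖ ^ 2 := by
    apply sum_le_sum_of_subset_of_nonneg
    · apply Icc_subset_Icc
      · have : (K0 : ℤ) ≤ K := by exact_mod_cast (by omega : K0 ≤ K)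
        omega
      · exact_mod_cast (by omega : K0 ≤ K)
    · intro k _ _; positivity
  refine hsub.trans ?_
  have hαn : ∀ n ∈ I, |α * (n : ℤ)| ≤ (α.natAbs * N : ℕ) := by
    intro n hn
    rw [abs_mul, Nat.abs_cast, ← Int.natCast_natAbs α]
    have := Nat.mul_le_mul_left α.natAbs (hI n hn)
    exact_mod_cast this
  have hp1 := pars (Icc (-(K : ℤ)) K) g (fun k => k) M hM1 (by
    intro i hi j hj hd
    rw [mem_Icc] at hi hj
    have h1 : |i - j| < M := by rw [abs_lt, hM]; push_cast; constructor <;> omega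
    have := Int.eq_zero_of_abs_lt_dvd hd h1
    omega)
  have hp2 := pars I f (fun n => -(α * (n : ℤ))) M hM1 (by
    intro i hi j hj hd
    have h1 : |-(α * (i : ℤ)) - -(α * (j : ℤ))| < M := by
      have e1 := abs_le.1 (hαn i hi)
      have e2 := abs_le.1 (hαn j hj)
      have e3 : ((α.natAbs * N : ℕ) : ℤ) ≤ K := by exact_mod_cast (by omega : α.natAbs * N ≤ K)
      rw [abs_lt, hM]; push_cast at *; constructor <;> linarith [e1.1, e1.2, e2.1, e2.2]
    have h2 := Int.eq_zero_of_abs_lt_dvd hd h1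
    have h3 : α * ((j : ℤ) - i) = 0 := by linarith
    rcases mul_eq_zero.1 h3 with h4 | h4
    · exact absurd h4 hα
    · omega)
  -- the transform
  have htr : ∀ t ∈ range M, ∑ k ∈ Icc (-(K : ℤ)) K, g k * ee ((t : ℝ) * ((k : ℝ) / M)) =
      (∑ n ∈ I, f n * ee ((t : ℝ) * (((-(α * (n : ℤ)) : ℤ) : ℝ) / M))) *
        ∑ m ∈ Icc 1 H, h m * ee ((m : ℝ) * ((t : ℝ) / M)) := by
    intro t _
    rw [sum_mul]
    rw [hg]
    simp only [sum_mul]
    rw [sum_comm]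
    apply sum_congr rfl
    intro n hn
    have h1 : ∀ k ∈ Icc (-(K : ℤ)) K, f n * fz h H (α * n + k) * ee ((t : ℝ) * ((k : ℝ) / M)) =
        ∑ m ∈ Icc 1 H, if k = (m : ℤ) - α * n then
          f n * ee ((t : ℝ) * (((-(α * (n : ℤ)) : ℤ) : ℝ) / M)) * (h m * ee ((m : ℝ) * ((t : ℝ) / M))) else 0 := by
      intro k _
      unfold fz
      by_cases hk : 1 ≤ α * (n : ℤ) + k ∧ α * (n : ℤ) + k ≤ H
      · rw [if_pos hk, sum_eq_single (α * (n : ℤ) + k).toNat]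
        · have e1 : ((α * (n : ℤ) + k).toNat : ℤ) = α * n + k := Int.toNat_of_nonneg (by omega)
          rw [if_pos (by rw [e1]; ring)]
          have e2 : (((α * (n : ℤ) + k).toNat : ℕ) : ℝ) = α * n + k := by
            have : (((α * (n : ℤ) + k).toNat : ℤ) : ℝ) = ((α * n + k : ℤ) : ℝ) := by rw [e1]
            push_cast at this ⊢
            exact this
          have e3 : ee ((t : ℝ) * ((k : ℝ) / M)) = ee ((t : ℝ) * (((-(α * (n : ℤ)) : ℤ) : ℝ) / M)) *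
              ee ((((α * (n : ℤ) + k).toNat : ℕ) : ℝ) * ((t : ℝ) / M)) := by
            rw [← ee_add]
            congr 1
            rw [e2]
            push_cast
            field_simp
            ring
          rw [e3]
          ring
        · intro m _ hne
          rw [if_neg]
          intro h4
          apply hne
          omega
        · intro h4
          exfalso
          apply h4
          rw [mem_Icc]
          omega
      · rw [if_neg hk, mul_zero, zero_mul]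
        symm
        apply sum_eq_zero
        intro m hm
        rw [mem_Icc] at hm
        rw [if_neg]
        omega
    rw [sum_congr rfl h1, sum_comm, mul_sum]
    apply sum_congr rfl
    intro m hm
    rw [sum_ite_eq' (Icc (-(K : ℤ)) K), if_pos]
    rw [mem_Icc] at hm ⊢
    have e1 := abs_le.1 (hαn n hn)
    have e3 : ((α.natAbs * N : ℕ) : ℤ) + H ≤ K := by exact_mod_cast (by omega : α.natAbs * N + H ≤ K)
    constructor <;> omega
  have h4 : (M : ℝ) * ∑ k ∈ Icc (-(K : ℤ)) K, ‖g k‖ ^ 2 ≤ M * (δ ^ 2 * ∑ n ∈ I, ‖f n‖ ^ 2) := by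
    rw [← hp1]
    have h5 : (M : ℝ) * (δ ^ 2 * ∑ n ∈ I, ‖f n‖ ^ 2) = δ ^ 2 * (M * ∑ n ∈ I, ‖f n‖ ^ 2) := by ring
    rw [h5, ← hp2, mul_sum]
    apply sum_le_sum
    intro t ht
    rw [htr t ht, norm_mul, mul_pow, mul_comm]
    apply mul_le_mul_of_nonneg_right _ (by positivity)
    exact pow_le_pow_left₀ (norm_nonneg _) (hδ _) 2
  exact le_of_mul_le_mul_left h4 hM0

end Pool.Agent.H352R3.FK
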