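import Mathlib

set_option autoImplicit false

/-! Matchings in bipartite multigraphs and a greedy matching lemma. -/

namespace Pool.Agent.H352R3.FK

open Finset

/-- A bipartite multigraph with maximal degree at most `Δ` has a matching with at least `|E| / Δ` edges. -/
theorem konig {ι α β : Type} [DecidableEq ι] [DecidableEq α] [DecidableEq β] (E : Finset ι)
    (f : ι → α) (g : ι → β) (Δ : ℕ)
    (hf : ∀ u, (E.filter (fun e => f e = u)).card ≤ Δ)
    (hg : ∀ v, (E.filter (fun e => g e = v)).card ≤ Δ) :
    ∃ M ⊆ E, Set.InjOn f (M : Set ι) ∧ Set.InjOn g (M : Set ι) ∧ E.card ≤ Δ * M.card := by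
  classical
  rcases Nat.eq_zero_or_pos Δ with hΔ | hΔ
  · refine ⟨∅, empty_subset _, by simp, by simp, ?_⟩
    have : E = ∅ := by
      rw [eq_empty_iff_forall_notMem]
      intro e he
      have h1 := hf (f e)
      rw [hΔ, Nat.le_zero, card_eq_zero] at h1
      have : e ∈ E.filter (fun e' => f e' = f e) := mem_filter.2 ⟨he, rfl⟩
      rw [h1] at this
      simp at this
    rw [this]; simp
  set U := E.image f with hU
  set N : α → Finset β := fun u => (E.filter (fun e => f e = u)).image g with hN
  set q := (E.card + Δ - 1) / Δ with hq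
  have hq1 : E.card ≤ Δ * q := by
    have h1 : E.card + Δ - 1 < Δ * (q + 1) := by
      rw [hq]; exact Nat.lt_mul_div_succ _ hΔ
    rw [Nat.mul_add] at h1
    omega
  have hq2 : ∀ n, E.card ≤ Δ * n → q ≤ n := by
    intro n hn
    rw [hq, Nat.div_le_iff_le_mul_add_pred hΔ]
    omega
  have hEU : E.card ≤ Δ * U.card := by
    have h1 : E.card = ∑ u ∈ U, (E.filter (fun e => f e = u)).card :=
      card_eq_sum_card_fiberwise (fun e he => mem_image_of_mem f he)
    rw [h1, mul_comm]
    exact sum_le_card_nsmul _ _ _ (fun u _ => hf u)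
  have hqU : q ≤ U.card := hq2 _ hEU
  set t := U.card - q with ht
  have hall : ∀ s : Finset {u // u ∈ U}, s.card ≤
      (s.biUnion (fun u => (N u.1).disjSum (univ : Finset (Fin t)))).card := by
    intro s
    rcases s.eq_empty_or_nonempty with hs | hs
    · rw [hs]; simp
    set S := s.image Subtype.val with hS
    have hScard : S.card = s.card := card_image_of_injective _ Subtype.val_injective
    have hSU : S ⊆ U := by
      intro u hu
      rw [hS, mem_image] at hu
      obtain ⟨x, _, rfl⟩ := hu
      exact x.2
    have h1 : (s.biUnion (fun u => (N u.1).disjSum (univ : Finset (Fin t)))) =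
        (S.biUnion N).disjSum (univ : Finset (Fin t)) := by
      ext x
      rw [mem_biUnion]
      rcases x with v | k
      · rw [inl_mem_disjSum, mem_biUnion]
        constructor
        · rintro ⟨u, hu, hv⟩
          rw [inl_mem_disjSum] at hv
          exact ⟨u.1, mem_image_of_mem _ hu, hv⟩
        · rintro ⟨u, hu, hv⟩
          rw [hS, mem_image] at hu
          obtain ⟨x, hx, rfl⟩ := hu
          exact ⟨x, hx, inl_mem_disjSum.2 hv⟩
      · rw [inr_mem_disjSum]
        constructor
        · intro _; exact mem_univ _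
        · intro _
          obtain ⟨u, hu⟩ := hs
          exact ⟨u, hu, inr_mem_disjSum.2 (mem_univ _)⟩
    rw [h1, card_disjSum, card_univ, Fintype.card_fin]
    -- edges inside and outside
    have h2 : E.card ≤ Δ * ((S.biUnion N).card + (U.card - S.card)) := by
      have hsplit : E.card = (E.filter (fun e => f e ∈ S)).card + (E.filter (fun e => ¬ f e ∈ S)).card :=
        (card_filter_add_card_filter_not _).symm
      have ha : (E.filter (fun e => f e ∈ S)).card ≤ (S.biUnion N).card * Δ := by
        have h3 : (E.filter (fun e => f e ∈ S)).card =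
            ∑ v ∈ S.biUnion N, ((E.filter (fun e => f e ∈ S)).filter (fun e => g e = v)).card := by
          apply card_eq_sum_card_fiberwise
          intro e he
          rw [mem_coe, mem_filter] at he
          rw [mem_coe, mem_biUnion]
          exact ⟨f e, he.2, mem_image.2 ⟨e, mem_filter.2 ⟨he.1, rfl⟩, rfl⟩⟩
        rw [h3]
        apply sum_le_card_nsmul
        intro v _
        refine le_trans (card_le_card ?_) (hg v)
        intro e he
        rw [mem_filter, mem_filter] at he
        exact mem_filter.2 ⟨he.1.1, he.2⟩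
      have hb : (E.filter (fun e => ¬ f e ∈ S)).card ≤ (U \ S).card * Δ := by
        have h3 : (E.filter (fun e => ¬ f e ∈ S)).card =
            ∑ u ∈ U \ S, ((E.filter (fun e => ¬ f e ∈ S)).filter (fun e => f e = u)).card := by
          apply card_eq_sum_card_fiberwise
          intro e he
          rw [mem_coe, mem_filter] at he
          rw [mem_coe, mem_sdiff]
          exact ⟨mem_image_of_mem f he.1, he.2⟩
        rw [h3]
        apply sum_le_card_nsmul
        intro u _
        refine le_trans (card_le_card ?_) (hf u)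
        intro e he
        rw [mem_filter, mem_filter] at he
        exact mem_filter.2 ⟨he.1.1, he.2⟩
      rw [card_sdiff_of_subset hSU] at hb
      calc E.card = _ := hsplit
        _ ≤ (S.biUnion N).card * Δ + (U.card - S.card) * Δ := add_le_add ha hb
        _ = _ := by ring
    have h4 := hq2 _ h2
    have h5 : S.card ≤ U.card := card_le_card hSU
    omega
  obtain ⟨φ, hφ, hφm⟩ := (all_card_le_biUnion_card_iff_exists_injective _).1 hall
  set U1 : Finset {u // u ∈ U} := univ.filter (fun u => (φ u).isLeft) with hU1
  have hU1card : q ≤ U1.card := by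
    have h1 : U1.card + (univ.filter (fun u : {u // u ∈ U} => ¬ (φ u).isLeft)).card = U.card := by
      rw [hU1, card_filter_add_card_filter_not, card_univ, Fintype.card_coe]
    have h2 : (univ.filter (fun u : {u // u ∈ U} => ¬ (φ u).isLeft)).card ≤ t := by
      have h3 : (univ.filter (fun u : {u // u ∈ U} => ¬ (φ u).isLeft)).card ≤
          ((univ : Finset (Fin t)).map ⟨Sum.inr, Sum.inr_injective⟩ : Finset (β ⊕ Fin t)).card := by
        apply card_le_card_of_injOn φ
        · intro u hu
          rw [mem_coe, mem_filter] at hu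
          rw [mem_coe, mem_map]
          rcases hx : φ u with v | k
          · rw [hx] at hu; simp at hu
          · exact ⟨k, mem_univ _, rfl⟩
        · exact hφ.injOn
      rw [card_map, card_univ, Fintype.card_fin] at h3
      exact h3
    omega
  have hex : ∀ u : {u // u ∈ U}, ∃ e ∈ E, f e = u.1 ∧ (u ∈ U1 → φ u = Sum.inl (g e)) := by
    intro u
    have h1 := hφm u
    rcases hx : φ u with v | k
    · rw [hx, inl_mem_disjSum, hN, mem_image] at h1
      obtain ⟨e, he, hev⟩ := h1
      rw [mem_filter] at he
      exact ⟨e, he.1, he.2, fun _ => by rw [hev]⟩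
    · obtain ⟨e, he, hfe⟩ := mem_image.1 u.2
      refine ⟨e, he, hfe, fun hu => ?_⟩
      rw [hU1, mem_filter, hx] at hu
      simp at hu
  choose e he hfe hge using hex
  refine ⟨U1.image e, ?_, ?_, ?_, ?_⟩
  · intro x hx
    rw [mem_image] at hx
    obtain ⟨u, hu, rfl⟩ := hx
    exact he u
  · intro x hx y hy hxy
    rw [mem_coe, mem_image] at hx hy
    obtain ⟨u, hu, rfl⟩ := hx
    obtain ⟨u', hu', rfl⟩ := hy
    rw [hfe u, hfe u'] at hxy
    rw [Subtype.ext hxy]
  · intro x hx y hy hxy
    rw [mem_coe, mem_image] at hx hy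
    obtain ⟨u, hu, rfl⟩ := hx
    obtain ⟨u', hu', rfl⟩ := hy
    have h1 : φ u = φ u' := by rw [hge u hu, hge u' hu', hxy]
    rw [hφ h1]
  · rw [card_image_of_injOn]
    · exact hq1.trans (Nat.mul_le_mul_left _ hU1card)
    · intro u hu u' hu' h
      have h1 : f (e u) = f (e u') := by rw [h]
      rw [hfe u, hfe u'] at h1
      exact Subtype.ext h1

/-- greedy matching in a 3-partite 3-uniform hypergraph -/
theorem greedy {ι α β γ : Type} [DecidableEq ι] [DecidableEq α] [DecidableEq β] [DecidableEq γ] (E : Finset ι)
    (f : ι → α) (g : ι → β) (h : ι → γ) (Δ : ℝ)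
    (hf : ∀ u, ((E.filter (fun e => f e = u)).card : ℝ) ≤ Δ)
    (hg : ∀ v, ((E.filter (fun e => g e = v)).card : ℝ) ≤ Δ)
    (hh : ∀ c, ((E.filter (fun e => h e = c)).card : ℝ) ≤ Δ) :
    ∃ M ⊆ E, Set.InjOn f (M : Set ι) ∧ Set.InjOn g (M : Set ι) ∧ Set.InjOn h (M : Set ι) ∧
      (E.card : ℝ) ≤ 3 * Δ * M.card := by
  classical
  set F : Finset (Finset ι) := E.powerset.filter (fun M : Finset ι => Set.InjOn f (M : Set ι) ∧ Set.InjOn g (M : Set ι) ∧ Set.InjOn h (M : Set ι)) with hF
  have hne : F.Nonempty := ⟨∅, by rw [hF, mem_filter]; simp⟩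
  obtain ⟨M, hM, hmax⟩ := Finset.exists_max_image F Finset.card hne
  rw [hF, mem_filter, mem_powerset] at hM
  refine ⟨M, hM.1, hM.2.1, hM.2.2.1, hM.2.2.2, ?_⟩
  have hcov : E ⊆ M.biUnion (fun m => (E.filter (fun e => f e = f m)) ∪ (E.filter (fun e => g e = g m)) ∪
      (E.filter (fun e => h e = h m))) := by
    intro e he
    by_contra hcon
    rw [mem_biUnion] at hcon
    push Not at hcon
    have hc : ∀ m ∈ M, f e ≠ f m ∧ g e ≠ g m ∧ h e ≠ h m := by
      intro m hm
      have := hcon m hm
      rw [mem_union, mem_union, mem_filter, mem_filter, mem_filter] at this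
      push Not at this
      exact ⟨this.1.1 he, this.1.2 he, this.2 he⟩
    have heM : e ∉ M := fun h => (hc e h).1 rfl
    have hins : ∀ {δ : Type} (k : ι → δ), Set.InjOn k (M : Set ι) → (∀ m ∈ M, k e ≠ k m) →
        Set.InjOn k ((insert e M : Finset ι) : Set ι) := by
      intro δ k hk hne x hx y hy hxy
      rw [mem_coe, mem_insert] at hx hy
      rcases hx with rfl | hx
      · rcases hy with rfl | hy
        · rfl
        · exact absurd hxy (hne y hy)
      · rcases hy with rfl | hy
        · exact absurd hxy.symm (hne x hx)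
        · exact hk hx hy hxy
    have hmem : insert e M ∈ F := by
      rw [hF, mem_filter, mem_powerset]
      exact ⟨insert_subset he hM.1, hins f hM.2.1 (fun m hm => (hc m hm).1),
        hins g hM.2.2.1 (fun m hm => (hc m hm).2.1), hins h hM.2.2.2 (fun m hm => (hc m hm).2.2)⟩
    have := hmax _ hmem
    rw [card_insert_of_notMem heM] at this
    omega
  have h1 : (E.card : ℝ) ≤ ∑ m ∈ M, 3 * Δ := by
    calc (E.card : ℝ) ≤ ((M.biUnion (fun m => (E.filter (fun e => f e = f m)) ∪ (E.filter (fun e => g e = g m)) ∪
      (E.filter (fun e => h e = h m)))).card : ℝ) := by exact_mod_cast card_le_card hcov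
      _ ≤ ((∑ m ∈ M, ((E.filter (fun e => f e = f m)) ∪ (E.filter (fun e => g e = g m)) ∪
      (E.filter (fun e => h e = h m))).card : ℕ) : ℝ) := by exact_mod_cast card_biUnion_le
      _ ≤ ∑ m ∈ M, 3 * Δ := by
        push_cast
        apply sum_le_sum
        intro m _
        have e1 : (((E.filter (fun e => f e = f m)) ∪ (E.filter (fun e => g e = g m)) ∪
          (E.filter (fun e => h e = h m))).card : ℝ) ≤ (E.filter (fun e => f e = f m)).card +
            (E.filter (fun e => g e = g m)).card + (E.filter (fun e => h e = h m)).card := by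
          exact_mod_cast (card_union_le _ _).trans (Nat.add_le_add_right (card_union_le _ _) _)
        have := hf (f m)
        have := hg (g m)
        have := hh (h m)
        linarith
  rw [sum_const, nsmul_eq_mul] at h1
  linarith

end Pool.Agent.H352R3.FK
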