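import Pool.Agent.H373R2.T7.SysMain2

set_option autoImplicit false

/-! The main term of the correlations. -/

namespace Pool.Agent.H352R3.FK

open Finset
open Pool.Agent.H373R2.T7
open ArithmeticFunction (vonMangoldt)

noncomputable def gf (p : ℕ) : ℝ := if p = 2 then 1 else 1 - 1 / ((p : ℝ) - 1)

noncomputable def Sz (z : ℕ) : ℝ := (Vz z)⁻¹ * ∏ p ∈ pz z, gf p

lemma pz_succ (z : ℕ) : pz (z + 1) = if (z + 1).Prime then insert (z + 1) (pz z) else pz z := by
  ext p
  split_ifs with h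
  · rw [mem_insert, mem_pz, mem_pz]
    constructor
    · rintro ⟨h1, h2⟩
      rcases Nat.lt_or_ge p (z + 1) with h3 | h3
      · exact Or.inr ⟨by omega, h2⟩
      · exact Or.inl (by omega)
    · rintro (h1 | ⟨h1, h2⟩)
      · rw [h1]; exact ⟨le_rfl, h⟩
      · exact ⟨by omega, h2⟩
  · rw [mem_pz, mem_pz]
    constructor
    · rintro ⟨h1, h2⟩
      refine ⟨?_, h2⟩
      by_contra h3
      have : p = z + 1 := by omega
      rw [this] at h2
      exact h h2
    · rintro ⟨h1, h2⟩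
      exact ⟨by omega, h2⟩

lemma Sz_succ (z : ℕ) : Sz (z + 1) = if (z + 1).Prime then
    (1 - 1 / (((z + 1 : ℕ) : ℝ)))⁻¹ * gf (z + 1) * Sz z else Sz z := by
  unfold Sz Vz
  rw [pz_succ]
  split_ifs with h
  · have h1 : z + 1 ∉ pz z := by rw [mem_pz]; omega
    rw [prod_insert h1, prod_insert h1, mul_inv]
    ring
  · rfl

lemma Sz_bounds (z : ℕ) (hz : 2 ≤ z) : (z : ℝ) / (z - 1) ≤ Sz z ∧ Sz z ≤ 2 := by
  induction z, hz using Nat.le_induction with
  | base =>
    have h1 : Sz 2 = 2 := by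
      have e0 : pz 0 = ∅ := by
        rw [eq_empty_iff_forall_notMem]
        intro p hp
        rw [mem_pz] at hp
        have := hp.2.two_le
        omega
      have h0 : Sz 0 = 1 := by unfold Sz Vz; rw [e0]; simp
      rw [Sz_succ, if_pos (by norm_num), Sz_succ, if_neg (by norm_num), h0]
      unfold gf
      norm_num
    rw [h1]
    norm_num
  | succ z hz ih =>
    have hz0 : (2 : ℝ) ≤ z := by exact_mod_cast hz
    rw [Sz_succ]
    have h3 : ((z + 1 : ℕ) : ℝ) / ((z + 1 : ℕ) - 1) ≤ (z : ℝ) / (z - 1) := by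
      push_cast
      rw [div_le_div_iff₀ (by linarith) (by linarith)]
      nlinarith
    split_ifs with h
    · have h2 : (1 - 1 / (((z + 1 : ℕ) : ℝ)))⁻¹ * gf (z + 1) = ((z : ℝ) + 1) * (z - 1) / (z * z) := by
        unfold gf
        rw [if_neg (by omega)]
        push_cast
        have e1 : (1 - 1 / ((z : ℝ) + 1)) = z / (z + 1) := by field_simp; ring
        have e2 : (1 - 1 / ((z : ℝ) + 1 - 1)) = (z - 1) / z := by
          have : (z : ℝ) ≠ 0 := by positivity
          rw [add_sub_cancel_right]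
          field_simp
        rw [e1, e2, inv_div]
        field_simp
      rw [h2]
      constructor
      · calc ((z + 1 : ℕ) : ℝ) / ((z + 1 : ℕ) - 1) = ((z : ℝ) + 1) * (z - 1) / (z * z) * (z / (z - 1)) := by
              push_cast
              have e1 : (z : ℝ) ≠ 0 := by positivity
              have e2 : (z : ℝ) - 1 ≠ 0 := by linarith
              rw [add_sub_cancel_right]
              field_simp
          _ ≤ _ := mul_le_mul_of_nonneg_left ih.1 (by
            apply div_nonneg _ (by positivity)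
            apply mul_nonneg <;> linarith)
      · have h4 : ((z : ℝ) + 1) * (z - 1) / (z * z) ≤ 1 := by
          rw [div_le_one (by positivity)]
          nlinarith
        have h5 : 0 ≤ ((z : ℝ) + 1) * (z - 1) / (z * z) := by
          apply div_nonneg _ (by positivity)
          apply mul_nonneg <;> linarith
        have h6 : 0 ≤ Sz z := by
          refine le_trans ?_ ih.1
          apply div_nonneg <;> linarith
        calc _ ≤ 1 * Sz z := mul_le_mul_of_nonneg_right h4 h6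
          _ ≤ 2 := by rw [one_mul]; exact ih.2
    · exact ⟨h3.trans ih.1, ih.2⟩

lemma Sz_ge_one (z : ℕ) (hz : 2 ≤ z) : 1 ≤ Sz z := by
  refine le_trans ?_ (Sz_bounds z hz).1
  have hz0 : (2 : ℝ) ≤ z := by exact_mod_cast hz
  rw [le_div_iff₀ (by linarith)]
  linarith

/-- admissible shifts -/
structure Adm (z : ℕ) (α k : ℤ) : Prop where
  small : α = 1 ∨ α = -1 ∨ α = 2 ∨ α = -2
  two : ¬ (2 : ℤ) ∣ α + k
  odd : ∀ p : ℕ, p.Prime → 3 ≤ p → p ≤ z → ¬ (p : ℤ) ∣ k

lemma rho_odd (α k : ℤ) (p : ℕ) (hp : p.Prime) (h3 : 3 ≤ p) (hα : α = 1 ∨ α = -1 ∨ α = 2 ∨ α = -2) :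
    rhoA (fun p n => (p : ℤ) ∣ α * n + k) p ≤ 1 ∧
      (¬ (p : ℤ) ∣ k → rhoA (fun p n => (p : ℤ) ∣ α * n + k) p = 1) := by
  haveI : Fact p.Prime := ⟨hp⟩
  have hα0 : (α : ZMod p) ≠ 0 := by
    rw [Ne, ZMod.intCast_zmod_eq_zero_iff_dvd]
    intro h
    have h4 := Int.le_of_dvd (b := |α|) (abs_pos.2 (by rcases hα with h | h | h | h <;> rw [h] <;> norm_num))
      ((dvd_abs _ _).2 h)
    have h5 : |α| ≤ 2 := by rcases hα with h | h | h | h <;> rw [h] <;> norm_num
    omega
  have hiff : ∀ r : ℕ, r < p → ((p : ℤ) ∣ α * r + k ↔ r = (-(k : ZMod p) / α).val) := by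
    intro r hr
    rw [← ZMod.intCast_zmod_eq_zero_iff_dvd]
    push_cast
    constructor
    · intro h
      have h1 : (r : ZMod p) = -(k : ZMod p) / α := by
        rw [eq_div_iff hα0]
        linear_combination h
      rw [← h1, ZMod.val_cast_of_lt hr]
    · intro h
      have h1 : (r : ZMod p) = -(k : ZMod p) / α := by
        rw [h]
        exact ZMod.natCast_zmod_val _
      rw [h1]
      field_simp
      ring
  constructor
  · unfold rhoA
    rw [card_le_one]
    intro a ha b hb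
    simp only [mem_filter, mem_range] at ha hb
    rw [(hiff a ha.1).1 ha.2.2, (hiff b hb.1).1 hb.2.2]
  · intro hk
    unfold rhoA
    rw [card_eq_one]
    refine ⟨(-(k : ZMod p) / α).val, ?_⟩
    ext r
    simp only [mem_filter, mem_range, mem_singleton]
    constructor
    · rintro ⟨h1, _, h2⟩
      exact (hiff r h1).1 h2
    · intro h
      have h1 : r < p := by rw [h]; exact ZMod.val_lt _
      have h2 := (hiff r h1).2 h
      refine ⟨h1, ?_, h2⟩
      intro h4
      apply hk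
      have h5 : (p : ℤ) ∣ α * r := Dvd.dvd.mul_left (by exact_mod_cast h4) _
      exact (dvd_add_right h5).1 h2

lemma perQ (α k : ℤ) (hα : α = 1 ∨ α = -1 ∨ α = 2 ∨ α = -2) :
    PerA (fun (p n : ℕ) => (p : ℤ) ∣ α * n + k) 2 := by
  constructor
  · intro p n
    have h : α * (n : ℤ) + k = (α * ((n % p : ℕ) : ℤ) + k) + p * (α * ((n / p : ℕ) : ℤ)) := by
      have h1 := Nat.div_add_mod n p
      have h2 : (n : ℤ) = p * ((n / p : ℕ) : ℤ) + ((n % p : ℕ) : ℤ) := by exact_mod_cast h1.symm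
      linear_combination α * h2
    rw [h]
    exact dvd_add_left (dvd_mul_right _ _)
  · intro p hp
    rcases Nat.lt_or_ge p 3 with h | h
    · unfold rhoA
      refine le_trans (card_le_card (t := range p) ?_) (by rw [card_range]; omega)
      intro x hx
      simp only [mem_filter] at hx
      exact hx.1
    · exact (rho_odd α k p hp h hα).1.trans (by norm_num)

lemma prodQ (z : ℕ) (α k : ℤ) (h : Adm z α k) :
    ∏ p ∈ pz z, (1 - (rhoA (fun (p n : ℕ) => (p : ℤ) ∣ α * n + k) p : ℝ) / (p - 1 : ℝ)) = ∏ p ∈ pz z, gf p := by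
  apply prod_congr rfl
  intro p hp
  rw [mem_pz] at hp
  unfold gf
  split_ifs with h2
  · subst h2
    have h3 : rhoA (fun (p n : ℕ) => (p : ℤ) ∣ α * n + k) 2 = 0 := by
      unfold rhoA
      rw [card_eq_zero, eq_empty_iff_forall_notMem]
      intro r hr
      simp only [mem_filter, mem_range] at hr
      obtain ⟨h4, h5, h6⟩ := hr
      have h7 : r = 1 := by omega
      subst h7
      apply h.two
      push_cast at h6
      rwa [mul_one] at h6
    rw [h3]
    simp
  · have h3 : 3 ≤ p := by have := hp.2.two_le; omega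
    rw [(rho_odd α k p hp.2 h3 h.small).2 (h.odd p hp.2 h3 hp.1)]
    simp

theorem mainT (E U : ℕ) : ∃ X0 : ℕ, ∀ X : ℕ, X0 ≤ X → ∀ z : ℕ, 2 ≤ z → (z : ℝ) ≤ Real.log X ^ E →
    ∀ α k : ℤ, Adm z α k → ∀ A B : ℕ, A ≤ B → B ≤ X → X ≤ 8 * A →
    |(Vz z)⁻¹ * ∑ n ∈ (Ioc A B).filter (fun n : ℕ => ∀ p ∈ pz z, ¬ (p : ℤ) ∣ α * n + k), vonMangoldt n -
      Sz z * ((B : ℝ) - A)| ≤ X / Real.log X ^ U := by
  obtain ⟨N0, h0⟩ := sys_main 2 (E + 1) (U + E + 1) (by norm_num)
  obtain ⟨n1, h1⟩ := ev_L' (2 ^ (U + E + 2) + 10)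
  refine ⟨max (8 * N0) (max n1 8), fun X hX z hz hzE α k hadm A B hAB hBX hXA => ?_⟩
  have hXN : 8 * N0 ≤ X := le_trans (le_max_left _ _) hX
  have hL1 := h1 X (le_trans (le_trans (le_max_left _ _) (le_max_right _ _)) hX)
  have hX8 : 8 ≤ X := le_trans (le_trans (le_max_right _ _) (le_max_right _ _)) hX
  have hX0 : (0 : ℝ) < X := by exact_mod_cast (by omega : 0 < X)
  set L := Real.log X with hL
  have hpow0 : (0 : ℝ) < 2 ^ (U + E + 2) := by positivity
  have hL0 : 0 < L := by linarith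
  have hA0 : (0 : ℝ) < A := by exact_mod_cast (by omega : 0 < A)
  -- log A ≥ L / 2
  have hlogA : ∀ N : ℕ, A ≤ N → L / 2 ≤ Real.log N := by
    intro N hN
    have h2 : Real.log (X / 8) ≤ Real.log N := by
      apply Real.log_le_log (by positivity)
      rw [div_le_iff₀ (by norm_num)]
      have : X ≤ N * 8 := by omega
      exact_mod_cast this
    rw [Real.log_div hX0.ne' (by norm_num)] at h2
    have h3 : Real.log 8 ≤ 4 := by
      have : (8 : ℝ) = 2 ^ 3 := by norm_num
      rw [this, Real.log_pow]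
      have := Real.log_two_lt_d9
      push_cast
      linarith
    linarith
  have hzA : ∀ N : ℕ, A ≤ N → (z : ℝ) ≤ Real.log N ^ (E + 1) := by
    intro N hN
    have h2 := hlogA N hN
    have h3 : 0 < Real.log N := by linarith
    calc (z : ℝ) ≤ L ^ E := hzE
      _ ≤ (2 * Real.log N) ^ E := pow_le_pow_left₀ hL0.le (by linarith) _
      _ = 2 ^ E * Real.log N ^ E := mul_pow _ _ _
      _ ≤ Real.log N * Real.log N ^ E := by
          apply mul_le_mul_of_nonneg_right _ (by positivity)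
          have h4 : (2 : ℝ) ^ E * 2 ≤ 2 ^ (U + E + 2) := by
            rw [← pow_succ]
            exact pow_le_pow_right₀ (by norm_num) (by omega)
          linarith
      _ = Real.log N ^ (E + 1) := by rw [pow_succ]; ring
  have hper := perQ α k hadm.small
  have hprod := prodQ z α k hadm
  have hm : ∀ N : ℕ, A ≤ N → N ≤ X →
      |∑ n ∈ (Icc 1 N).filter (fun n : ℕ => ∀ p ∈ pz z, ¬ (p : ℤ) ∣ α * n + k), vonMangoldt n -
      N * ∏ p ∈ pz z, gf p| ≤ 2 ^ (U + E + 1) * (X / L ^ (U + E + 1)) := by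
    intro N hN hNX
    have h2 := h0 N (by omega) z (by omega) (hzA N hN) _ hper
    rw [hprod] at h2
    have h2' : |∑ n ∈ (Icc 1 N).filter (fun n : ℕ => ∀ p ∈ pz z, ¬ (p : ℤ) ∣ α * n + k), vonMangoldt n -
      N * ∏ p ∈ pz z, gf p| ≤ N / Real.log N ^ (U + E + 1) := by
      convert h2
    refine h2'.trans ?_
    have h3 := hlogA N hN
    have h4 : (L / 2) ^ (U + E + 1) ≤ Real.log N ^ (U + E + 1) := pow_le_pow_left₀ (by positivity) h3 _
    calc (N : ℝ) / Real.log N ^ (U + E + 1) ≤ X / (L / 2) ^ (U + E + 1) := by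
          apply div_le_div₀ hX0.le (by exact_mod_cast hNX) (by positivity) h4
      _ = 2 ^ (U + E + 1) * (X / L ^ (U + E + 1)) := by
          rw [div_pow]; field_simp
  have hA := hm A le_rfl (by omega)
  have hB := hm B hAB hBX
  have hsplit : ∑ n ∈ (Icc 1 B).filter (fun n : ℕ => ∀ p ∈ pz z, ¬ (p : ℤ) ∣ α * n + k), vonMangoldt n =
      ∑ n ∈ (Icc 1 A).filter (fun n : ℕ => ∀ p ∈ pz z, ¬ (p : ℤ) ∣ α * n + k), vonMangoldt n +
      ∑ n ∈ (Ioc A B).filter (fun n : ℕ => ∀ p ∈ pz z, ¬ (p : ℤ) ∣ α * n + k), vonMangoldt n := by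
    rw [← sum_union]
    · congr 1
      rw [← filter_union]
      congr 1
      ext n
      rw [mem_union, mem_Icc, mem_Icc, mem_Ioc]
      omega
    · apply disjoint_filter_filter
      rw [disjoint_left]
      intro n h2 h3
      rw [mem_Icc] at h2
      rw [mem_Ioc] at h3
      omega
  set SA := ∑ n ∈ (Icc 1 A).filter (fun n : ℕ => ∀ p ∈ pz z, ¬ (p : ℤ) ∣ α * n + k), vonMangoldt n with hSA
  set SB := ∑ n ∈ (Icc 1 B).filter (fun n : ℕ => ∀ p ∈ pz z, ¬ (p : ℤ) ∣ α * n + k), vonMangoldt n with hSB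
  set SC := ∑ n ∈ (Ioc A B).filter (fun n : ℕ => ∀ p ∈ pz z, ¬ (p : ℤ) ∣ α * n + k), vonMangoldt n with hSC
  set G := ∏ p ∈ pz z, gf p with hG
  have h2 : |SC - ((B : ℝ) - A) * G| ≤ 2 * (2 ^ (U + E + 1) * (X / L ^ (U + E + 1))) := by
    have e1 := abs_le.1 hA
    have e2 := abs_le.1 hB
    rw [abs_le]
    constructor <;> nlinarith [e1.1, e1.2, e2.1, e2.2]
  have hV := Vz_inv_le z (by omega)
  have hV0 : 0 < (Vz z)⁻¹ := inv_pos.2 (Vz_pos z)
  have h3 : (Vz z)⁻¹ * SC - Sz z * ((B : ℝ) - A) = (Vz z)⁻¹ * (SC - ((B : ℝ) - A) * G) := by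
    unfold Sz
    ring
  rw [h3, abs_mul, abs_of_pos hV0]
  calc (Vz z)⁻¹ * |SC - ((B : ℝ) - A) * G| ≤ L ^ E * (2 * (2 ^ (U + E + 1) * (X / L ^ (U + E + 1)))) :=
        mul_le_mul (hV.trans hzE) h2 (abs_nonneg _) (by positivity)
    _ = 2 ^ (U + E + 2) / L * (X / L ^ U) := by
        have e1 : L ^ (U + E + 1) = L ^ U * L ^ E * L := by rw [pow_succ, pow_add]
        have e2 : (2 : ℝ) ^ (U + E + 2) = 2 * 2 ^ (U + E + 1) := by rw [pow_succ]; ring
        rw [e1, e2]
        field_simp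
    _ ≤ 1 * (X / L ^ U) := by
        apply mul_le_mul_of_nonneg_right _ (by positivity)
        rw [div_le_one hL0]
        linarith
    _ = _ := one_mul _

end Pool.Agent.H352R3.FK
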