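import Pool.Agent.H352R3.FK.Exc
import Pool.Agent.H352R3.FK.MainT

set_option autoImplicit false

/-! Prime pairs on average. -/

namespace Pool.Agent.H352R3.FK

open Finset
open Pool.Agent.H373R2.T7
open ArithmeticFunction (vonMangoldt)

/-- the conclusion for one pair of parameters -/
def PairBd (z X U : ℕ) (α : ℤ) (A B : ℕ) (k : ℤ) : Prop :=
  (∑ n ∈ Ioc A B, vonMangoldt n * vonMangoldt (α * n + k).toNat ≤ Sz z * ((B : ℝ) - A) + 2 * (X / Real.log X ^ U)) ∧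
  ((∀ n ∈ Ioc A B, 1 ≤ α * (n : ℤ) + k) →
    Sz z * ((B : ℝ) - A) - 2 * (X / Real.log X ^ U) ≤ ∑ n ∈ Ioc A B, vonMangoldt n * vonMangoldt (α * n + k).toNat)

lemma lamz_toNat (z : ℕ) (m : ℤ) (hm : 1 ≤ m) :
    lamz z m.toNat = if ∀ p ∈ pz z, ¬ (p : ℤ) ∣ m then (Vz z)⁻¹ else 0 := by
  have h1 : ∀ p : ℕ, p ∣ m.toNat ↔ (p : ℤ) ∣ m := by
    intro p
    have e1 : ((m.toNat : ℕ) : ℤ) = m := Int.toNat_of_nonneg (by omega)
    constructor
    · intro h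
      rw [← e1]
      exact_mod_cast h
    · intro h
      rw [← e1] at h
      exact_mod_cast h
  have h2 : (∀ p ∈ pz z, ¬ p ∣ m.toNat) ↔ (∀ p ∈ pz z, ¬ (p : ℤ) ∣ m) := by
    constructor
    · intro h p hp hd; exact h p hp ((h1 p).2 hd)
    · intro h p hp hd; exact h p hp ((h1 p).1 hd)
  unfold lamz
  by_cases h : ∀ p ∈ pz z, ¬ (p : ℤ) ∣ m
  · rw [if_pos h, if_pos (h2.2 h)]
  · rw [if_neg h, if_neg (fun h3 => h (h2.1 h3))]

theorem pp (U : ℕ) : ∃ (zf : ℕ → ℕ) (E X0 : ℕ), ∀ X : ℕ, X0 ≤ X → 2 ≤ zf X ∧ (zf X : ℝ) ≤ Real.log X ^ E ∧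
    ∀ α : ℤ, (α = 1 ∨ α = -1 ∨ α = 2 ∨ α = -2) → ∀ A B : ℕ, A ≤ B → B ≤ X → X ≤ 8 * A →
    ∃ Ex : Finset ℤ, (Ex.card : ℝ) ≤ X / Real.log X ^ U ∧
      ∀ k : ℤ, |k| ≤ 4 * X → k ∉ Ex → Adm (zf X) α k → PairBd (zf X) X U α A B k := by
  obtain ⟨B0, hB0⟩ := exc U
  obtain ⟨X1, hX1⟩ := hB0 (B0 + 1)
  obtain ⟨X2, hX2⟩ := mainT (B0 + 1) U
  obtain ⟨X3, hX3⟩ := ev_L' (2 ^ B0 + 3)
  refine ⟨fun X => ⌊Real.log X ^ (B0 + 1)⌋₊, B0 + 1, max (max X1 X2) (max X3 6), fun X hX => ?_⟩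
  have hXX1 : X1 ≤ X := le_trans (le_trans (le_max_left _ _) (le_max_left _ _)) hX
  have hXX2 : X2 ≤ X := le_trans (le_trans (le_max_right _ _) (le_max_left _ _)) hX
  have hL := hX3 X (le_trans (le_trans (le_max_left _ _) (le_max_right _ _)) hX)
  have hX6 : 6 ≤ X := le_trans (le_trans (le_max_right _ _) (le_max_right _ _)) hX
  have hX0 : (0 : ℝ) < X := by exact_mod_cast (by omega : 0 < X)
  set L := Real.log X with hLdef
  have hp0 : (1 : ℝ) ≤ 2 ^ B0 := one_le_pow₀ (by norm_num)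
  have hL0 : 0 < L := by linarith
  set z : ℕ := ⌊L ^ (B0 + 1)⌋₊ with hz
  have hzle : (z : ℝ) ≤ L ^ (B0 + 1) := Nat.floor_le (by positivity)
  have hzgt : L ^ (B0 + 1) < z + 1 := Nat.lt_floor_add_one _
  have hLB : 1 ≤ L ^ B0 := one_le_pow₀ (by linarith)
  have hzbig : (2 * L) ^ B0 + 1 ≤ L ^ (B0 + 1) := by
    rw [mul_pow, pow_succ]
    nlinarith
  have hz2 : 2 ≤ z := by
    have h1 : (4 : ℝ) ≤ L ^ (B0 + 1) := by
      rw [pow_succ]
      nlinarith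
    have : (2 : ℝ) < z := by linarith
    exact_mod_cast this.le
  have hlog6 : Real.log ((6 * X : ℕ) : ℝ) ≤ 2 * L := by
    have h1 : Real.log ((6 * X : ℕ) : ℝ) ≤ Real.log ((X : ℝ) * X) := by
      apply Real.log_le_log
      · push_cast; positivity
      · push_cast
        have : (6 : ℝ) ≤ X := by exact_mod_cast hX6
        nlinarith
    rw [Real.log_mul hX0.ne' hX0.ne'] at h1
    linarith
  have hLlog6 : L ≤ Real.log ((6 * X : ℕ) : ℝ) := by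
    apply Real.log_le_log hX0
    push_cast
    linarith
  refine ⟨hz2, hzle, fun α hα A B hAB hBX hXA => ?_⟩
  have hI : Ioc A B ⊆ Icc 1 X := by
    intro n hn
    rw [mem_Ioc] at hn
    rw [mem_Icc]
    omega
  refine ⟨excS z X U α (Ioc A B), ?_, fun k hk hkE hadm => ?_⟩
  · apply hX1 X hXX1 z _ _ α (by rcases hα with h | h | h | h <;> rw [h] <;> norm_num) _ hI
    · calc Real.log ((6 * X : ℕ) : ℝ) ^ B0 ≤ (2 * L) ^ B0 := pow_le_pow_left₀ (by linarith) hlog6 _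
        _ ≤ z := by linarith
    · exact hzle.trans (pow_le_pow_left₀ hL0.le hLlog6 _)
  have hkmem : k ∈ Icc (-((4 * X : ℕ) : ℤ)) ((4 * X : ℕ) : ℤ) := by
    rw [mem_Icc]
    push_cast
    exact abs_le.1 hk
  have hcor : |cor z (6 * X) α (Ioc A B) k| ≤ X / L ^ U := by
    by_contra hc
    push Not at hc
    apply hkE
    unfold excS
    rw [mem_filter]
    exact ⟨hkmem, hc⟩
  have hmain := hX2 X hXX2 z hz2 hzle α k hadm A B hAB hBX hXA
  set S := Sz z * ((B : ℝ) - A) with hS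
  set F := ∑ n ∈ (Ioc A B).filter (fun n : ℕ => ∀ p ∈ pz z, ¬ (p : ℤ) ∣ α * n + k), vonMangoldt n with hF
  have hV0 : 0 < (Vz z)⁻¹ := inv_pos.2 (Vz_pos z)
  have hm6 : ∀ n ∈ Ioc A B, α * (n : ℤ) + k ≤ ((6 * X : ℕ) : ℤ) := by
    intro n hn
    rw [mem_Ioc] at hn
    have h1 := abs_le.1 hk
    have h2 : (n : ℤ) ≤ X := by exact_mod_cast hn.2.trans hBX
    have h3 : (0 : ℤ) ≤ n := by positivity
    push_cast
    rcases hα with h | h | h | h <;> rw [h] <;> linarith [h1.2]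
  have hpt1 : ∀ n ∈ Ioc A B, 1 ≤ α * (n : ℤ) + k → vonMangoldt n * vonMangoldt (α * n + k).toNat =
      vonMangoldt n * hh z (6 * X) (α * n + k) + (Vz z)⁻¹ * (if ∀ p ∈ pz z, ¬ (p : ℤ) ∣ α * n + k then vonMangoldt n else 0) := by
    intro n hn h1
    unfold hh
    rw [if_pos ⟨h1, hm6 n hn⟩, lamz_toNat z _ h1]
    split_ifs <;> ring
  have hpt2 : ∀ n ∈ Ioc A B, vonMangoldt n * vonMangoldt (α * n + k).toNat ≤
      vonMangoldt n * hh z (6 * X) (α * n + k) + (Vz z)⁻¹ * (if ∀ p ∈ pz z, ¬ (p : ℤ) ∣ α * n + k then vonMangoldt n else 0) := by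
    intro n hn
    by_cases h1 : 1 ≤ α * (n : ℤ) + k
    · exact (hpt1 n hn h1).le
    · unfold hh
      rw [if_neg (fun h => h1 h.1), mul_zero, zero_add]
      have : (α * (n : ℤ) + k).toNat = 0 := by omega
      rw [this, ArithmeticFunction.map_zero, mul_zero]
      apply mul_nonneg hV0.le
      split_ifs
      · exact ArithmeticFunction.vonMangoldt_nonneg
      · exact le_rfl
  have hFsum : ∑ n ∈ Ioc A B, (Vz z)⁻¹ * (if ∀ p ∈ pz z, ¬ (p : ℤ) ∣ α * n + k then vonMangoldt n else 0) = (Vz z)⁻¹ * F := by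
    rw [← mul_sum, hF, sum_filter]
  have h1 := abs_le.1 hcor
  have h2 := abs_le.1 hmain
  constructor
  · refine (sum_le_sum hpt2).trans ?_
    rw [sum_add_distrib, hFsum]
    have h3 : ∑ n ∈ Ioc A B, vonMangoldt n * hh z (6 * X) (α * n + k) = cor z (6 * X) α (Ioc A B) k := rfl
    rw [h3]
    linarith [h1.2, h2.2]
  · intro hpos
    rw [sum_congr rfl (fun n hn => hpt1 n hn (hpos n hn)), sum_add_distrib, hFsum]
    have h3 : ∑ n ∈ Ioc A B, vonMangoldt n * hh z (6 * X) (α * n + k) = cor z (6 * X) α (Ioc A B) k := rfl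
    rw [h3]
    linarith [h1.1, h2.1]

end Pool.Agent.H352R3.FK
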