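import Pool.Agent.H352R3.FK.Count
import Pool.Agent.H352R3.FK.Cover

set_option autoImplicit false

/-! Positions and movers. -/

namespace Pool.Agent.H352R3.FK

open Finset

def mode : Fin 10 → Fin 3 := ![0, 2, 2, 2, 1, 0, 0, 1, 1, 2]
def val (p : Fin 10 × (ℕ × ℕ)) (s : Fin 3) : ℕ :=
  if s = 0 then p.2.1 else if s = 1 then 2 * p.2.2 else col (sg p.1) p.2.1 p.2.2
def sl (m : Fin 3) (b : Bool) : Fin 3 :=
  if m = 0 then (if b then 2 else 0) else if m = 1 then (if b then 2 else 1) else (if b then 1 else 0)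
def ps (p : Fin 10 × (ℕ × ℕ)) (b : Bool) : ℕ := val p (sl (mode p.1) b)
def mv (p : Fin 10 × (ℕ × ℕ)) : ℕ :=
  if mode p.1 = 0 then p.2.2 else if mode p.1 = 1 then p.2.1 else col (sg p.1) p.2.1 p.2.2

def clsU (ℓ t u : ℕ) : Finset ℕ := CL t (cells ℓ (range (6 * ℓ)) u)
def T3 (ℓ t : ℕ) : Finset ℕ := clsU ℓ t 10100 ∪ clsU ℓ t 10120
def T2 (ℓ t : ℕ) : Finset ℕ := clsU ℓ t 14550 ∪ clsU ℓ t 17600 ∪ clsU ℓ t 19000 ∪ clsU ℓ t 19600 ∪ clsU ℓ t 19200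
def T1 (ℓ t : ℕ) : Finset ℕ := (range (DD ℓ * t)).filter (fun p => p.Prime ∧ (DD ℓ + 1) * t < 2 * p)
def MV (ℓ t : ℕ) : Finset ℕ := T3 ℓ t ∪ T2 ℓ t ∪ T1 ℓ t
def ND (ℓ t : ℕ) : Finset ℕ := (T3 ℓ t).biUnion (fun q => {q, 2 * q, 3 * q}) ∪ (T2 ℓ t).biUnion (fun q => {q, 2 * q}) ∪
  T1 ℓ t ∪ PI (DD ℓ * t) ((DD ℓ + 1) * t)

lemma CL_mono {t : ℕ} {I I' : Finset ℕ} (h : I ⊆ I') {q : ℕ} (hq : q ∈ CL t I) : q ∈ CL t I' := by
  obtain ⟨v, hv, h1⟩ := mem_CL.1 hq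
  exact mem_CL.2 ⟨v, h hv, h1⟩

lemma x_cls {ℓ t : ℕ} {Bd : Finset ℤ} {r : Fin 10} {e : ℕ × ℕ} (he : e ∈ RR ℓ t Bd r) : e.1 ∈ clsU ℓ t (ux r) :=
  CL_mono (image_subset_image (Jx_sub ℓ r)) (mem_RR he).1

lemma y_cls {ℓ t : ℕ} {Bd : Finset ℤ} {r : Fin 10} {e : ℕ × ℕ} (he : e ∈ RR ℓ t Bd r) : e.2 ∈ clsU ℓ t (uy r) :=
  CL_mono (image_subset_image (Jy_sub ℓ r)) (mem_RR he).2.1

lemma u_tab : ∀ r : Fin 10, (ux r = 10100 ∨ ux r = 10120 ∨ ux r = 14550 ∨ ux r = 17600 ∨ ux r = 19000 ∨ ux r = 19600 ∨ ux r = 19200) ∧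
    (uy r = 10100 ∨ uy r = 10120 ∨ uy r = 14550 ∨ uy r = 17600 ∨ uy r = 19000 ∨ uy r = 19600 ∨ uy r = 19200) := by decide

lemma cls_T (ℓ t u q : ℕ) (hu : u = 10100 ∨ u = 10120 ∨ u = 14550 ∨ u = 17600 ∨ u = 19000 ∨ u = 19600 ∨ u = 19200)
    (hq : q ∈ clsU ℓ t u) : q ∈ T3 ℓ t ∪ T2 ℓ t := by
  unfold T3 T2
  simp only [mem_union]
  rcases hu with h | h | h | h | h | h | h <;> rw [h] at hq <;> tauto

lemma T_MV {ℓ t q : ℕ} (hq : q ∈ T3 ℓ t ∪ T2 ℓ t) : q ∈ MV ℓ t := by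
  unfold MV
  rw [mem_union]
  exact Or.inl hq

lemma T_ND {ℓ t q : ℕ} (hq : q ∈ T3 ℓ t ∪ T2 ℓ t) : q ∈ ND ℓ t ∧ 2 * q ∈ ND ℓ t := by
  unfold ND
  simp only [mem_union, mem_biUnion, mem_insert, mem_singleton] at hq ⊢
  rcases hq with h | h
  · exact ⟨Or.inl (Or.inl (Or.inl ⟨q, h, Or.inl rfl⟩)), Or.inl (Or.inl (Or.inl ⟨q, h, Or.inr (Or.inl rfl)⟩))⟩
  · exact ⟨Or.inl (Or.inl (Or.inr ⟨q, h, Or.inl rfl⟩)), Or.inl (Or.inl (Or.inr ⟨q, h, Or.inr rfl⟩))⟩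

lemma col_tab : ∀ r : Fin 10, r ≠ 9 → (sg r = 1 ∧ 2 * (uy r + 1) + (ux r + 1) ≤ 39998) ∨
    (sg r = -1 ∧ 20001 + (ux r + 1) ≤ 2 * uy r ∧ 2 * (uy r + 1) ≤ 39998 + ux r) := by decide

lemma col_bd {ℓ t : ℕ} {Bd : Finset ℤ} {r : Fin 10} {e : ℕ × ℕ} (he : e ∈ RR ℓ t Bd r) (hr : r ≠ 9) :
    20001 * (VV ℓ * t) ≤ col (sg r) e.1 e.2 ∧ col (sg r) e.1 e.2 ≤ 39998 * (VV ℓ * t) := by
  obtain ⟨h1, h2, _⟩ := winx he
  obtain ⟨h3, h4, _⟩ := winy he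
  have h5 := (mem_RR he).2.2.2
  set s := VV ℓ * t with hs
  have h6 := (ux_bd r).1
  have h7 := (uy_bd r).1
  rcases col_tab r hr with ⟨h, h8⟩ | ⟨h, h8, h9⟩
  · rw [h] at h5 ⊢
    have e1 : (2 * (uy r + 1) + (ux r + 1)) * s ≤ 39998 * s := Nat.mul_le_mul_right s h8
    have e2 : 10100 * s ≤ uy r * s := Nat.mul_le_mul_right s h7
    have e3 : 10100 * s ≤ ux r * s := Nat.mul_le_mul_right s h6
    have e4 : (2 * (uy r + 1) + (ux r + 1)) * s = 2 * ((uy r + 1) * s) + (ux r + 1) * s := by ring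
    constructor <;> omega
  · rw [h] at h5 ⊢
    have e1 : (20001 + (ux r + 1)) * s ≤ 2 * uy r * s := Nat.mul_le_mul_right s h8
    have e2 : 2 * (uy r + 1) * s ≤ (39998 + ux r) * s := Nat.mul_le_mul_right s h9
    have e3 : (20001 + (ux r + 1)) * s = 20001 * s + (ux r + 1) * s := by ring
    have e4 : 2 * uy r * s = 2 * (uy r * s) := by ring
    have e5 : 2 * (uy r + 1) * s = 2 * ((uy r + 1) * s) := by ring
    have e6 : (39998 + ux r) * s = 39998 * s + ux r * s := by ring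
    constructor <;> omega

lemma DDt (ℓ t : ℕ) : DD ℓ * t = 40000 * (VV ℓ * t) := by unfold DD; ring
lemma DDt1 (ℓ t : ℕ) : (DD ℓ + 1) * t = 40000 * (VV ℓ * t) + t := by unfold DD; ring
lemma t_le (ℓ t : ℕ) : t ≤ VV ℓ * t := Nat.le_mul_of_pos_left t (VV_pos ℓ)

lemma col_T1 {ℓ t : ℕ} (ht : 1 ≤ t) {Bd : Finset ℤ} {r : Fin 10} {e : ℕ × ℕ} (he : e ∈ RR ℓ t Bd r) (hr : r ≠ 9) :
    col (sg r) e.1 e.2 ∈ T1 ℓ t := by
  obtain ⟨h1, h2⟩ := col_bd he hr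
  unfold T1
  rw [mem_filter, mem_range, DDt, DDt1]
  have h3 := (mem_RR he).2.2.1
  have h4 := t_le ℓ t
  exact ⟨by omega, h3, by omega⟩

lemma col_9 {ℓ t : ℕ} (ht : 1 ≤ t) {Bd : Finset ℤ} {e : ℕ × ℕ} (he : e ∈ RR ℓ t Bd 9) :
    col (sg 9) e.1 e.2 ∈ clsU ℓ t 19000 := by
  obtain ⟨hx, hy, hcp, hc⟩ := mem_RR he
  obtain ⟨v, hv, h1, h2, _⟩ := mem_CL.1 hy
  obtain ⟨w, hw, h3, h4, _⟩ := mem_CL.1 hx
  unfold Iy cells Jy at hv
  unfold Ix cells Jx at hw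
  rw [if_pos rfl, mem_image] at hv hw
  obtain ⟨j, hj, rfl⟩ := hv
  obtain ⟨i, hi, rfl⟩ := hw
  rw [mem_Ico] at hj
  rw [mem_range] at hi
  have g1 : gap ℓ (uy 9) = 1 := rfl
  have g2 : gap ℓ (ux 9) = 1 := rfl
  have u1 : uy 9 = 14550 := rfl
  have u2 : ux 9 = 10100 := rfl
  have s1 : sg 9 = -1 := rfl
  rw [g1, u1, one_mul] at h1 h2
  rw [g2, u2, one_mul] at h3 h4
  have hc' : ((col (sg 9) e.1 e.2 : ℕ) : ℤ) = 2 * (e.2 : ℤ) - e.1 := by rw [hc, s1]; ring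
  set q := col (sg 9) e.1 e.2 with hq
  -- q in (19000 V t, (19000 V + 6 ℓ) t)
  have k1 : ((14550 * VV ℓ + j : ℕ) : ℤ) * t < e.2 := by exact_mod_cast h1
  have k2 : (e.2 : ℤ) ≤ ((14550 * VV ℓ + j + 1 : ℕ) : ℤ) * t := by exact_mod_cast h2
  have k3 : ((10100 * VV ℓ + i : ℕ) : ℤ) * t < e.1 := by exact_mod_cast h3
  have k4 : (e.1 : ℤ) ≤ ((10100 * VV ℓ + i + 1 : ℕ) : ℤ) * t := by exact_mod_cast h4
  have tz : (1 : ℤ) ≤ t := by exact_mod_cast ht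
  have j1 : (ℓ : ℤ) ≤ j := by exact_mod_cast hj.1
  have j2 : (j : ℤ) + 1 ≤ 3 * ℓ := by exact_mod_cast hj.2
  have i1 : (i : ℤ) + 1 ≤ 2 * ℓ := by exact_mod_cast hi
  have i0 : (0 : ℤ) ≤ i := by positivity
  have q1 : (19000 * (VV ℓ : ℤ)) * t < q := by
    push_cast at k1 k4
    have k5 : 0 ≤ (2 * (j : ℤ) - i - 1) * t := mul_nonneg (by linarith) (by linarith)
    rw [hc']
    nlinarith
  have q2 : (q : ℤ) < (19000 * (VV ℓ : ℤ) + 6 * ℓ) * t := by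
    push_cast at k2 k3
    have k5 : 0 ≤ (6 * (ℓ : ℤ) - (2 * j + 2 - i)) * t := mul_nonneg (by linarith) (by linarith)
    rw [hc']
    nlinarith
  have q1' : (19000 * VV ℓ) * t < q := by exact_mod_cast q1
  have q2' : q < (19000 * VV ℓ + 6 * ℓ) * t := by exact_mod_cast q2
  have v1 : 19000 * VV ℓ ≤ (q - 1) / t := by
    rw [Nat.le_div_iff_mul_le (by omega)]
    omega
  have v2 : (q - 1) / t < 19000 * VV ℓ + 6 * ℓ := by
    rw [Nat.div_lt_iff_lt_mul (by omega)]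
    omega
  unfold clsU
  rw [mem_CL]
  refine ⟨(q - 1) / t, ?_, ?_, ?_, hcp⟩
  · unfold cells
    rw [mem_image]
    refine ⟨(q - 1) / t - 19000 * VV ℓ, mem_range.2 (by omega), ?_⟩
    have g3 : gap ℓ 19000 = 1 := rfl
    rw [g3, one_mul]
    omega
  · have := Nat.div_mul_le_self (q - 1) t
    omega
  · have := Nat.lt_div_mul_add (a := q - 1) (b := t) (by omega)
    have e1 : ((q - 1) / t + 1) * t = (q - 1) / t * t + t := by ring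
    omega

lemma cls_win {ℓ t u q : ℕ} (hq : q ∈ clsU ℓ t u) : u * (VV ℓ * t) < q ∧ q ≤ (u + 1) * (VV ℓ * t) ∧ q.Prime :=
  win ℓ t _ (Subset.refl _) u q hq

lemma win_uniq (s u u' q : ℕ) (h1 : u * s < q) (h2 : q ≤ (u + 1) * s) (h3 : u' * s < q) (h4 : q ≤ (u' + 1) * s) : u = u' := by
  by_contra hne
  rcases Nat.lt_or_gt_of_ne hne with h | h
  · have : (u + 1) * s ≤ u' * s := Nat.mul_le_mul_right s h
    omega
  · have : (u' + 1) * s ≤ u * s := Nat.mul_le_mul_right s h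
    omega

lemma tabA : ∀ r : Fin 10, mode r = 2 → r = 9 ∨ (r ≠ 9 ∧ tag r = 1 ∧ sg r = -1) := by decide
lemma tabA9 : ∀ r : Fin 10, mode r ≠ 2 → r ≠ 9 ∧ tag r = 0 := by decide
lemma tabX : ∀ r r' : Fin 10, mode r ≠ 1 → mode r' ≠ 1 → ux r = ux r' → r = r' := by decide
lemma tabY : ∀ r r' : Fin 10, mode r ≠ 0 → mode r' ≠ 0 → uy r = uy r' → r = r' := by decide

/-- class of the mover -/
def mc (r : Fin 10) : ℕ := if mode r = 0 then uy r else if mode r = 1 then ux r else if r = 9 then 19000 else 0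
lemma tabM : ∀ r r' : Fin 10, mc r ≠ 0 → mc r = mc r' → r = r' := by decide
lemma tabM0 : ∀ r : Fin 10, (mc r = 0 ↔ (mode r = 2 ∧ r ≠ 9)) := by decide
lemma tabM1 : ∀ r : Fin 10, mc r ≤ 19600 := by decide
lemma tabS : ∀ r : Fin 10, mode r = 0 → sg r = 1 := by decide
lemma tabS2 : ∀ r : Fin 10, mode r = 2 → sg r = -1 := by decide

variable {ℓ t : ℕ} {Bd : Finset ℤ} {M : Finset (Fin 10 × (ℕ × ℕ))}

lemma mv_mem (ht : 1 ≤ t) (hM : ∀ p ∈ M, p.2 ∈ RR ℓ t Bd p.1) (p : Fin 10 × (ℕ × ℕ)) (hp : p ∈ M) : mv p ∈ MV ℓ t := by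
  have he := hM p hp
  unfold mv
  split_ifs with h1 h2
  · exact T_MV (cls_T ℓ t _ _ (u_tab p.1).2 (y_cls he))
  · exact T_MV (cls_T ℓ t _ _ (u_tab p.1).1 (x_cls he))
  · have h3 : mode p.1 = 2 := by
      generalize mode p.1 = m at h1 h2
      revert m; decide
    rcases tabA p.1 h3 with h | h
    · rw [h] at he ⊢
      exact T_MV (cls_T ℓ t _ _ (by tauto) (col_9 ht he))
    · unfold MV
      rw [mem_union]
      exact Or.inr (col_T1 ht he h.1)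

lemma ps_mem (ht : 1 ≤ t) (hM : ∀ p ∈ M, p.2 ∈ RR ℓ t Bd p.1) (p : Fin 10 × (ℕ × ℕ)) (hp : p ∈ M) (b : Bool) :
    ps p b ∈ ND ℓ t := by
  have he := hM p hp
  have hxN := (T_ND (cls_T ℓ t _ _ (u_tab p.1).1 (x_cls he))).1
  have hyN := (T_ND (cls_T ℓ t _ _ (u_tab p.1).2 (y_cls he))).2
  have hcN : mode p.1 ≠ 2 → col (sg p.1) p.2.1 p.2.2 ∈ ND ℓ t := by
    intro h
    have := col_T1 ht he (tabA9 p.1 h).1
    unfold ND
    simp only [mem_union]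
    exact Or.inl (Or.inr this)
  unfold ps val
  split_ifs with h1 h2
  · exact hxN
  · exact hyN
  · apply hcN
    intro h3
    rw [h3] at h1 h2
    revert h1 h2
    cases b <;> decide

lemma val_cases (hℓt : 1 ≤ VV ℓ * t) (hM : ∀ p ∈ M, p.2 ∈ RR ℓ t Bd p.1) (p : Fin 10 × (ℕ × ℕ)) (hp : p ∈ M) (b : Bool) :
    (sl (mode p.1) b = 0 ∧ ps p b = p.2.1 ∧ ¬ 2 ∣ ps p b ∧ ps p b ≤ 19601 * (VV ℓ * t)) ∨
    (sl (mode p.1) b = 1 ∧ ps p b = 2 * p.2.2) ∨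
    (sl (mode p.1) b = 2 ∧ ps p b = col (sg p.1) p.2.1 p.2.2 ∧ ¬ 2 ∣ ps p b ∧ 20001 * (VV ℓ * t) ≤ ps p b) := by
  have he := hM p hp
  have hodd : ∀ q : ℕ, q.Prime → 3 ≤ q → ¬ 2 ∣ q := by
    intro q hq h3 hd
    have := (Nat.prime_dvd_prime_iff_eq Nat.prime_two hq).1 hd
    omega
  have hs3 : ∀ x : Fin 3, x = 0 ∨ x = 1 ∨ x = 2 := by decide
  rcases hs3 (sl (mode p.1) b) with h | h | h
  · left
    have hps : ps p b = p.2.1 := by unfold ps val; rw [if_pos h]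
    rw [hps]
    obtain ⟨h1, h2, h3⟩ := winx he
    have h4 := ux_bd p.1
    have h5 : 10100 * (VV ℓ * t) ≤ ux p.1 * (VV ℓ * t) := Nat.mul_le_mul_right _ h4.1
    have h6 : (ux p.1 + 1) * (VV ℓ * t) ≤ 19601 * (VV ℓ * t) := Nat.mul_le_mul_right _ (by omega)
    exact ⟨h, rfl, hodd _ h3 (by omega), by omega⟩
  · right; left
    refine ⟨h, ?_⟩
    unfold ps val
    rw [if_neg (by rw [h]; decide), if_pos h]
  · right; right
    have hps : ps p b = col (sg p.1) p.2.1 p.2.2 := by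
      unfold ps val
      rw [if_neg (by rw [h]; decide), if_neg (by rw [h]; decide)]
    rw [hps]
    have h2 : mode p.1 ≠ 2 := by
      intro h3
      rw [h3] at h
      revert h
      cases b <;> decide
    have h3 := col_bd he (tabA9 p.1 h2).1
    exact ⟨h, rfl, hodd _ (mem_RR he).2.2.1 (by omega), h3.1⟩

lemma sl_tab : ∀ (m : Fin 3) (b b' : Bool), sl m b = sl m b' → b = b' := by decide
lemma sl0 : ∀ (m : Fin 3) (b : Bool), sl m b = 0 → m ≠ 1 := by decide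
lemma sl1 : ∀ (m : Fin 3) (b : Bool), sl m b = 1 → m ≠ 0 := by decide
lemma sl2 : ∀ (m : Fin 3) (b : Bool), sl m b = 2 → m ≠ 2 := by decide

lemma ps_inj (hℓt : 1 ≤ VV ℓ * t) (hM : ∀ p ∈ M, p.2 ∈ RR ℓ t Bd p.1)
    (hf : Set.InjOn ff (M : Set (Fin 10 × (ℕ × ℕ)))) (hg : Set.InjOn fg (M : Set (Fin 10 × (ℕ × ℕ))))
    (hh : Set.InjOn fh (M : Set (Fin 10 × (ℕ × ℕ)))) :
    ∀ p ∈ M, ∀ p' ∈ M, ∀ b b', ps p b = ps p' b' → p = p' ∧ b = b' := by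
  intro p hp p' hp' b b' heq
  have he := hM p hp
  have he' := hM p' hp'
  have hcl : p = p' → sl (mode p.1) b = sl (mode p'.1) b' → p = p' ∧ b = b' := by
    intro h1 h2
    refine ⟨h1, ?_⟩
    rw [h1] at h2
    exact sl_tab _ _ _ h2
  rcases val_cases hℓt hM p hp b with ⟨a1, a2, a3, a4⟩ | ⟨a1, a2⟩ | ⟨a1, a2, a3, a4⟩ <;>
    rcases val_cases hℓt hM p' hp' b' with ⟨b1, b2, b3, b4⟩ | ⟨b1, b2⟩ | ⟨b1, b2, b3, b4⟩
  · apply hcl _ (a1.trans b1.symm)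
    rw [a2, b2] at heq
    obtain ⟨w1, w2, _⟩ := winx he
    obtain ⟨w3, w4, _⟩ := winx he'
    rw [← heq] at w3 w4
    have h1 := tabX _ _ (sl0 _ _ a1) (sl0 _ _ b1) (win_uniq _ _ _ _ w1 w2 w3 w4)
    exact hf hp hp' (Prod.ext h1 heq)
  · exfalso
    rw [heq, b2] at a3
    exact a3 (dvd_mul_right _ _)
  · exfalso
    omega
  · exfalso
    rw [← heq, a2] at b3
    exact b3 (dvd_mul_right _ _)
  · apply hcl _ (a1.trans b1.symm)
    rw [a2, b2] at heq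
    have heq' : p.2.2 = p'.2.2 := by omega
    obtain ⟨w1, w2, _⟩ := winy he
    obtain ⟨w3, w4, _⟩ := winy he'
    rw [← heq'] at w3 w4
    have h1 := tabY _ _ (sl1 _ _ a1) (sl1 _ _ b1) (win_uniq _ _ _ _ w1 w2 w3 w4)
    exact hg hp hp' (Prod.ext h1 heq')
  · exfalso
    rw [← heq, a2] at b3
    exact b3 (dvd_mul_right _ _)
  · exfalso
    omega
  · exfalso
    rw [heq, b2] at a3
    exact a3 (dvd_mul_right _ _)
  · apply hcl _ (a1.trans b1.symm)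
    rw [a2, b2] at heq
    have h1 := (tabA9 _ (sl2 _ _ a1)).2
    have h2 := (tabA9 _ (sl2 _ _ b1)).2
    exact hh hp hp' (Prod.ext (h1.trans h2.symm) heq)

/-- the mover lies in its class -/
lemma mv_cls (ht : 1 ≤ t) (hM : ∀ p ∈ M, p.2 ∈ RR ℓ t Bd p.1) (p : Fin 10 × (ℕ × ℕ)) (hp : p ∈ M) :
    (mc p.1 = 0 → mv p = col (sg p.1) p.2.1 p.2.2 ∧ tag p.1 = 1 ∧ 20001 * (VV ℓ * t) ≤ mv p) ∧
    (mc p.1 ≠ 0 → mv p ∈ clsU ℓ t (mc p.1)) := by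
  have he := hM p hp
  constructor
  · intro h0
    obtain ⟨h1, h2⟩ := (tabM0 p.1).1 h0
    have h3 : mv p = col (sg p.1) p.2.1 p.2.2 := by
      unfold mv
      rw [if_neg (by rw [h1]; decide), if_neg (by rw [h1]; decide)]
    rcases tabA p.1 h1 with h | h
    · exact absurd h h2
    · refine ⟨h3, h.2.1, ?_⟩
      rw [h3]
      exact (col_bd he h2).1
  · intro h0
    unfold mv mc
    split_ifs with h1 h2 h3
    · exact y_cls he
    · exact x_cls he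
    · rw [h3] at he ⊢
      exact col_9 ht he
    · exfalso
      apply h0
      unfold mc
      rw [if_neg h1, if_neg h2, if_neg h3]

lemma mv_inj (ht : 1 ≤ t) (hM : ∀ p ∈ M, p.2 ∈ RR ℓ t Bd p.1)
    (hf : Set.InjOn ff (M : Set (Fin 10 × (ℕ × ℕ)))) (hg : Set.InjOn fg (M : Set (Fin 10 × (ℕ × ℕ))))
    (hh : Set.InjOn fh (M : Set (Fin 10 × (ℕ × ℕ)))) : Set.InjOn mv (M : Set (Fin 10 × (ℕ × ℕ))) := by
  intro p hp p' hp' heq
  have hst : 1 ≤ VV ℓ * t := ht.trans (t_le ℓ t)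
  obtain ⟨a1, a2⟩ := mv_cls ht hM p hp
  obtain ⟨b1, b2⟩ := mv_cls ht hM p' hp'
  have hbig : ∀ q : Fin 10 × (ℕ × ℕ), mc q.1 ≠ 0 → mv q ∈ clsU ℓ t (mc q.1) → mv q ≤ 19601 * (VV ℓ * t) := by
    intro q _ h2
    have h3 := (cls_win h2).2.1
    have h4 : (mc q.1 + 1) * (VV ℓ * t) ≤ 19601 * (VV ℓ * t) := Nat.mul_le_mul_right _ (by have := tabM1 q.1; omega)
    omega
  by_cases h1 : mc p.1 = 0 <;> by_cases h2 : mc p'.1 = 0
  · obtain ⟨c1, c2, _⟩ := a1 h1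
    obtain ⟨d1, d2, _⟩ := b1 h2
    rw [c1, d1] at heq
    exact hh hp hp' (Prod.ext (c2.trans d2.symm) heq)
  · exfalso
    have h3 := (a1 h1).2.2
    have h4 := hbig p' h2 (b2 h2)
    omega
  · exfalso
    have h3 := (b1 h2).2.2
    have h4 := hbig p h1 (a2 h1)
    omega
  · have w1 := cls_win (a2 h1)
    have w2 := cls_win (b2 h2)
    rw [← heq] at w2
    have h3 := tabM _ _ h1 (win_uniq _ _ _ _ w1.1 w1.2.1 w2.1 w2.2.1)
    unfold mv at heq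
    rw [← h3] at heq
    split_ifs at heq with h4 h5
    · exact hg hp hp' (Prod.ext h3 heq)
    · exact hf hp hp' (Prod.ext h3 heq)
    · exact hh hp hp' (Prod.ext (congrArg tag h3) (by
        show col (sg p.1) p.2.1 p.2.2 = col (sg p'.1) p'.2.1 p'.2.2
        rw [← h3]; exact heq))

lemma ps_mod (hM : ∀ p ∈ M, p.2 ∈ RR ℓ t Bd p.1) (p : Fin 10 × (ℕ × ℕ)) (hp : p ∈ M) (b : Bool) :
    ps p b ≡ ps p false [MOD mv p] := by
  cases b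
  · rfl
  have he := hM p hp
  have hc := (mem_RR he).2.2.2
  have h3 : ∀ m : Fin 3, m = 0 ∨ m = 1 ∨ m = 2 := by decide
  rcases h3 (mode p.1) with h | h | h
  · have e1 : ps p true = col (sg p.1) p.2.1 p.2.2 := by unfold ps val sl; rw [h]; rfl
    have e2 : ps p false = p.2.1 := by unfold ps val sl; rw [h]; rfl
    have e3 : mv p = p.2.2 := by unfold mv; rw [if_pos h]
    rw [e1, e2, e3]
    rw [tabS _ h] at hc ⊢
    have : col 1 p.2.1 p.2.2 = p.2.1 + p.2.2 * 2 := by omega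
    rw [this]
    exact Nat.modEq_iff_dvd.2 ⟨-2, by push_cast; ring⟩
  · have e1 : ps p true = col (sg p.1) p.2.1 p.2.2 := by unfold ps val sl; rw [h]; rfl
    have e2 : ps p false = 2 * p.2.2 := by unfold ps val sl; rw [h]; rfl
    have e3 : mv p = p.2.1 := by unfold mv; rw [if_neg (by rw [h]; decide), if_pos h]
    rw [e1, e2, e3]
    apply Nat.modEq_iff_dvd.2
    rw [hc]
    refine ⟨-sg p.1, ?_⟩
    push_cast
    ring
  · have e1 : ps p true = 2 * p.2.2 := by unfold ps val sl; rw [h]; rfl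
    have e2 : ps p false = p.2.1 := by unfold ps val sl; rw [h]; rfl
    have e3 : mv p = col (sg p.1) p.2.1 p.2.2 := by
      unfold mv; rw [if_neg (by rw [h]; decide), if_neg (by rw [h]; decide)]
    rw [e1, e2, e3]
    apply Nat.modEq_iff_dvd.2
    rw [hc, tabS2 _ h]
    refine ⟨-1, ?_⟩
    push_cast
    ring

end Pool.Agent.H352R3.FK
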