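import Pool.Agent.H352R3.FK.Cnt2

set_option autoImplicit false

/-! A generic relation `colour = 2y + σx` between two classes of primes. -/

namespace Pool.Agent.H352R3.FK

open Finset

/-- bounds for prime pair counts in unit cells -/
structure Env (D t z : ℕ) (Bd : Finset ℤ) (c0 c1 : ℝ) : Prop where
  zlt : 8 * z < D * t
  up : ∀ α : ℤ, (α = 1 ∨ α = -1 ∨ α = 2 ∨ α = -2) → ∀ v : ℕ, D ≤ 8 * v → v + 1 ≤ D → ∀ k : ℤ,
    |k| ≤ 4 * ((D * t : ℕ) : ℤ) → k ∉ Bd → Adm z α k → ((PC (D * t) α k (v * t) ((v + 1) * t)).card : ℝ) ≤ c1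
  low : ∀ α : ℤ, (α = 1 ∨ α = -1 ∨ α = 2 ∨ α = -2) → ∀ v : ℕ, D ≤ 8 * v → v + 1 ≤ D → ∀ k : ℤ,
    |k| ≤ 4 * ((D * t : ℕ) : ℤ) → k ∉ Bd → Adm z α k →
    (∀ n ∈ Ioc (v * t) ((v + 1) * t), ((D * t : ℕ) : ℤ) ≤ 8 * (α * (n : ℤ) + k)) →
    c0 ≤ ((PC (D * t) α k (v * t) ((v + 1) * t)).card : ℝ)
  c1nn : 0 ≤ c1

/-- the primes in a set of cells -/
def CL (t : ℕ) (I : Finset ℕ) : Finset ℕ := I.biUnion (fun v => PI (v * t) ((v + 1) * t))

/-- good primes -/
def gd (Bd : Finset ℤ) (q : ℕ) : Prop := (q : ℤ) ∉ Bd ∧ -(q : ℤ) ∉ Bd ∧ 2 * (q : ℤ) ∉ Bd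

instance (Bd : Finset ℤ) (q : ℕ) : Decidable (gd Bd q) := by unfold gd; infer_instance

/-- the colour -/
def col (σ : ℤ) (x y : ℕ) : ℕ := (2 * (y : ℤ) + σ * x).toNat

/-- the edges -/
def RE (D t : ℕ) (Bd : Finset ℤ) (σ : ℤ) (Ix Iy : Finset ℕ) : Finset (ℕ × ℕ) :=
  ((CL t Ix) ×ˢ (CL t Iy)).filter (fun e => gd Bd e.1 ∧ gd Bd e.2 ∧ (col σ e.1 e.2).Prime ∧ gd Bd (col σ e.1 e.2) ∧
    ((D * t : ℕ) : ℤ) ≤ 8 * (2 * (e.2 : ℤ) + σ * e.1))

lemma mem_CL {t : ℕ} {I : Finset ℕ} {q : ℕ} : q ∈ CL t I ↔ ∃ v ∈ I, v * t < q ∧ q ≤ (v + 1) * t ∧ q.Prime := by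
  unfold CL PI
  rw [mem_biUnion]
  constructor
  · rintro ⟨v, hv, h⟩
    rw [mem_filter, mem_Ioc] at h
    exact ⟨v, hv, h.1.1, h.1.2, h.2⟩
  · rintro ⟨v, hv, h1, h2, h3⟩
    refine ⟨v, hv, ?_⟩
    rw [mem_filter, mem_Ioc]
    exact ⟨⟨h1, h2⟩, h3⟩

lemma bad_card (Bd : Finset ℤ) (S : Finset ℕ) : (S.filter (fun q => ¬ gd Bd q)).card ≤ 3 * Bd.card := by
  have hsub : S.filter (fun q => ¬ gd Bd q) ⊆ S.filter (fun q : ℕ => (q : ℤ) ∈ Bd) ∪
      S.filter (fun q : ℕ => -(q : ℤ) ∈ Bd) ∪ S.filter (fun q : ℕ => 2 * (q : ℤ) ∈ Bd) := by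
    intro q hq
    rw [mem_filter] at hq
    rw [mem_union, mem_union, mem_filter, mem_filter, mem_filter]
    unfold gd at hq
    tauto
  have h1 : (S.filter (fun q : ℕ => (q : ℤ) ∈ Bd)).card ≤ Bd.card := by
    apply card_le_card_of_injOn (fun q : ℕ => (q : ℤ))
    · intro q hq; exact (mem_filter.1 (mem_coe.1 hq)).2
    · intro a _ b _ h; simpa using h
  have h2 : (S.filter (fun q : ℕ => -(q : ℤ) ∈ Bd)).card ≤ Bd.card := by
    apply card_le_card_of_injOn (fun q : ℕ => -(q : ℤ))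
    · intro q hq; exact (mem_filter.1 (mem_coe.1 hq)).2
    · intro a _ b _ h; simpa using h
  have h3 : (S.filter (fun q : ℕ => 2 * (q : ℤ) ∈ Bd)).card ≤ Bd.card := by
    apply card_le_card_of_injOn (fun q : ℕ => 2 * (q : ℤ))
    · intro q hq; exact (mem_filter.1 (mem_coe.1 hq)).2
    · intro a _ b _ h; simpa using h
  have h4 := card_le_card hsub
  have h5 := card_union_le (S.filter (fun q : ℕ => (q : ℤ) ∈ Bd) ∪
      S.filter (fun q : ℕ => -(q : ℤ) ∈ Bd)) (S.filter (fun q : ℕ => 2 * (q : ℤ) ∈ Bd))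
  have h6 := card_union_le (S.filter (fun q : ℕ => (q : ℤ) ∈ Bd)) (S.filter (fun q : ℕ => -(q : ℤ) ∈ Bd))
  omega

/-- admissible cell sets -/
def okI (D : ℕ) (I : Finset ℕ) : Prop := ∀ v ∈ I, D ≤ 8 * v ∧ v + 1 ≤ D

lemma CL_bd {D t : ℕ} {I : Finset ℕ} (hI : okI D I) {q : ℕ} (hq : q ∈ CL t I) :
    D * t ≤ 8 * q ∧ q ≤ D * t ∧ q.Prime := by
  obtain ⟨v, hv, h1, h2, h3⟩ := mem_CL.1 hq
  obtain ⟨h4, h5⟩ := hI v hv
  refine ⟨?_, ?_, h3⟩
  · calc D * t ≤ 8 * v * t := Nat.mul_le_mul_right t h4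
      _ = 8 * (v * t) := by ring
      _ ≤ 8 * q := by omega
  · exact h2.trans (Nat.mul_le_mul_right t h5)

lemma adm_q {D t z : ℕ} {Bd : Finset ℤ} {c0 c1 : ℝ} (hE : Env D t z Bd c0 c1) (q : ℕ) (hq : q.Prime) (hq1 : D * t ≤ 8 * q)
    (α : ℤ) (hα : α = 2 ∨ α = -2) (τ : ℤ) (hτ : τ = 1 ∨ τ = -1) (hz : 2 ≤ z) : Adm z α (τ * q) := by
  have hzq : z < q := by have := hE.zlt; omega
  have hodd : ¬ (2 : ℤ) ∣ (q : ℤ) := by
    intro h
    have h1 : 2 ∣ q := by exact_mod_cast h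
    have := (Nat.prime_dvd_prime_iff_eq Nat.prime_two hq).1 h1
    omega
  refine ⟨by tauto, ?_, ?_⟩
  · rcases hα with h | h <;> rcases hτ with h' | h' <;> rw [h, h'] <;> omega
  · intro p hp h3 hpz hd
    have h1 : (p : ℤ) ∣ q := by
      rcases hτ with h' | h'
      · rw [h', one_mul] at hd; exact hd
      · rw [h'] at hd
        have : (-1 : ℤ) * q = -q := by ring
        rw [this] at hd
        exact (dvd_neg).1 hd
    have h2 : p ∣ q := by exact_mod_cast h1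
    have := (Nat.prime_dvd_prime_iff_eq hp hq).1 h2
    omega

lemma adm_2q {D t z : ℕ} {Bd : Finset ℤ} {c0 c1 : ℝ} (hE : Env D t z Bd c0 c1) (q : ℕ) (hq : q.Prime) (hq1 : D * t ≤ 8 * q)
    (α : ℤ) (hα : α = 1 ∨ α = -1) : Adm z α (2 * q) := by
  have hzq : z < q := by have := hE.zlt; omega
  refine ⟨by tauto, ?_, ?_⟩
  · rcases hα with h | h <;> rw [h] <;> omega
  · intro p hp h3 hpz hd
    have h1 : p ∣ 2 * q := by exact_mod_cast hd
    rcases (Nat.Prime.dvd_mul hp).1 h1 with h2 | h2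
    · have := Nat.le_of_dvd (by norm_num) h2
      omega
    · have := (Nat.prime_dvd_prime_iff_eq hp hq).1 h2
      omega

lemma card_biUnion_bd {β : Type} [DecidableEq β] (I : Finset ℕ) (F : ℕ → Finset β) (c : ℝ) (h : ∀ v ∈ I, ((F v).card : ℝ) ≤ c) :
    ((I.biUnion F).card : ℝ) ≤ I.card * c := by
  have h1 : ((I.biUnion F).card : ℝ) ≤ ∑ v ∈ I, ((F v).card : ℝ) := by exact_mod_cast card_biUnion_le
  refine h1.trans ((sum_le_sum h).trans ?_)
  rw [sum_const, nsmul_eq_mul]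

lemma deg_x {D t z : ℕ} {Bd : Finset ℤ} {c0 c1 : ℝ} (hE : Env D t z Bd c0 c1) (hz : 2 ≤ z) (σ : ℤ) (hσ : σ = 1 ∨ σ = -1)
    (Ix Iy : Finset ℕ) (hIx : okI D Ix) (hIy : okI D Iy) (x : ℕ) :
    (((RE D t Bd σ Ix Iy).filter (fun e => e.1 = x)).card : ℝ) ≤ Iy.card * c1 := by
  rcases ((RE D t Bd σ Ix Iy).filter (fun e => e.1 = x)).eq_empty_or_nonempty with h0 | ⟨e0, he0⟩
  · rw [h0, card_empty, Nat.cast_zero]
    exact mul_nonneg (Nat.cast_nonneg _) hE.c1nn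
  rw [mem_filter] at he0
  obtain ⟨he0, rfl⟩ := he0
  unfold RE at he0
  rw [mem_filter, mem_product] at he0
  obtain ⟨⟨hx, -⟩, hgx, -⟩ := he0
  obtain ⟨hb1, hb2, hxp⟩ := CL_bd hIx hx
  have hk : |σ * (e0.1 : ℤ)| ≤ 4 * ((D * t : ℕ) : ℤ) := by
    rcases hσ with h | h <;> rw [h] <;> rw [abs_le] <;> push_cast <;> push_cast at hb2 <;> constructor <;> nlinarith
  have hkB : σ * (e0.1 : ℤ) ∉ Bd := by
    rcases hσ with h | h <;> rw [h]
    · rw [one_mul]; exact hgx.1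
    · rw [neg_one_mul]; exact hgx.2.1
  refine le_trans ?_ (card_biUnion_bd Iy (fun v => PC (D * t) 2 (σ * e0.1) (v * t) ((v + 1) * t)) c1 (fun v hv =>
    hE.up 2 (by tauto) v (hIy v hv).1 (hIy v hv).2 _ hk hkB (adm_q hE _ hxp hb1 2 (by tauto) σ hσ hz)))
  have : ((RE D t Bd σ Ix Iy).filter (fun e => e.1 = e0.1)).card ≤
      (Iy.biUnion (fun v => PC (D * t) 2 (σ * e0.1) (v * t) ((v + 1) * t))).card := by
    apply card_le_card_of_injOn (fun e => e.2)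
    · intro e he
      rw [mem_coe, mem_filter] at he
      obtain ⟨he, hex⟩ := he
      unfold RE at he
      rw [mem_filter, mem_product] at he
      obtain ⟨⟨_, hy⟩, _, _, hc, _, hX⟩ := he
      obtain ⟨v, hv, h1, h2, h3⟩ := mem_CL.1 hy
      rw [mem_coe, mem_biUnion]
      refine ⟨v, hv, ?_⟩
      unfold PC
      rw [mem_filter, mem_Ioc]
      unfold col at hc
      rw [hex] at hc hX
      exact ⟨⟨h1, h2⟩, h3, hc, hX⟩
    · intro e he e' he' hee
      rw [mem_coe, mem_filter] at he he'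
      exact Prod.ext (he.2.trans he'.2.symm) hee
  exact_mod_cast this

lemma deg_y {D t z : ℕ} {Bd : Finset ℤ} {c0 c1 : ℝ} (hE : Env D t z Bd c0 c1) (σ : ℤ) (hσ : σ = 1 ∨ σ = -1)
    (Ix Iy : Finset ℕ) (hIx : okI D Ix) (hIy : okI D Iy) (y : ℕ) :
    (((RE D t Bd σ Ix Iy).filter (fun e => e.2 = y)).card : ℝ) ≤ Ix.card * c1 := by
  rcases ((RE D t Bd σ Ix Iy).filter (fun e => e.2 = y)).eq_empty_or_nonempty with h0 | ⟨e0, he0⟩
  · rw [h0, card_empty, Nat.cast_zero]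
    exact mul_nonneg (Nat.cast_nonneg _) hE.c1nn
  rw [mem_filter] at he0
  obtain ⟨he0, rfl⟩ := he0
  unfold RE at he0
  rw [mem_filter, mem_product] at he0
  obtain ⟨⟨-, hy⟩, -, hgy, -⟩ := he0
  obtain ⟨hb1, hb2, hyp⟩ := CL_bd hIy hy
  have hk : |2 * (e0.2 : ℤ)| ≤ 4 * ((D * t : ℕ) : ℤ) := by
    rw [abs_le]
    constructor <;> omega
  refine le_trans ?_ (card_biUnion_bd Ix (fun v => PC (D * t) σ (2 * e0.2) (v * t) ((v + 1) * t)) c1 (fun v hv =>
    hE.up σ (by tauto) v (hIx v hv).1 (hIx v hv).2 _ hk hgy.2.2 (adm_2q hE _ hyp hb1 σ hσ)))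
  have : ((RE D t Bd σ Ix Iy).filter (fun e => e.2 = e0.2)).card ≤
      (Ix.biUnion (fun v => PC (D * t) σ (2 * e0.2) (v * t) ((v + 1) * t))).card := by
    apply card_le_card_of_injOn (fun e => e.1)
    · intro e he
      rw [mem_coe, mem_filter] at he
      obtain ⟨he, hex⟩ := he
      unfold RE at he
      rw [mem_filter, mem_product] at he
      obtain ⟨⟨hx, _⟩, _, _, hc, _, hX⟩ := he
      obtain ⟨v, hv, h1, h2, h3⟩ := mem_CL.1 hx
      rw [mem_coe, mem_biUnion]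
      refine ⟨v, hv, ?_⟩
      unfold PC
      rw [mem_filter, mem_Ioc]
      unfold col at hc
      rw [hex] at hc hX
      rw [add_comm] at hc hX
      exact ⟨⟨h1, h2⟩, h3, hc, hX⟩
    · intro e he e' he' hee
      rw [mem_coe, mem_filter] at he he'
      exact Prod.ext hee (he.2.trans he'.2.symm)
  exact_mod_cast this

lemma deg_c {D t z : ℕ} {Bd : Finset ℤ} {c0 c1 : ℝ} (hE : Env D t z Bd c0 c1) (hz : 2 ≤ z) (σ : ℤ) (hσ : σ = 1 ∨ σ = -1)
    (Ix Iy : Finset ℕ) (hIx : okI D Ix) (hIy : okI D Iy) (c : ℕ) (I' : Finset ℕ) (hI' : I' ⊆ Iy)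
    (hcon : ∀ e ∈ RE D t Bd σ Ix Iy, col σ e.1 e.2 = c → e.2 ∈ CL t I') :
    (((RE D t Bd σ Ix Iy).filter (fun e => col σ e.1 e.2 = c)).card : ℝ) ≤ I'.card * c1 := by
  rcases ((RE D t Bd σ Ix Iy).filter (fun e => col σ e.1 e.2 = c)).eq_empty_or_nonempty with h0 | ⟨e0, he0⟩
  · rw [h0, card_empty, Nat.cast_zero]
    exact mul_nonneg (Nat.cast_nonneg _) hE.c1nn
  rw [mem_filter] at he0
  obtain ⟨he0, hc0⟩ := he0
  unfold RE at he0
  rw [mem_filter, mem_product] at he0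
  obtain ⟨⟨hx, hy⟩, -, -, hcp, hgc, hX0⟩ := he0
  obtain ⟨hb1, hb2, hxp⟩ := CL_bd hIx hx
  obtain ⟨hb3, hb4, hyp⟩ := CL_bd hIy hy
  rw [hc0] at hcp hgc
  have hct : ∀ e ∈ RE D t Bd σ Ix Iy, col σ e.1 e.2 = c → (c : ℤ) = 2 * (e.2 : ℤ) + σ * e.1 := by
    intro e he hec
    unfold RE at he
    rw [mem_filter, mem_product] at he
    have := he.2.2.2.2.2
    unfold col at hec
    omega
  have hc0' : (c : ℤ) = 2 * (e0.2 : ℤ) + σ * e0.1 := by
    unfold col at hc0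
    omega
  have hc1 : D * t ≤ 8 * c := by omega
  have hc4 : (c : ℤ) ≤ 4 * ((D * t : ℕ) : ℤ) := by
    rcases hσ with h | h <;> rw [h] at hc0' <;> omega
  have hk : |σ * (c : ℤ)| ≤ 4 * ((D * t : ℕ) : ℤ) := by
    rcases hσ with h | h <;> rw [h] <;> rw [abs_le] <;> constructor <;> omega
  have hkB : σ * (c : ℤ) ∉ Bd := by
    rcases hσ with h | h <;> rw [h]
    · rw [one_mul]; exact hgc.1
    · rw [neg_one_mul]; exact hgc.2.1
  have hα : (-2 * σ = 2 ∨ -2 * σ = -2) := by rcases hσ with h | h <;> rw [h] <;> norm_num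
  refine le_trans ?_ (card_biUnion_bd I' (fun v => PC (D * t) (-2 * σ) (σ * c) (v * t) ((v + 1) * t)) c1 (fun v hv =>
    hE.up (-2 * σ) (by tauto) v (hIy v (hI' hv)).1 (hIy v (hI' hv)).2 _ hk hkB (adm_q hE _ hcp hc1 _ hα σ hσ hz)))
  have : ((RE D t Bd σ Ix Iy).filter (fun e => col σ e.1 e.2 = c)).card ≤
      (I'.biUnion (fun v => PC (D * t) (-2 * σ) (σ * c) (v * t) ((v + 1) * t))).card := by
    apply card_le_card_of_injOn (fun e => e.2)
    · intro e he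
      rw [mem_coe, mem_filter] at he
      obtain ⟨he, hec⟩ := he
      have h1 := hcon e he hec
      have h2 := hct e he hec
      obtain ⟨v, hv, h3, h4, h5⟩ := mem_CL.1 h1
      rw [mem_coe, mem_biUnion]
      refine ⟨v, hv, ?_⟩
      unfold RE at he
      rw [mem_filter, mem_product] at he
      obtain ⟨hb5, hb6, hxp'⟩ := CL_bd hIx he.1.1
      have h6 : -2 * σ * (e.2 : ℤ) + σ * c = e.1 := by
        rcases hσ with h | h <;> rw [h] at h2 ⊢ <;> omega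
      unfold PC
      rw [mem_filter, mem_Ioc, h6]
      refine ⟨⟨h3, h4⟩, h5, ?_, ?_⟩
      · rw [Int.toNat_natCast]; exact hxp'
      · exact_mod_cast hb5
    · intro e he e' he' hee
      rw [mem_coe, mem_filter] at he he'
      have h1 := hct e he.1 he.2
      have h2 := hct e' he'.1 he'.2
      have hee' : e.2 = e'.2 := hee
      apply Prod.ext _ hee'
      rw [hee'] at h1
      rcases hσ with h | h <;> rw [h] at h1 h2 <;> omega
  exact_mod_cast this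

lemma edge_low {D t z : ℕ} {Bd : Finset ℤ} {c0 c1 : ℝ} (hE : Env D t z Bd c0 c1) (hz : 2 ≤ z) (σ : ℤ) (hσ : σ = 1 ∨ σ = -1)
    (Ix Iy : Finset ℕ) (hIx : okI D Ix) (hIy : okI D Iy)
    (hpos : ∀ x ∈ CL t Ix, ∀ v ∈ Iy, ∀ y ∈ Ioc (v * t) ((v + 1) * t), ((D * t : ℕ) : ℤ) ≤ 8 * (2 * (y : ℤ) + σ * x))
    (hnn : 0 ≤ (Iy.card : ℝ) * c0 - 6 * Bd.card) :
    (((CL t Ix).card : ℝ) - 3 * Bd.card) * ((Iy.card : ℝ) * c0 - 6 * Bd.card) ≤ ((RE D t Bd σ Ix Iy).card : ℝ) := by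
  have hfib : ((RE D t Bd σ Ix Iy).card : ℝ) = ∑ x ∈ CL t Ix, (((RE D t Bd σ Ix Iy).filter (fun e => e.1 = x)).card : ℝ) := by
    have := card_eq_sum_card_fiberwise (s := RE D t Bd σ Ix Iy) (t := CL t Ix) (f := fun e => e.1) (by
      intro e he
      rw [mem_coe] at he ⊢
      unfold RE at he
      rw [mem_filter, mem_product] at he
      exact he.1.1)
    exact_mod_cast this
  rw [hfib]
  have hx : ∀ x ∈ (CL t Ix).filter (fun x => gd Bd x),
      (Iy.card : ℝ) * c0 - 6 * Bd.card ≤ (((RE D t Bd σ Ix Iy).filter (fun e => e.1 = x)).card : ℝ) := by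
    intro x hx
    rw [mem_filter] at hx
    obtain ⟨hx, hgx⟩ := hx
    obtain ⟨hb1, hb2, hxp⟩ := CL_bd hIx hx
    have hk : |σ * (x : ℤ)| ≤ 4 * ((D * t : ℕ) : ℤ) := by
      rcases hσ with h | h <;> rw [h] <;> rw [abs_le] <;> constructor <;> omega
    have hkB : σ * (x : ℤ) ∉ Bd := by
      rcases hσ with h | h <;> rw [h]
      · rw [one_mul]; exact hgx.1
      · rw [neg_one_mul]; exact hgx.2.1
    set U := Iy.biUnion (fun v => PC (D * t) 2 (σ * x) (v * t) ((v + 1) * t)) with hU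
    have hUc : (Iy.card : ℝ) * c0 ≤ U.card := by
      have h1 : U.card = ∑ v ∈ Iy, (PC (D * t) 2 (σ * x) (v * t) ((v + 1) * t)).card := by
        rw [hU]
        apply card_biUnion
        intro a _ b _ hab
        refine disjoint_left.2 ?_
        intro n hn1 hn2
        unfold PC at hn1 hn2
        rw [mem_filter, mem_Ioc] at hn1 hn2
        rcases Nat.lt_or_gt_of_ne hab with h | h
        · have : (a + 1) * t ≤ b * t := Nat.mul_le_mul_right t h
          omega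
        · have : (b + 1) * t ≤ a * t := Nat.mul_le_mul_right t h
          omega
      rw [h1]
      push_cast
      have h2 : (Iy.card : ℝ) * c0 = ∑ v ∈ Iy, c0 := by rw [sum_const, nsmul_eq_mul]
      rw [h2]
      apply sum_le_sum
      intro v hv
      apply hE.low 2 (by tauto) v (hIy v hv).1 (hIy v hv).2 _ hk hkB (adm_q hE _ hxp hb1 2 (by tauto) σ hσ hz)
      exact hpos x hx v hv
    have hUsub : U ⊆ (U.filter (fun y => gd Bd y ∧ gd Bd (col σ x y))) ∪ U.filter (fun y => ¬ gd Bd y) ∪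
        U.filter (fun y => ¬ gd Bd (col σ x y)) := by
      intro y hy
      rw [mem_union, mem_union, mem_filter, mem_filter, mem_filter]
      tauto
    have hc1 : (U.filter (fun y => ¬ gd Bd (col σ x y))).card ≤ 3 * Bd.card := by
      refine le_trans ?_ (bad_card Bd (U.image (fun y => col σ x y)))
      apply card_le_card_of_injOn (fun y => col σ x y)
      · intro y hy
        rw [mem_coe, mem_filter] at hy
        rw [mem_coe, mem_filter]
        exact ⟨mem_image_of_mem _ hy.1, hy.2⟩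
      · intro y hy y' hy' hyy
        rw [mem_coe, mem_filter, hU, mem_biUnion] at hy hy'
        obtain ⟨⟨v, hv, h1⟩, _⟩ := hy
        obtain ⟨⟨v', hv', h1'⟩, _⟩ := hy'
        unfold PC at h1 h1'
        rw [mem_filter] at h1 h1'
        have h2 := h1.2.2.2
        have h2' := h1'.2.2.2
        have h3 : (2 * (y : ℤ) + σ * x).toNat = (2 * (y' : ℤ) + σ * x).toNat := hyy
        have h4 : (0 : ℤ) ≤ ((D * t : ℕ) : ℤ) := by positivity
        omega
    have hc2 : (U.filter (fun y => ¬ gd Bd y)).card ≤ 3 * Bd.card := bad_card Bd U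
    have hc3 : (U.filter (fun y => gd Bd y ∧ gd Bd (col σ x y))).card ≤
        ((RE D t Bd σ Ix Iy).filter (fun e => e.1 = x)).card := by
      apply card_le_card_of_injOn (fun y => (x, y))
      · intro y hy
        rw [mem_coe, mem_filter, hU, mem_biUnion] at hy
        obtain ⟨⟨v, hv, h1⟩, h5, h6⟩ := hy
        unfold PC at h1
        rw [mem_filter, mem_Ioc] at h1
        rw [mem_coe, mem_filter]
        refine ⟨?_, rfl⟩
        unfold RE
        rw [mem_filter, mem_product]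
        refine ⟨⟨hx, ?_⟩, hgx, h5, h1.2.2.1, h6, h1.2.2.2⟩
        exact mem_CL.2 ⟨v, hv, h1.1.1, h1.1.2, h1.2.1⟩
      · intro y _ y' _ hyy
        exact (Prod.mk.inj hyy).2
    have h7 := card_le_card hUsub
    have h8 := card_union_le ((U.filter (fun y => gd Bd y ∧ gd Bd (col σ x y))) ∪ U.filter (fun y => ¬ gd Bd y))
      (U.filter (fun y => ¬ gd Bd (col σ x y)))
    have h9 := card_union_le (U.filter (fun y => gd Bd y ∧ gd Bd (col σ x y))) (U.filter (fun y => ¬ gd Bd y))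
    have h10 : U.card ≤ ((RE D t Bd σ Ix Iy).filter (fun e => e.1 = x)).card + 6 * Bd.card := by omega
    have h11 : (U.card : ℝ) ≤ ((RE D t Bd σ Ix Iy).filter (fun e => e.1 = x)).card + 6 * Bd.card := by exact_mod_cast h10
    linarith
  have h1 : ∑ x ∈ (CL t Ix).filter (fun x => gd Bd x), ((Iy.card : ℝ) * c0 - 6 * Bd.card) ≤
      ∑ x ∈ CL t Ix, (((RE D t Bd σ Ix Iy).filter (fun e => e.1 = x)).card : ℝ) :=
    (sum_le_sum hx).trans (sum_le_sum_of_subset_of_nonneg (filter_subset _ _) (fun _ _ _ => Nat.cast_nonneg _))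
  rw [sum_const, nsmul_eq_mul] at h1
  refine le_trans (mul_le_mul_of_nonneg_right ?_ hnn) h1
  have h2 := bad_card Bd (CL t Ix)
  have h3 := card_filter_add_card_filter_not (s := CL t Ix) (fun x => gd Bd x)
  have h4 : (CL t Ix).card ≤ ((CL t Ix).filter (fun x => gd Bd x)).card + 3 * Bd.card := by omega
  have h5 : ((CL t Ix).card : ℝ) ≤ ((CL t Ix).filter (fun x => gd Bd x)).card + 3 * Bd.card := by exact_mod_cast h4
  linarith

end Pool.Agent.H352R3.FK
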